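import Mathlib
import Pool.Agent.Lib.MP_12eaff_co.BK.Defs2
import Pool.Agent.Lib.MP_12eaff_co.BK.TSE

set_option autoImplicit false

namespace Pool.Agent.Lib.MP_12eaff_co.BK

open Finset
open scoped Classical

variable {V : Type} [Fintype V] {G : SimpleGraph V} {D : ℕ}

/-- Redundant neighbours, counted by colours. -/
theorem red_cnt (c : V → ℕ) (t : V) (U : Finset V) (S : Finset ℕ)
    (hU : ∀ e, G.Adj t e → ¬ c e < D → e ∈ U) (hS : ∀ e, G.Adj t e → c e < D → c e ∈ S) :
    ∃ B, Red G D c t B ∧ (nb G t \ B).card ≤ U.card + S.card := by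
  obtain ⟨R, h1, h2, h3⟩ := exists_subset_injOn_image_eq_of_surjOn (f := c)
    ((nb G t).filter (c · < D) : Finset V) (((nb G t).filter (c · < D)).image c)
    (by rw [coe_image]; exact Set.surjOn_image _ _)
  refine ⟨(nb G t).filter (c · < D) \ R, fun b hb => ?_, (card_le_card (t := U ∪ R) ?_).trans
    ((card_union_le _ _).trans (Nat.add_le_add_left ?_ _))⟩
  · obtain ⟨b', q1, q2⟩ := mem_image.1 (h3 ▸ mem_image_of_mem c (mem_sdiff.1 hb).1)
    exact ⟨(mem_filter.1 (mem_sdiff.1 hb).1).2, b', mem_nb.1 (mem_filter.1 (h1 q1)).1,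
      fun q => (mem_sdiff.1 q).2 q1, q2⟩
  · intro e he
    obtain ⟨q1, q2⟩ := mem_sdiff.1 he
    by_cases q : c e < D
    · exact mem_union_right _ (by_contra fun q3 => q2 (mem_sdiff.2 ⟨mem_filter.2 ⟨q1, q⟩, q3⟩))
    · exact mem_union_left _ (hU e (mem_nb.1 q1) q)
  · rw [← card_image_of_injOn h2, h3]
    refine card_le_card fun γ hγ => ?_
    obtain ⟨e, q, rfl⟩ := mem_image.1 hγ
    exact hS e (mem_nb.1 (mem_filter.1 q).1) (mem_filter.1 q).2

open TSE in
theorem e3b (h : MC G D) : E3bst G D := by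
  intro W a b c hW hD h6 ab ac bc nab nac nbc hx
  obtain ⟨t, ht⟩ := card_pos.1 (by omega : 0 < W.card)
  obtain ⟨t', ht', tt⟩ := exists_mem_ne (by omega : 1 < W.card) t
  have aW : a ∉ W := fun q => (hx a q).1.ne rfl
  have bW : b ∉ W := fun q => (hx b q).2.1.ne rfl
  have cW : c ∉ W := fun q => (hx c q).2.2.ne rfl
  obtain ⟨X, hX, kX⟩ : ∃ X : Finset V, (∀ v, v ∈ X ↔ v = a ∨ v = b ∨ v = c ∨ v ∈ W) ∧
      X.card = W.card + 3 := ⟨insert a (insert b (insert c W)), by simp, by
    rw [card_insert_of_notMem (by simp [ab, ac, aW]), card_insert_of_notMem (by simp [bc, bW]),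
      card_insert_of_notMem cW]⟩
  obtain ⟨c0, p0, h0⟩ := col_del h X ((hX a).2 (.inl rfl)) (hx t ht).1
  have cs : ∀ v (Y : Finset V), (∀ y ∈ Y, G.Adj v y ∧ y ∈ X) →
      (seen G X c0 v).card + Y.card ≤ D + 1 := fun v Y hY => by
    have h1 : (seen G X c0 v).card ≤ (nb G v \ X).card := card_image_le
    have h2 : Y.card ≤ (nb G v ∩ X).card :=
      card_le_card fun y hy => mem_inter.2 ⟨mem_nb.2 (hY y hy).1, (hY y hy).2⟩
    have h3 := card_sdiff_add_card_inter (nb G v) X
    have h4 := h.deg v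
    omega
  have WX : ∀ y ∈ W, y ∈ X := fun y hy => (hX y).2 (.inr (.inr (.inr hy)))
  have ka := cs a W fun y hy => ⟨(hx y hy).1.symm, WX y hy⟩
  have kb := cs b W fun y hy => ⟨(hx y hy).2.1.symm, WX y hy⟩
  have kc := cs c W fun y hy => ⟨(hx y hy).2.2.symm, WX y hy⟩
  have kw : ∀ x ∈ W, (seen G X c0 x).card + W.card + 1 ≤ D := fun x q => by
    have := cs x (X.erase x) fun y hy => ⟨by
      rcases (hX y).1 (mem_of_mem_erase hy) with rfl | rfl | rfl | q'
      exacts [(hx x q).1, (hx x q).2.1, (hx x q).2.2, hW x q y q' (ne_of_mem_erase hy).symm],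
      mem_of_mem_erase hy⟩
    rw [card_erase_of_mem (WX x q)] at this
    omega
  have key : ∀ α β γ σ τ, α < D → β < D → γ < D → α ∉ seen G X c0 a → β ∉ seen G X c0 b →
      γ ∉ seen G X c0 c → ({α, β, γ} : Finset ℕ) ⊆ {σ, τ} →
      D + 1 ≤ W.card + (insert σ (insert τ (seen G X c0 t))).card := by
    intro α β γ σ τ hα hβ hγ sα sβ sγ hs
    by_contra hn
    have p1 := p0.put fun e => ne_of_notMem h0 hα sα
    have p2 := p1.put (v := b) (γ := β) fun e he => by
      rw [Function.update_of_ne fun q => nab (q ▸ he).symm]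
      exact ne_of_notMem h0 hβ sβ he
    have p3 := p2.put (v := c) (γ := γ) fun e he => by
      rw [Function.update_of_ne fun q => nbc (q ▸ he).symm,
        Function.update_of_ne fun q => nac (q ▸ he).symm]
      exact ne_of_notMem h0 hγ sγ he
    obtain ⟨c1, p3, ea, eb, ec, eo⟩ : ∃ c1, PCol G D c1 ∧ c1 a = α ∧ c1 b = β ∧ c1 c = γ ∧
        ∀ v, v ≠ a → v ≠ b → v ≠ c → c1 v = c0 v :=
      ⟨_, p3, by simp [ab, ac], by simp [bc], by simp, fun v q1 q2 q3 => by simp [q1, q2, q3]⟩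
    have hu : ∀ v, ¬ c1 v < D ↔ v ∈ W := fun v => by
      by_cases q1 : v = a
      · simp [q1, ea, hα, aW]
      by_cases q2 : v = b
      · simp [q2, eb, hβ, bW]
      by_cases q3 : v = c
      · simp [q3, ec, hγ, cW]
      rw [eo v q1 q2 q3, h0, hX]
      simp [q1, q2, q3]
    have hr : ∀ x, ∃ B, Red G D c1 x B ∧ (nb G x \ B).card ≤
        (W.erase x).card + (insert σ (insert τ (seen G X c0 x))).card := fun x =>
      red_cnt c1 x _ _ (fun e he q => mem_erase.2 ⟨he.ne', (hu e).1 q⟩) fun e he q => by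
        simp only [insert_subset_iff, singleton_subset_iff, mem_insert, mem_singleton,
          ← or_assoc] at hs ⊢
        by_cases q1 : e = a
        · exact .inl (q1 ▸ ea ▸ hs.1)
        by_cases q2 : e = b
        · exact .inl (q2 ▸ eb ▸ hs.2.1)
        by_cases q3 : e = c
        · exact .inl (q3 ▸ ec ▸ hs.2.2)
        rw [eo e q1 q2 q3] at q ⊢
        exact .inr (mem_image_of_mem _ (mem_sdiff.2 ⟨mem_nb.2 he, (h0 e).1 q⟩))
    obtain ⟨B1, r1, k1⟩ := hr t'
    obtain ⟨B2, r2, k2⟩ := hr t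
    rw [card_erase_of_mem ‹_›] at k1 k2
    have := kw t' ht'
    have := card_insert_le σ (insert τ (seen G X c0 t'))
    have := card_insert_le τ (seen G X c0 t')
    refine h.ncol (finish h.deg p3 (hW t' ht' t ht tt) ((hu _).2 ht') ((hu _).2 ht)
      (fun v hv => ?_) B1 B2 r1 r2 (by omega) (by omega))
    by_cases q1 : v = t'
    · exact .inl q1
    by_cases q2 : v = t
    · exact .inr (.inl q2)
    exact .inr (.inr ⟨hW v ((hu v).1 hv) _ ht' q1, hW v ((hu v).1 hv) _ ht q2⟩)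
  have kt := kw t ht
  have fr : ∀ A B : Finset ℕ, A.card + W.card ≤ D + 1 → B.card + W.card ≤ D + 1 →
      ∃ γ < D, γ ∉ A ∧ γ ∉ B := fun A B q1 q2 => by
    simpa using exists_col_notMem (D := D) (A ∪ B) (by have := card_union_le A B; omega)
  obtain ⟨x, x0, x1, x2⟩ := fr _ _ ka kb
  obtain ⟨y, y0, y1, y2⟩ := fr _ _ ka kc
  obtain ⟨z, z0, z1, z2⟩ := fr _ _ kb kc
  have sub : ∀ (A : Finset ℕ) σ, (∀ τ < D, τ ∉ A →
      D + 1 ≤ W.card + (insert σ (insert τ (seen G X c0 t))).card) → seen G X c0 t ⊆ A :=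
    fun A σ hA τ hτ => by_contra fun q => by
      obtain ⟨e, he, rfl⟩ := mem_image.1 hτ
      have := hA _ ((h0 e).2 (mem_sdiff.1 he).2) q
      rw [insert_eq_of_mem hτ] at this
      have := card_insert_le σ (seen G X c0 t)
      omega
  have sa := sub _ z fun τ q1 q2 => key τ z z z τ q1 z0 z0 q2 z1 z2 (by simp [insert_subset_iff])
  have sb := sub _ y fun τ q1 q2 => key y τ y y τ y0 q1 y0 y1 q2 y2 (by simp [insert_subset_iff])
  have sc := sub _ x fun τ q1 q2 => key x x τ x τ x0 x0 q1 x1 x2 q2 (by simp)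
  have k0 := key x x y x y x0 x0 y0 x1 x2 y2 (by simp)
  have := card_insert_le x (insert y (seen G X c0 t))
  have := card_insert_le y (seen G X c0 t)
  have := card_union_add_card_inter (seen G X c0 a) (seen G X c0 b)
  have := card_union_add_card_inter (seen G X c0 a ∪ seen G X c0 b) (seen G X c0 c)
  have := card_le_card (subset_inter sa sb)
  have := card_le_card (subset_inter (sa.trans subset_union_left : _ ⊆ _ ∪ seen G X c0 b) sc)
  obtain ⟨u, u0, u1⟩ := exists_col_notMem (D := D)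
    (seen G X c0 a ∪ seen G X c0 b ∪ seen G X c0 c) (by omega)
  simp only [mem_union, not_or] at u1
  have := key u u u u u u0 u0 u0 u1.1.1 u1.1.2 u1.2 (by simp)
  rw [insert_idem] at this
  have := card_insert_le u (seen G X c0 t)
  omega

end Pool.Agent.Lib.MP_12eaff_co.BK
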