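import Mathlib
import Pool.Agent.Lib.MP_12eaff_co.BK.Defs
import Pool.Agent.Lib.MP_12eaff_co.BK.Greedy

set_option autoImplicit false

namespace Pool.Agent.Lib.MP_12eaff_co.BK

open Finset
open scoped Classical

variable {V : Type} [Fintype V] {G : SimpleGraph V} {D : ℕ}

namespace RA

theorem two (h : MC G D) (v : V) (S W : Finset V) (hd : Disjoint S W) (hS : ∀ a ∈ S, G.Adj v a)
    (hW : ∀ a ∈ W, G.Adj v a) : S.card + W.card ≤ D + 1 := by
  rw [← card_union_of_disjoint hd]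
  refine le_trans (card_le_card fun a ha => mem_nb.mpr ?_) (h.deg v)
  exact (mem_union.mp ha).elim (hS a) (hW a)

theorem out (h : MC G D) (v : V) (S X : Finset V) (hX : S ⊆ X) (hS : ∀ a ∈ S, G.Adj v a) :
    S.card + (nb G v \ X).card ≤ D + 1 :=
  two h v S _ (disjoint_left.mpr fun _ a b => (mem_sdiff.mp b).2 (hX a)) hS
    fun _ a => mem_nb.mp (mem_sdiff.mp a).1

omit [Fintype V] in
theorem ins {Q : Finset V} (hQ : IsClq G Q) {z : V} (hz : ∀ a ∈ Q, G.Adj z a) :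
    IsClq G (insert z Q) ∧ (insert z Q).card = Q.card + 1 := by
  refine ⟨fun a ha b hb hab => ?_, card_insert_of_notMem fun e => (hz z e).ne rfl⟩
  rcases mem_insert.mp ha with rfl | ha' <;> rcases mem_insert.mp hb with rfl | hb'
  · exact absurd rfl hab
  · exact hz b hb'
  · exact (hz a ha').symm
  · exact hQ a ha' b hb' hab

theorem miss (h : MC G D) {Q : Finset V} (hQ : IsClq G Q) (hc : Q.card = D) (z : V) :
    ∃ q ∈ Q, ¬ G.Adj z q := by
  by_contra e
  push Not at e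
  have a := ins hQ e
  have := h.cf _ a.1
  omega

theorem nonadj (h : MC G D) {W : Finset V} (hW : IsClq G W) (hc : D ≤ W.card + 1) {y y' : V}
    (hy : ∀ a ∈ W, G.Adj y a) (hy' : ∀ a ∈ W, G.Adj y' a) : ¬ G.Adj y y' := by
  intro e
  have a := ins hW hy'
  have b := ins a.1 (z := y) fun u hu => (mem_insert.mp hu).elim (fun k => k ▸ e) (hy u)
  have := h.cf _ b.1
  omega

theorem dX_ge {C S : Finset V} (hC : IsClq G C) {x1 x2 v : V} (h1 : x1 ∈ C) (h2 : x2 ∈ C)
    (hS : S ⊆ C) (hv : ∀ a ∈ S, G.Adj v a) : S.card ≤ dX G x1 x2 v := by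
  refine card_le_card fun a ha => mem_filter.mpr ⟨mem_nb.mpr (hv a ha), ?_, ?_⟩
  · exact (eq_or_ne a x1).imp id fun e => hC _ h1 _ (hS ha) e.symm
  · exact (eq_or_ne a x2).imp id fun e => hC _ h2 _ (hS ha) e.symm

theorem last (h : MC G D) {Q : Finset V} (hQ : IsClq G Q) {z q x1 x3 : V} {c : V → ℕ}
    (hc : PCol G D c) (hq : q ∈ Q) (hz : z ∉ Q) (h1 : x1 ∈ Q) (h3 : x3 ∈ Q) (h13 : x3 ≠ x1)
    (a3 : G.Adj z x3) (u1 : ¬ c x1 < D) (u3 : ¬ c x3 < D) (hu : ∀ v, ¬ c v < D → v ∈ Q)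
    (cq : c q < D) (czq : c z = c q) (B : Finset V) (r : Red G D c x1 B)
    (k : (nb G x1 \ B).card + 1 ≤ D) : False := by
  refine h.ncol (finish h.deg hc (hQ _ h3 _ h1 h13) u3 u1 (fun v hv => ?_) {q} B ?_ r ?_ k)
  · by_cases e3 : v = x3
    · exact Or.inl e3
    · by_cases e1 : v = x1
      · exact Or.inr (Or.inl e1)
      · exact Or.inr (Or.inr ⟨hQ _ (hu v hv) _ h3 e3, hQ _ (hu v hv) _ h1 e1⟩)
  · intro b hb
    rw [mem_singleton.mp hb]
    exact ⟨cq, z, a3.symm, fun e => hz (mem_singleton.mp e ▸ hq), czq⟩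
  · have k1 : q ∈ nb G x3 := mem_nb.mpr (hQ _ h3 _ hq fun e => u3 (e ▸ cq))
    rw [sdiff_singleton_eq_erase, card_erase_of_mem k1]
    have := h.deg x3
    omega

theorem core (h : MC G D) {Q : Finset V} (hQ : IsClq G Q) (hD : Q.card = D) {z : V} (hz : z ∉ Q)
    (hT : 5 ≤ (Q.filter (G.Adj z)).card) {x1 x2 : V} (h1 : x1 ∈ Q.filter (G.Adj z))
    (h2 : x2 ∈ Q.filter (G.Adj z)) (h12 : x2 ≠ x1) {c : V → ℕ} (hc : PCol G D c)
    (hx : ∀ v, c v < D ↔ v ∉ insert z Q)
    (hy : ∀ y y', G.Adj x1 y → y ∉ insert z Q → G.Adj x2 y' → y' ∉ insert z Q → c y ≠ c y') :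
    False := by
  obtain ⟨x3, h3, n3⟩ := exists_mem_notMem_of_card_lt_card (s := {x1, x2})
    (t := Q.filter (G.Adj z)) (lt_of_le_of_lt card_le_two (by omega))
  rw [mem_insert, mem_singleton, not_or] at n3
  obtain ⟨q, hq, nq⟩ := miss h hQ hD z
  rw [mem_filter] at h1 h2 h3
  have s1 := out h z (Q.filter (G.Adj z)) (insert z Q)
    ((filter_subset _ _).trans (subset_insert _ _)) fun a ha => (mem_filter.mp ha).2
  have s2 := out h q (Q.erase q) (insert z Q) ((erase_subset _ _).trans (subset_insert _ _))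
    fun a ha => hQ _ hq _ (mem_erase.mp ha).2 (mem_erase.mp ha).1.symm
  have s3 := card_erase_of_mem hq
  have s4 := card_union_le (nb G z \ insert z Q) (nb G q \ insert z Q)
  have s5 := card_filter_le Q (G.Adj z)
  obtain ⟨α, g1, g2⟩ := exists_col_notMem (D := D)
    (((nb G z \ insert z Q) ∪ (nb G q \ insert z Q)).image c)
    (lt_of_le_of_lt card_image_le (by omega))
  have g3 : ∀ e, G.Adj z e ∨ G.Adj q e → c e ≠ α := fun e he k => g2 (mem_image.mpr ⟨e,
    mem_union.mpr (he.imp (fun a => mem_sdiff.mpr ⟨mem_nb.mpr a, (hx e).mp (k ▸ g1)⟩)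
      fun a => mem_sdiff.mpr ⟨mem_nb.mpr a, (hx e).mp (k ▸ g1)⟩), k⟩)
  have zq : z ≠ q := fun e => hz (e ▸ hq)
  have p1 : PCol G D (Function.update (Function.update c z α) q α) :=
    (hc.put fun e he => g3 e (Or.inl he)).put fun e he => by
      rw [Function.update_of_ne fun k : e = z => nq (k ▸ he.symm)]
      exact g3 e (Or.inr he)
  obtain ⟨c1, e1⟩ : ∃ c1, c1 = Function.update (Function.update c z α) q α := ⟨_, rfl⟩
  have cq : c1 q = α := by rw [e1, Function.update_self]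
  have cz : c1 z = α := by rw [e1, Function.update_of_ne zq, Function.update_self]
  have co : ∀ v, v ≠ z → v ≠ q → c1 v = c v := fun v a b => by
    rw [e1, Function.update_of_ne b, Function.update_of_ne a]
  rw [← e1] at p1
  have un : ∀ x ∈ Q, G.Adj z x → ¬ c1 x < D := fun x a b => by
    rw [co x b.ne' fun e => nq (e ▸ b), hx]
    exact not_not.mpr (mem_insert_of_mem a)
  have hu : ∀ v, ¬ c1 v < D → v ∈ Q := fun v hv => by
    by_contra e
    have a : v ≠ z := fun k => hv (by rw [k, cz]; exact g1)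
    rw [co v a fun k => e (k ▸ hq), hx] at hv
    exact hv fun k => (mem_insert.mp k).elim a e
  have ou : ∀ y, y ∉ insert z Q → c1 y = c y := fun y k =>
    co y (fun e => k (e ▸ mem_insert_self _ _)) fun e => k (e ▸ mem_insert_of_mem hq)
  have q1 : x1 ≠ q := fun e => nq (e ▸ h1.2)
  by_cases hA : ∀ y, G.Adj x1 y → y ∉ insert z Q → c y = α
  · refine last h hQ p1 hq hz h1.1 h3.1 n3.1 h3.2 (un _ h1.1 h1.2) (un _ h3.1 h3.2) hu (cq ▸ g1)
      (cz.trans cq.symm) (insert q (nb G x1 \ insert z Q)) (fun b hb => ?_) ?_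
    · have e : c1 b = α := by
        rcases mem_insert.mp hb with k | k
        · rw [k, cq]
        · rw [ou b (mem_sdiff.mp k).2, hA b (mem_nb.mp (mem_sdiff.mp k).1) (mem_sdiff.mp k).2]
      refine ⟨e ▸ g1, z, h1.2.symm, fun k => ?_, cz.trans e.symm⟩
      exact (mem_insert.mp k).elim zq fun k => (mem_sdiff.mp k).2 (mem_insert_self _ _)
    · have a : nb G x1 \ insert q (nb G x1 \ insert z Q) ⊆ ((insert z Q).erase x1).erase q := by
        intro v hv
        obtain ⟨k1, k2⟩ := mem_sdiff.mp hv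
        rw [mem_insert, not_or, mem_sdiff, not_and, not_not] at k2
        exact mem_erase.mpr ⟨k2.1, mem_erase.mpr ⟨(mem_nb.mp k1).ne', k2.2 k1⟩⟩
      have b1 := card_le_card a
      have b2 := card_erase_of_mem (mem_erase.mpr ⟨q1.symm, mem_insert_of_mem (b := z) hq⟩)
      have b3 := card_erase_of_mem (mem_insert_of_mem (b := z) h1.1)
      have b4 := card_insert_of_notMem hz
      omega
  · push Not at hA
    obtain ⟨y, y1, y2, y3⟩ := hA
    have q2 : q ≠ x2 := fun e => nq (e ▸ h2.2)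
    have y4 : y ≠ x2 := fun e => y2 (e ▸ mem_insert_of_mem h2.1)
    have p2 : PCol G D (Function.update c1 x2 (c y)) := p1.put fun e he k => by
      by_cases a : e = z
      · exact y3 (by rw [← k, a, cz])
      · by_cases b : e = q
        · exact y3 (by rw [← k, b, cq])
        · rw [co e a b] at k
          exact hy y e y1 y2 he ((hx e).mp (k ▸ (hx y).mpr y2)) k.symm
    refine last h hQ p2 hq hz h1.1 h3.1 n3.1 h3.2 ?_ ?_ (fun v hv => ?_) ?_ ?_ {q, x2}
      (fun b hb => ?_) ?_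
    · rw [Function.update_of_ne h12.symm]
      exact un _ h1.1 h1.2
    · rw [Function.update_of_ne n3.2]
      exact un _ h3.1 h3.2
    · by_cases a : v = x2
      · exact a ▸ h2.1
      · rw [Function.update_of_ne a] at hv
        exact hu v hv
    · rw [Function.update_of_ne q2, cq]
      exact g1
    · rw [Function.update_of_ne q2, Function.update_of_ne h2.2.ne, cz, cq]
    · rcases mem_insert.mp hb with k | k
      · rw [k, Function.update_of_ne q2, cq]
        refine ⟨g1, z, h1.2.symm, fun k => ?_, by rw [Function.update_of_ne h2.2.ne, cz]⟩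
        exact (mem_insert.mp k).elim zq fun k => h2.2.ne (mem_singleton.mp k)
      · rw [mem_singleton.mp k, Function.update_self]
        refine ⟨(hx y).mpr y2, y, y1, fun k => ?_, by rw [Function.update_of_ne y4, ou y y2]⟩
        exact (mem_insert.mp k).elim (fun e => y2 (e ▸ mem_insert_of_mem hq))
          fun k => y4 (mem_singleton.mp k)
    · have a := two h x1 {q, x2} (nb G x1 \ {q, x2}) disjoint_sdiff (fun a ha =>
        (mem_insert.mp ha).elim (fun k => k ▸ hQ _ h1.1 _ hq q1)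
          fun k => mem_singleton.mp k ▸ hQ _ h1.1 _ h2.1 h12.symm)
        fun _ a => mem_nb.mp (mem_sdiff.mp a).1
      rw [card_pair q2] at a
      omega

theorem uniq (h : MC G D) {Q : Finset V} (hQ : IsClq G Q) (hD : Q.card = D) {z : V} (hz : z ∉ Q)
    {x y y' : V} (hx : x ∈ Q.filter (G.Adj z)) (a : G.Adj x y) (b : y ∉ insert z Q)
    (a' : G.Adj x y') (b' : y' ∉ insert z Q) : y = y' := by
  rw [mem_filter] at hx
  have s := out h x ((insert z Q).erase x) (insert z Q) (erase_subset _ _) fun u hu =>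
    (mem_insert.mp (mem_erase.mp hu).2).elim (fun k => k ▸ hx.2.symm)
      fun k => hQ _ hx.1 _ k (mem_erase.mp hu).1.symm
  have b3 := card_erase_of_mem (mem_insert_of_mem (b := z) hx.1)
  have b4 := card_insert_of_notMem hz
  exact (card_le_one (s := nb G x \ insert z Q)).mp (by omega) _ (mem_sdiff.mpr ⟨mem_nb.mpr a, b⟩) _
    (mem_sdiff.mpr ⟨mem_nb.mpr a', b'⟩)

theorem same (h : MC G D) (ts : TSst G D) (e3 : E3st G D) (hD : 20 ≤ D) {Q : Finset V}
    (hQ : IsClq G Q) (hc : Q.card = D) {z y : V} (hz : z ∉ Q)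
    (hT : 5 ≤ (Q.filter (G.Adj z)).card) (hy : y ∉ insert z Q)
    (ay : ∀ x ∈ Q.filter (G.Adj z), G.Adj y x) : False := by
  obtain ⟨x1, h1, x2, h2, h12⟩ := (one_lt_card (s := Q.filter (G.Adj z))).mp (by omega)
  have b1 := ay _ h1
  have b2 := ay _ h2
  rw [mem_filter] at h1 h2
  rw [mem_insert, not_or] at hy
  have dq : ∀ q ∈ Q, ∀ v, (∀ a ∈ Q, a ≠ q → G.Adj v a) → D ≤ dX G x1 x2 v + 1 := fun q hq v hv => by
    have := dX_ge hQ h1.1 h2.1 (erase_subset q Q) fun a ha =>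
      hv a (mem_erase.mp ha).2 (mem_erase.mp ha).1
    have := card_erase_of_mem hq
    omega
  have dq' : ∀ q ∈ Q, D ≤ dX G x1 x2 q + 1 := fun q hq =>
    dq q hq q fun a ha e => hQ _ hq _ ha e.symm
  have dz := dX_ge hQ h1.1 h2.1 (filter_subset (G.Adj z) Q) fun a ha => (mem_filter.mp ha).2
  have dy := dX_ge hQ h1.1 h2.1 (filter_subset (G.Adj z) Q) ay
  have ad : ∀ {v x q}, x ∈ Q → q ∈ Q → G.Adj v x → ¬ G.Adj v q → G.Adj x q :=
    fun hx hq a b => hQ _ hx _ hq fun e => b (e ▸ a)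
  have key : ∀ q ∈ Q, ∀ q' ∈ Q, ¬ G.Adj z q → ¬ G.Adj y q' → q = q' := by
    intro q hq q' hq' n n'
    by_contra e
    have := dq' q hq
    have := dq' q' hq'
    exact ts x1 x2 z q y q' (hQ _ h1.1 _ h2.1 h12) h1.2.symm (ad h1.1 hq h1.2 n) b1.symm
      (ad h1.1 hq' b1 n') h2.2.symm (ad h2.1 hq h2.2 n) b2.symm (ad h2.1 hq' b2 n')
      (fun k => hz (k ▸ hq)) (fun k => hy.2 (k ▸ hq')) (fun k => hy.1 k.symm)
      (fun k => hz (k ▸ hq')) (fun k => hy.2 (k ▸ hq)) e n n' (by omega) (by omega)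
  obtain ⟨q, hq, n⟩ := miss h hQ hc z
  obtain ⟨q', hq', n'⟩ := miss h hQ hc y
  obtain rfl := key q hq q' hq' n n'
  have az : ∀ a ∈ Q, a ≠ q → G.Adj z a := fun a ha e => by
    by_contra k
    exact e (key a ha q hq k n')
  have ay' : ∀ a ∈ Q, a ≠ q → G.Adj y a := fun a ha e => by
    by_contra k
    exact e (key q hq a ha n k).symm
  have nzy : ¬ G.Adj z y := nonadj h (W := Q.erase q)
    (fun a ha b hb => hQ a (mem_erase.mp ha).2 b (mem_erase.mp hb).2)
    (by rw [card_erase_of_mem hq]; omega)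
    (fun a ha => az a (mem_erase.mp ha).2 (mem_erase.mp ha).1)
    fun a ha => ay' a (mem_erase.mp ha).2 (mem_erase.mp ha).1
  have := dq q hq z az
  have := dq q hq y ay'
  have := dq' q hq
  exact e3 x1 x2 z y q (hQ _ h1.1 _ h2.1 h12) h1.2.symm b1.symm (ad h1.1 hq h1.2 n) h2.2.symm
    b2.symm (ad h2.1 hq h2.2 n) (fun k => hy.1 k.symm) (fun k => hz (k ▸ hq))
    (fun k => hy.2 (k ▸ hq)) nzy n n' (by omega)

end RA

theorem ra (h : MC G D) (ts : TSst G D) (e3 : E3st G D) (hD : 20 ≤ D) : RAst G D := by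
  intro Q z hQ hc hz
  by_contra hT
  replace hT : 5 ≤ (Q.filter (G.Adj z)).card := by omega
  have sub : ∀ x ∈ Q.filter (G.Adj z), x ∈ insert z Q := fun x hx =>
    mem_insert_of_mem (mem_filter.mp hx).1
  by_cases h1 : ∀ x ∈ Q.filter (G.Adj z), ∃ y, G.Adj x y ∧ y ∉ insert z Q
  swap
  · push Not at h1
    obtain ⟨x1, h1, k⟩ := h1
    obtain ⟨x2, h2, n2⟩ := exists_mem_notMem_of_card_lt_card (s := {x1})
      (t := Q.filter (G.Adj z)) (by rw [card_singleton]; omega)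
    obtain ⟨c, c1, c2⟩ := col_del h (insert z Q) (sub _ h1) (mem_filter.mp h1).2
    exact RA.core h hQ hc hz hT h1 h2 (fun e => n2 (mem_singleton.mpr e)) c1 c2
      fun y _ a b => absurd (k y a) b
  choose! y ya yb using h1
  have bad : ∀ x1 ∈ Q.filter (G.Adj z), ∀ x2 ∈ Q.filter (G.Adj z), y x1 ≠ y x2 →
      ∃ W, IsClq G W ∧ (∀ a ∈ W, G.Adj (y x1) a ∧ G.Adj (y x2) a ∧ a ∉ insert z Q) ∧
        D ≤ W.card + 1 := by
    intro x1 h1 x2 h2 hne
    by_contra k
    push Not at k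
    obtain ⟨c, c1, c2, c3⟩ := col_delAdd h (insert z Q) (sub _ h1) (sub _ h2) (ya _ h1).symm
      (ya _ h2).symm fun _ _ _ W a b => k W a b
    refine RA.core h hQ hc hz hT h1 h2 (fun e => hne (e ▸ rfl)) c1 c2 fun u u' a b a' b' => ?_
    rw [RA.uniq h hQ hc hz h1 a b (ya _ h1) (yb _ h1),
      RA.uniq h hQ hc hz h2 a' b' (ya _ h2) (yb _ h2)]
    exact c3 hne (yb _ h1) (yb _ h2)
  obtain ⟨x1, h1⟩ := (card_pos (s := Q.filter (G.Adj z))).mp (by omega)
  by_cases h4 : ∀ x ∈ Q.filter (G.Adj z), y x1 = y x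
  · exact RA.same h ts e3 hD hQ hc hz hT (yb _ h1) fun x hx => h4 x hx ▸ (ya x hx).symm
  push Not at h4
  obtain ⟨x2, h2, n12⟩ := h4
  obtain ⟨W, w1, w2, w3⟩ := bad x1 h1 x2 h2 n12
  have few : ∀ v, (∀ a ∈ W, G.Adj v a) → ((Q.filter (G.Adj z)).filter (G.Adj v)).card ≤ 2 := by
    intro v hv
    have := RA.two h v ((Q.filter (G.Adj z)).filter (G.Adj v)) W
      (disjoint_left.mpr fun a ha hb => (w2 a hb).2.2 (sub a (mem_filter.mp ha).1))
      (fun a ha => (mem_filter.mp ha).2) hv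
    omega
  have f1 := few _ fun a ha => (w2 a ha).1
  have f2 := few _ fun a ha => (w2 a ha).2.1
  obtain ⟨x3, h3, n3⟩ := exists_mem_notMem_of_card_lt_card (t := Q.filter (G.Adj z))
    (s := (Q.filter (G.Adj z)).filter (G.Adj (y x1)) ∪ (Q.filter (G.Adj z)).filter (G.Adj (y x2)))
    (lt_of_le_of_lt (card_union_le _ _) (by omega))
  rw [mem_union, not_or] at n3
  have n13 : y x1 ≠ y x3 := fun e => n3.1 (mem_filter.mpr ⟨h3, e ▸ (ya _ h3).symm⟩)
  have n23 : y x2 ≠ y x3 := fun e => n3.2 (mem_filter.mpr ⟨h3, e ▸ (ya _ h3).symm⟩)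
  obtain ⟨W', v1, v2, v3⟩ := bad x1 h1 x3 h3 n13
  obtain ⟨W'', u1, u2, u3⟩ := bad x2 h2 x3 h3 n23
  have s1 := RA.two h (y x1) {x1} (W ∪ W') (disjoint_singleton_left.mpr fun k =>
      (mem_union.mp k).elim (fun k => (w2 _ k).2.2 (sub _ h1)) fun k => (v2 _ k).2.2 (sub _ h1))
    (fun a ha => mem_singleton.mp ha ▸ (ya _ h1).symm)
    fun a k => (mem_union.mp k).elim (fun k => (w2 _ k).1) fun k => (v2 _ k).1
  rw [card_singleton] at s1
  have s2 := card_union_add_card_inter W W'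
  obtain ⟨u, hu, v, hv, huv⟩ := (one_lt_card (s := W ∩ W')).mp (by omega)
  have hu' := mem_inter.mp hu
  have hv' := mem_inter.mp hv
  have d1 := RA.dX_ge w1 hu'.1 hv'.1 (inter_subset_left (s₂ := W')) fun a ha =>
    (w2 a (mem_inter.mp ha).1).1
  have d2 := RA.dX_ge w1 hu'.1 hv'.1 (inter_subset_left (s₂ := W')) fun a ha =>
    (w2 a (mem_inter.mp ha).1).2.1
  have d3 := RA.dX_ge w1 hu'.1 hv'.1 (inter_subset_left (s₂ := W')) fun a ha =>
    (v2 a (mem_inter.mp ha).2).2.1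
  exact e3 u v (y x1) (y x2) (y x3) (w1 _ hu'.1 _ hv'.1 huv) (w2 _ hu'.1).1.symm
    (w2 _ hu'.1).2.1.symm (v2 _ hu'.2).2.1.symm (w2 _ hv'.1).1.symm (w2 _ hv'.1).2.1.symm
    (v2 _ hv'.2).2.1.symm n12 n13 n23
    (RA.nonadj h w1 w3 (fun a ha => (w2 a ha).1) fun a ha => (w2 a ha).2.1)
    (RA.nonadj h v1 v3 (fun a ha => (v2 a ha).1) fun a ha => (v2 a ha).2.1)
    (RA.nonadj h u1 u3 (fun a ha => (u2 a ha).1) fun a ha => (u2 a ha).2.1) (by omega)

end Pool.Agent.Lib.MP_12eaff_co.BK
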