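import Mathlib
import Pool.Agent.Lib.MP_12eaff_co.BK.Defs2
import Pool.Agent.Lib.MP_12eaff_co.BK.RA
import Pool.Agent.Lib.MP_12eaff_co.BK.Sel

set_option autoImplicit false

namespace Pool.Agent.Lib.MP_12eaff_co.BK

open Finset
open scoped Classical

variable {V : Type} [Fintype V] {G : SimpleGraph V} {D : ℕ}

namespace RS

/-- Delete `X` and add the pairs of a relation. -/
def addF (G : SimpleGraph V) (X : Finset V) (F : V → V → Prop) : SimpleGraph V where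
  Adj u v := u ≠ v ∧ u ∉ X ∧ v ∉ X ∧ (G.Adj u v ∨ F u v ∨ F v u)
  symm := ⟨fun _ _ h => ⟨h.1.symm, h.2.2.1, h.2.1,
    h.2.2.2.elim (fun k => Or.inl k.symm) fun k => Or.inr k.symm⟩⟩
  loopless := ⟨fun _ h => h.1 rfl⟩

theorem col_gen (h : MC G D) (X : Finset V) (F : V → V → Prop) {x y : V} (hx : x ∈ X)
    (a : G.Adj y x)
    (gain : ∀ u, ∃ N : Finset V, N.card ≤ (nb G u ∩ X).card ∧ ∀ v, F u v ∨ F v u → v ∈ N)
    (nobad : ∀ Q : Finset V, (∀ a ∈ Q, ∀ b ∈ Q, a ≠ b → G.Adj a b ∨ F a b ∨ F b a) →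
      Q.card ≤ D) :
    ∃ c, PCol G D c ∧ (∀ v, c v < D ↔ v ∉ X) ∧
      ∀ u v, u ≠ v → u ∉ X → v ∉ X → F u v → c u ≠ c v := by
  have hsup : (addF G X F).support ⊂ G.support := by
    refine ⟨?_, fun hh => ?_⟩
    · rintro u ⟨v, _, _, _, q4⟩
      rcases q4 with q | q
      · exact ⟨v, q⟩
      · obtain ⟨N, n1, n2⟩ := gain u
        have := card_pos.mpr ⟨_, n2 v q⟩
        obtain ⟨e, he⟩ := (card_pos (s := nb G u ∩ X)).mp (by omega)
        exact ⟨e, mem_nb.mp (mem_inter.mp he).1⟩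
    · obtain ⟨v, hv⟩ := hh (show x ∈ G.support from ⟨y, a.symm⟩)
      exact hv.2.1 hx
  have hdeg : ∀ v, (nb (addF G X F) v).card ≤ D + 1 := by
    intro v
    obtain ⟨N, n1, n2⟩ := gain v
    have s : nb (addF G X F) v ⊆ (nb G v \ X) ∪ N := fun u hu => by
      obtain ⟨_, _, q3, q4⟩ := mem_nb.mp hu
      exact mem_union.mpr (q4.imp (fun k => mem_sdiff.mpr ⟨mem_nb.mpr k, q3⟩) (n2 u))
    have := card_le_card s
    have := card_union_le (nb G v \ X) N
    have := card_sdiff_add_card_inter (nb G v) X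
    have := h.deg v
    omega
  obtain ⟨c, c1, c2⟩ := h.ih _ hsup hdeg fun Q hQ =>
    nobad Q fun a ha b hb hab => (hQ a ha b hb hab).2.2.2
  refine ⟨fun v => if v ∈ X then D else c v, ?_, ?_, ?_⟩
  · intro u v huv hu
    by_cases q1 : u ∈ X
    · simp [q1] at hu
    · by_cases q2 : v ∈ X
      · simp only [q1, q2, if_true, if_false]
        exact (c1 u).ne
      · simp only [q1, q2, if_false]
        exact c2 u v ⟨huv.ne, q1, q2, Or.inl huv⟩
  · intro v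
    by_cases q : v ∈ X
    · simp [q]
    · simp [q, c1 v]
  · intro u v q q1 q2 q3
    simp only [q1, q2, if_false]
    exact c2 _ _ ⟨q, q1, q2, Or.inr (Or.inl q3)⟩

theorem one_star (h : MC G D) (ra : RAst G D) (hD : 7 ≤ D) {z : V} {A : Finset V}
    (A2 : A.card ≤ 2) (Q : Finset V)
    (hQ : ∀ a ∈ Q, ∀ b ∈ Q, a ≠ b → G.Adj a b ∨ (a = z ∧ b ∈ A) ∨ (b = z ∧ a ∈ A)) :
    Q.card ≤ D := by
  have cl : IsClq G (Q.erase z) := fun a ha b hb hab => by
    rcases hQ a (mem_of_mem_erase ha) b (mem_of_mem_erase hb) hab with q | q | q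
    · exact q
    · exact absurd q.1 (ne_of_mem_erase ha)
    · exact absurd q.1 (ne_of_mem_erase hb)
  have k := h.cf _ cl
  by_cases hz : z ∈ Q
  · by_contra n
    have e := card_erase_of_mem hz
    have r := ra (Q.erase z) z cl (by omega) (notMem_erase _ _)
    have s : Q.erase z ⊆ (Q.erase z).filter (G.Adj z) ∪ A := fun a ha => by
      rcases hQ z hz a (mem_of_mem_erase ha) (ne_of_mem_erase ha).symm with q | q | q
      · exact mem_union_left _ (mem_filter.mpr ⟨ha, q⟩)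
      · exact mem_union_right _ q.2
      · exact absurd q.1 (ne_of_mem_erase ha)
    have := card_le_card s
    have := card_union_le ((Q.erase z).filter (G.Adj z)) A
    omega
  · rwa [erase_eq_of_notMem hz] at k

theorem two_star (h : MC G D) (ts : TSst G D) (ra : RAst G D) (hD : 14 ≤ D) {z y : V}
    {A B : Finset V} (A2 : A.card ≤ 2) (B2 : B.card ≤ 2) (zy : z ≠ y) (yA : y ∉ A) (zB : z ∉ B)
    (AB : ∀ a ∈ A, a ∉ B) (Q : Finset V)
    (hQ : ∀ a ∈ Q, ∀ b ∈ Q, a ≠ b → G.Adj a b ∨ ((a = z ∧ b ∈ A) ∨ (a = y ∧ b ∈ B)) ∨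
      ((b = z ∧ a ∈ A) ∨ (b = y ∧ a ∈ B))) : Q.card ≤ D := by
  by_cases h1 : z ∈ Q ∧ ∃ a ∈ A, a ∈ Q ∧ z ≠ a ∧ ¬ G.Adj z a
  swap
  · refine one_star h ra (by omega) (z := y) B2 Q fun a ha b hb hab => ?_
    by_contra n
    simp only [not_or] at n
    rcases hQ a ha b hb hab with q | (q | q) | (q | q)
    · exact n.1 q
    · exact h1 ⟨q.1 ▸ ha, b, q.2, hb, q.1 ▸ hab, q.1 ▸ n.1⟩
    · exact n.2.1 q
    · exact h1 ⟨q.1 ▸ hb, a, q.2, ha, q.1 ▸ hab.symm, fun k => n.1 (q.1 ▸ k.symm)⟩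
    · exact n.2.2 q
  by_cases h2 : y ∈ Q ∧ ∃ a ∈ B, a ∈ Q ∧ y ≠ a ∧ ¬ G.Adj y a
  swap
  · refine one_star h ra (by omega) (z := z) A2 Q fun a ha b hb hab => ?_
    by_contra n
    simp only [not_or] at n
    rcases hQ a ha b hb hab with q | (q | q) | (q | q)
    · exact n.1 q
    · exact n.2.1 q
    · exact h2 ⟨q.1 ▸ ha, b, q.2, hb, q.1 ▸ hab, q.1 ▸ n.1⟩
    · exact n.2.2 q
    · exact h2 ⟨q.1 ▸ hb, a, q.2, ha, q.1 ▸ hab.symm, fun k => n.1 (q.1 ▸ k.symm)⟩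
  obtain ⟨zQ, a, aA, aQ, za, na⟩ := h1
  obtain ⟨yQ, b, bB, bQ, yb, nb'⟩ := h2
  by_contra n
  obtain ⟨W, hW⟩ : ∃ W, W = Q \ (insert z A ∪ insert y B) := ⟨_, rfl⟩
  have mW : ∀ w ∈ W, w ∈ Q ∧ w ≠ z ∧ w ∉ A ∧ w ≠ y ∧ w ∉ B := fun w hw => by
    rw [hW, mem_sdiff, mem_union, mem_insert, mem_insert] at hw
    simp only [not_or] at hw
    exact ⟨hw.1, hw.2.1.1, hw.2.1.2, hw.2.2.1, hw.2.2.2⟩
  have cW : Q.card ≤ W.card + 6 := by
    have := card_le_card_sdiff_add_card (s := Q) (t := insert z A ∪ insert y B)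
    have := card_union_le (insert z A) (insert y B)
    have := card_insert_le z A
    have := card_insert_le y B
    rw [hW]
    omega
  have ad : ∀ w ∈ W, ∀ v ∈ Q, w ≠ v → G.Adj w v := fun w hw v hv e => by
    obtain ⟨m1, m2, m3, m4, m5⟩ := mW w hw
    rcases hQ w m1 v hv e with q | (q | q) | (q | q)
    · exact q
    · exact absurd q.1 m2
    · exact absurd q.1 m4
    · exact absurd q.2 m3
    · exact absurd q.2 m5
  have cl : IsClq G W := fun u hu v hv e => ad u hu v (mW v hv).1 e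
  have az : ∀ w ∈ W, G.Adj w z := fun w hw => ad w hw z zQ (mW w hw).2.1
  have ay : ∀ w ∈ W, G.Adj w y := fun w hw => ad w hw y yQ (mW w hw).2.2.2.1
  have aa : ∀ w ∈ W, G.Adj w a := fun w hw => ad w hw a aQ fun e => (mW w hw).2.2.1 (e ▸ aA)
  have ab : ∀ w ∈ W, G.Adj w b := fun w hw => ad w hw b bQ fun e => (mW w hw).2.2.2.2 (e ▸ bB)
  obtain ⟨x1, h1, x2, h2, h12⟩ := (one_lt_card (s := W)).mp (by omega)
  have d1 := RA.dX_ge cl h1 h2 subset_rfl fun w hw => (az w hw).symm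
  have d2 := RA.dX_ge cl h1 h2 subset_rfl fun w hw => (aa w hw).symm
  have d3 := RA.dX_ge cl h1 h2 subset_rfl fun w hw => (ay w hw).symm
  have d4 := RA.dX_ge cl h1 h2 subset_rfl fun w hw => (ab w hw).symm
  exact ts x1 x2 z a y b (cl _ h1 _ h2 h12) (az _ h1) (aa _ h1) (ay _ h1) (ab _ h1) (az _ h2)
    (aa _ h2) (ay _ h2) (ab _ h2) za yb zy (fun e => zB (e ▸ bB)) (fun e => yA (e ▸ aA))
    (fun e => AB a aA (e ▸ bB)) na nb' (by omega) (by omega)

theorem col_stars (h : MC G D) (ts : TSst G D) (ra : RAst G D) (hD : 14 ≤ D) (K : Finset V)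
    {z y x : V} (A B : Finset V) (hx : x ∈ K) (ax : G.Adj z x)
    (hA : A.card ≤ (nb G z ∩ K).card) (hB : B.card ≤ (nb G y ∩ K).card)
    (A2 : A.card ≤ 2) (B2 : B.card ≤ 2) (nA : ∀ a ∈ A, ∃ k ∈ K, G.Adj a k)
    (nB : ∀ a ∈ B, ∃ k ∈ K, G.Adj a k) (zy : z ≠ y) (zA : z ∉ A) (yA : y ∉ A) (zB : z ∉ B)
    (yB : y ∉ B) (AB : ∀ a ∈ A, a ∉ B) :
    ∃ c, PCol G D c ∧ (∀ v, c v < D ↔ v ∉ K) ∧ (z ∉ K → ∀ a ∈ A, a ∉ K → c z ≠ c a) ∧
      (y ∉ K → ∀ a ∈ B, a ∉ K → c y ≠ c a) := by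
  have one : ∀ (u v : V), (∃ k ∈ K, G.Adj u k) → ({v} : Finset V).card ≤ (nb G u ∩ K).card := by
    rintro u v ⟨k, k1, k2⟩
    rw [card_singleton]
    exact card_pos.mpr ⟨k, mem_inter.mpr ⟨mem_nb.mpr k2, k1⟩⟩
  obtain ⟨c, c1, c2, c3⟩ := col_gen h K (fun u v => (u = z ∧ v ∈ A) ∨ (u = y ∧ v ∈ B)) hx ax
    (fun u => by
      by_cases q1 : u = z
      · refine ⟨A, q1 ▸ hA, fun v hv => ?_⟩
        rcases hv with (q | q) | (q | q)
        · exact q.2
        · exact absurd (q1.symm.trans q.1) zy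
        · exact absurd (q1 ▸ q.2) zA
        · exact absurd (q1 ▸ q.2) zB
      by_cases q2 : u = y
      · refine ⟨B, q2 ▸ hB, fun v hv => ?_⟩
        rcases hv with (q | q) | (q | q)
        · exact absurd q.1 q1
        · exact q.2
        · exact absurd (q2 ▸ q.2) yA
        · exact absurd (q2 ▸ q.2) yB
      by_cases q3 : u ∈ A
      · refine ⟨{z}, one u z (nA u q3), fun v hv => ?_⟩
        rcases hv with (q | q) | (q | q)
        · exact absurd q.1 q1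
        · exact absurd q.1 q2
        · exact mem_singleton.mpr q.1
        · exact absurd q.2 (AB u q3)
      by_cases q4 : u ∈ B
      · refine ⟨{y}, one u y (nB u q4), fun v hv => ?_⟩
        rcases hv with (q | q) | (q | q)
        · exact absurd q.1 q1
        · exact absurd q.1 q2
        · exact absurd q.2 q3
        · exact mem_singleton.mpr q.1
      · refine ⟨∅, by simp, fun v hv => ?_⟩
        rcases hv with (q | q) | (q | q)
        · exact absurd q.1 q1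
        · exact absurd q.1 q2
        · exact absurd q.2 q3
        · exact absurd q.2 q4)
    (two_star h ts ra hD A2 B2 zy yA zB AB)
  exact ⟨c, c1, c2, fun k a ha ka => c3 z a (fun e => zA (e ▸ ha)) k ka (Or.inl ⟨rfl, ha⟩),
    fun k a ha ka => c3 y a (fun e => yB (e ▸ ha)) k ka (Or.inr ⟨rfl, ha⟩)⟩

theorem pick {t : ℕ} (rg : RGst G D t) {K : Finset V} (hK : Tight G D t K) (Y S : Finset V)
    (hY : ∀ y ∈ Y, y ∉ K) (hc : 4 * Y.card + S.card < t) :
    ∃ w ∈ Uni G K, w ∉ S ∧ ∀ y ∈ Y, ¬ G.Adj y w := by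
  have a := card_biUnion_le_card_mul Y (fun y => (Uni G K).filter (G.Adj y)) 4
    fun y hy => rg K y hK (hY y hy)
  have b := card_union_le (Y.biUnion fun y => (Uni G K).filter (G.Adj y)) S
  have c := hK.2
  obtain ⟨w, w1, w2⟩ := exists_mem_notMem_of_card_lt_card (t := Uni G K)
    (s := (Y.biUnion fun y => (Uni G K).filter (G.Adj y)) ∪ S) (by omega)
  exact ⟨w, w1, fun k => w2 (mem_union_right _ k), fun y hy k =>
    w2 (mem_union_left _ (mem_biUnion.mpr ⟨y, hy, mem_filter.mpr ⟨w1, k⟩⟩))⟩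

theorem fin (h : MC G D) {K : Finset V} {c : V → ℕ} (hc : PCol G D c)
    (hu : ∀ v, ¬ c v < D → v ∈ K) {t1 t2 : V} (h1 : t1 ∈ Uni G K) (h2 : t2 ∈ Uni G K)
    (n : t2 ≠ t1) (u1 : ¬ c t1 < D) (u2 : ¬ c t2 < D) {p p' : V} (a : G.Adj t1 p)
    (a' : G.Adj t1 p') (pp : p' ≠ p) (cp : c p < D) (e : c p' = c p) (B : Finset V)
    (r : Red G D c t2 B) (k : (nb G t2 \ B).card + 1 ≤ D) : False := by
  rw [sel_mem_uni] at h1 h2
  refine h.ncol (finish h.deg hc (h1.2 _ h2.1 n) u1 u2 (fun v hv => ?_) {p} B ?_ r ?_ k)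
  · by_cases e1 : v = t1
    · exact Or.inl e1
    · by_cases e2 : v = t2
      · exact Or.inr (Or.inl e2)
      · exact Or.inr (Or.inr ⟨(h1.2 _ (hu v hv) e1).symm, (h2.2 _ (hu v hv) e2).symm⟩)
  · intro b hb
    rw [mem_singleton.mp hb]
    exact ⟨cp, p', a', fun k => pp (mem_singleton.mp k), e⟩
  · rw [sdiff_singleton_eq_erase, card_erase_of_mem (mem_nb.mpr a)]
    have := h.deg t1
    omega

theorem finw (h : MC G D) {K : Finset V} {c : V → ℕ} (hc : PCol G D c)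
    (hu : ∀ v, ¬ c v < D → v ∈ K) {x1 x2 w z : V} (h1 : x1 ∈ Uni G K) (h2 : x2 ∈ Uni G K)
    (hw : w ∈ K) (n : x1 ≠ x2) (n1 : w ≠ x1) (n2 : w ≠ x2) (u1 : ¬ c x1 < D) (u2 : ¬ c x2 < D)
    (uw : ¬ c w < D) (a1 : G.Adj z x1) (a2 : G.Adj z x2) (cz : c z < D)
    (fw : ∀ e, G.Adj w e → c e ≠ c z) (B : Finset V) (r : Red G D c x1 B)
    (k : (nb G x1 \ B).card ≤ D) : False := by
  have up : ∀ v, c v < D → v ≠ w ∧ Function.update c w (c z) v = c v := fun v hv =>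
    have e : v ≠ w := fun e => uw (e ▸ hv)
    ⟨e, Function.update_of_ne e _ _⟩
  refine fin h (hc.put fw) (fun v hv => ?_) h2 h1 n ?_ ?_ ((sel_mem_uni.mp h2).2 w hw n2) a2.symm
    (up z cz).1 ?_ ?_ (insert w B) (fun b hb => ?_) ?_
  · by_cases e : v = w
    · exact e ▸ hw
    · rw [Function.update_of_ne e] at hv
      exact hu v hv
  · rwa [Function.update_of_ne n2.symm]
  · rwa [Function.update_of_ne n1.symm]
  · rwa [Function.update_self]
  · rw [Function.update_self, (up z cz).2]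
  · have key : ∀ b ∈ B, ∃ b', G.Adj x1 b' ∧ b' ∉ insert w B ∧
        Function.update c w (c z) b' = c b := fun b hb => by
      obtain ⟨q1, b', q2, q3, q4⟩ := r b hb
      have := up b' (q4 ▸ q1)
      exact ⟨b', q2, fun k => (mem_insert.mp k).elim this.1 q3, this.2.trans q4⟩
    rcases mem_insert.mp hb with e | e
    · rw [e, Function.update_self]
      refine ⟨cz, ?_⟩
      by_cases zB : z ∈ B
      · exact key z zB
      · exact ⟨z, a1.symm, fun k => (mem_insert.mp k).elim (up z cz).1 zB, (up z cz).2⟩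
    · rw [(up b (r b e).1).2]
      exact ⟨(r b e).1, key b e⟩
  · have m : w ∈ nb G x1 \ B :=
      mem_sdiff.mpr ⟨mem_nb.mpr ((sel_mem_uni.mp h1).2 w hw n1), fun k => uw (r w k).1⟩
    rw [sdiff_insert, card_erase_of_mem m]
    have := card_pos.mpr ⟨_, m⟩
    omega

theorem finp (h : MC G D) {K : Finset V} {c : V → ℕ} (hc : PCol G D c)
    (hu : ∀ v, ¬ c v < D → v ∈ K) {x1 x2 w z : V} (h1 : x1 ∈ Uni G K) (h2 : x2 ∈ Uni G K)
    (hw : w ∈ K) (n : x1 ≠ x2) (n1 : w ≠ x1) (n2 : w ≠ x2) (u1 : ¬ c x1 < D) (u2 : ¬ c x2 < D)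
    (uw : ¬ c w < D) (a1 : G.Adj z x1) (a2 : G.Adj z x2) (cz : c z < D)
    (fw : ∀ e, G.Adj w e → c e ≠ c z) {p p' : V} (a : G.Adj x1 p) (a' : G.Adj x1 p')
    (pp : p' ≠ p) (cp : c p < D) (e : c p' = c p) : False := by
  refine finw h hc hu h1 h2 hw n n1 n2 u1 u2 uw a1 a2 cz fw {p} (fun b hb => ?_) ?_
  · rw [mem_singleton.mp hb]
    exact ⟨cp, p', a', fun k => pp (mem_singleton.mp k), e⟩
  · rw [sdiff_singleton_eq_erase, card_erase_of_mem (mem_nb.mpr a)]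
    have := h.deg x1
    omega

/-- The other end of `x1` has the colour of `z`, or a colour that fits a further member. -/
theorem fit (h : MC G D) {K : Finset V} {c : V → ℕ} (hc : PCol G D c)
    (hx : ∀ v, c v < D ↔ v ∉ K) {x1 x2 w z y : V} (h1 : x1 ∈ Uni G K) (h2 : x2 ∈ Uni G K)
    (hw : w ∈ K) (n : x1 ≠ x2) (n1 : w ≠ x1) (n2 : w ≠ x2) (a1 : G.Adj z x1) (a2 : G.Adj z x2)
    (hz : z ∉ K) (fw : ∀ e, G.Adj w e → e ∉ K → c z ≠ c e) (ay : G.Adj x1 y) (hy : y ∉ K)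
    (zy : z ≠ y) :
    c z ≠ c y ∧ ∀ m ∈ K, m ≠ x1 → m ≠ x2 → m ≠ w → ∃ e, G.Adj m e ∧ e ∉ K ∧ c e = c y := by
  have un : ∀ v ∈ K, ¬ c v < D := fun v hv k => (hx v).mp k hv
  have hu : ∀ v, ¬ c v < D → v ∈ K := fun v hv => not_not.mp (mt (hx v).mpr hv)
  have m1 := (sel_mem_uni.mp h1).1
  have m2 := (sel_mem_uni.mp h2).1
  have cz := (hx z).mpr hz
  have cy := (hx y).mpr hy
  have fw' : ∀ e, G.Adj w e → c e ≠ c z := fun e he k => fw e he ((hx e).mp (k ▸ cz)) k.symm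
  have ne : c z ≠ c y := fun e => finp h hc hu h1 h2 hw n n1 n2 (un _ m1) (un _ m2) (un _ hw)
    a1 a2 cz fw' ay a1.symm zy cy e
  refine ⟨ne, fun m hm k1 k2 k3 => ?_⟩
  by_contra k
  have fm : ∀ e, G.Adj m e → c e ≠ c y := fun e he q => k ⟨e, he, (hx e).mp (q ▸ cy), q⟩
  have zm : z ≠ m := fun e => hz (e ▸ hm)
  have ym : y ≠ m := fun e => hy (e ▸ hm)
  refine finp h (hc.put fm) (fun v hv => ?_) h1 h2 hw n n1 n2 ?_ ?_ ?_ a1 a2 ?_ (fun e he => ?_)
    ((sel_mem_uni.mp h1).2 m hm k1) ay ym ?_ ?_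
  · by_cases e : v = m
    · exact e ▸ hm
    · rw [Function.update_of_ne e] at hv
      exact hu v hv
  · rw [Function.update_of_ne k1.symm]
    exact un _ m1
  · rw [Function.update_of_ne k2.symm]
    exact un _ m2
  · rw [Function.update_of_ne k3.symm]
    exact un _ hw
  · rwa [Function.update_of_ne zm]
  · rw [Function.update_of_ne zm]
    by_cases q : e = m
    · rw [q, Function.update_self]
      exact ne.symm
    · rw [Function.update_of_ne q]
      exact fw' e he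
  · rwa [Function.update_self]
  · rw [Function.update_self, Function.update_of_ne ym]

theorem ends (h : MC G D) {K : Finset V} (hK : K.card = D) {x z y : V} (hx : x ∈ Uni G K)
    (a : G.Adj x z) (hz : z ∉ K) (a' : G.Adj x y) (hy : y ∉ K) (zy : z ≠ y) {e : V}
    (ae : G.Adj x e) (he : e ∉ K) : e = z ∨ e = y := by
  have s : ({z, y} : Finset V) ⊆ nb G x \ K := fun v hv =>
    (mem_insert.mp hv).elim (fun k => k ▸ mem_sdiff.mpr ⟨mem_nb.mpr a, hz⟩)
      fun k => mem_singleton.mp k ▸ mem_sdiff.mpr ⟨mem_nb.mpr a', hy⟩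
  have e1 := eq_of_subset_of_card_le s (by rw [card_pair zy]; exact sel_out h.deg hK hx)
  have e2 : e ∈ ({z, y} : Finset V) := e1 ▸ mem_sdiff.mpr ⟨mem_nb.mpr ae, he⟩
  exact (mem_insert.mp e2).imp id mem_singleton.mp

theorem two_le {K : Finset V} {x1 x2 z : V} (h1 : x1 ∈ K) (h2 : x2 ∈ K) (n : x1 ≠ x2)
    (a1 : G.Adj z x1) (a2 : G.Adj z x2) : 2 ≤ (nb G z ∩ K).card :=
  one_lt_card.mpr ⟨x1, mem_inter.mpr ⟨mem_nb.mpr a1, h1⟩, x2, mem_inter.mpr ⟨mem_nb.mpr a2, h2⟩, n⟩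

theorem lone (h : MC G D) (ts : TSst G D) (ra : RAst G D) {t : ℕ} (rg : RGst G D t)
    (ht : 32 ≤ t) (hD : 14 ≤ D) {K : Finset V} (hK : Tight G D t K) {x1 x2 z : V}
    (h1 : x1 ∈ Uni G K) (h2 : x2 ∈ Uni G K) (n : x1 ≠ x2) (a1 : G.Adj z x1) (a2 : G.Adj z x2)
    (hz : z ∉ K) : ∃ y, G.Adj x1 y ∧ y ∉ K ∧ z ≠ y := by
  by_contra k
  have m1 := (sel_mem_uni.mp h1).1
  have m2 := (sel_mem_uni.mp h2).1
  obtain ⟨w, w1, -, w2⟩ := pick rg hK {z} ∅ (fun y hy => mem_singleton.mp hy ▸ hz)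
    (by rw [card_singleton, card_empty]; omega)
  have nz := w2 z (mem_singleton_self _)
  have mw := (sel_mem_uni.mp w1).1
  have o := sel_out h.deg hK.1 w1
  obtain ⟨c, c1, c2, c3, -⟩ := col_stars h ts ra hD K (y := x1) (nb G w \ K) ∅ m1 a1
    (o.trans (two_le m1 m2 n a1 a2)) (by simp) o (by simp)
    (fun a ha => ⟨w, mw, (mem_nb.mp (mem_sdiff.mp ha).1).symm⟩) (by simp) a1.ne
    (fun q => nz (mem_nb.mp (mem_sdiff.mp q).1).symm) (fun q => (mem_sdiff.mp q).2 m1) (by simp)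
    (by simp) (by simp)
  have un : ∀ v ∈ K, ¬ c v < D := fun v hv k => (c2 v).mp k hv
  have cz := (c2 z).mpr hz
  refine finw h c1 (fun v hv => not_not.mp (mt (c2 v).mpr hv)) h1 h2 mw n
    (fun e => nz (e ▸ a1)) (fun e => nz (e ▸ a2)) (un _ m1) (un _ m2) (un _ mw) a1 a2 cz
    (fun e he q => ?_) ∅ (fun b hb => absurd hb (notMem_empty _)) ?_
  · have eK := (c2 e).mp (q ▸ cz)
    exact c3 hz e (mem_sdiff.mpr ⟨mem_nb.mpr he, eK⟩) eK q.symm
  · have s : nb G x1 \ ∅ ⊆ insert z (K.erase x1) := fun v hv => by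
      have a := mem_nb.mp (mem_sdiff.mp hv).1
      by_cases q : v ∈ K
      · exact mem_insert_of_mem (mem_erase.mpr ⟨a.ne', q⟩)
      · rw [show v = z from by_contra fun e => k ⟨v, a, q, fun e' => e e'.symm⟩]
        exact mem_insert_self _ _
    have := card_le_card s
    have := card_insert_le z (K.erase x1)
    have := card_erase_of_mem m1
    have := hK.1
    omega

end RS

open RS

theorem rs (h : MC G D) (ts : TSst G D) (ra : RAst G D) {t : ℕ} (rg : RGst G D t)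
    (ht : D + 4 ≤ 2 * t) (hD : 60 ≤ D) : RSst G D t := by
  intro K z hK hz
  by_contra hT
  obtain ⟨x1, h1, x2, h2, n⟩ := (one_lt_card (s := (Uni G K).filter (G.Adj z))).mp (by omega)
  obtain ⟨h1, a1⟩ := mem_filter.mp h1
  obtain ⟨h2, a2⟩ := mem_filter.mp h2
  obtain ⟨y1, b1, k1, z1⟩ := lone h ts ra rg (by omega) (by omega) hK h1 h2 n a1 a2 hz
  obtain ⟨y2, b2, k2, z2⟩ := lone h ts ra rg (by omega) (by omega) hK h2 h1 n.symm a2 a1 hz
  have m1 := (sel_mem_uni.mp h1).1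
  have m2 := (sel_mem_uni.mp h2).1
  obtain ⟨w, w1, -, w2⟩ := pick rg hK {z, y1, y2} ∅ (fun y hy => by
      simp only [mem_insert, mem_singleton] at hy
      rcases hy with rfl | rfl | rfl <;> assumption)
    (by have := card_le_three (a := z) (b := y1) (c := y2); rw [card_empty]; omega)
  have nz := w2 z (by simp)
  have ny1 := w2 y1 (by simp)
  have ny2 := w2 y2 (by simp)
  have mw := (sel_mem_uni.mp w1).1
  have o := sel_out h.deg hK.1 w1
  have n1 : w ≠ x1 := fun e => nz (e ▸ a1)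
  have n2 : w ≠ x2 := fun e => nz (e ▸ a2)
  have me : ∀ {u a}, a ∈ nb G u \ K → G.Adj a u := fun q => (mem_nb.mp (mem_sdiff.mp q).1).symm
  by_cases e : y1 = y2
  · subst e
    obtain ⟨m, v1, v3, v2⟩ := pick rg hK (insert z (insert y1 (nb G w \ K))) {w} (fun y hy => by
        simp only [mem_insert] at hy
        rcases hy with rfl | rfl | hy
        · exact hz
        · exact k1
        · exact (mem_sdiff.mp hy).2)
      (by
        have := card_insert_le z (insert y1 (nb G w \ K))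
        have := card_insert_le y1 (nb G w \ K)
        rw [card_singleton]
        omega)
    have mz := v2 z (mem_insert_self _ _)
    have mm := (sel_mem_uni.mp v1).1
    have o' := sel_out h.deg hK.1 v1
    obtain ⟨c, c1, c2, c3, c4⟩ := col_stars h ts ra (by omega) K (y := y1) (nb G w \ K)
      (nb G m \ K) m1 a1 (o.trans (two_le m1 m2 n a1 a2))
      (o'.trans (two_le m1 m2 n b1.symm b2.symm)) o o' (fun a ha => ⟨w, mw, me ha⟩)
      (fun a ha => ⟨m, mm, me ha⟩) z1 (fun q => nz (me q)) (fun q => ny1 (me q))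
      (fun q => mz (me q)) (fun q => v2 y1 (by simp) (me q))
      fun a ha q => v2 a (mem_insert_of_mem (mem_insert_of_mem ha)) (me q)
    obtain ⟨e, e1, e2, e3⟩ := (fit h c1 c2 h1 h2 mw n n1 n2 a1 a2 hz
      (fun e he q => c3 hz e (mem_sdiff.mpr ⟨mem_nb.mpr he, q⟩) q) b1 k1 z1).2 m mm
      (fun e => mz (e ▸ a1)) (fun e => mz (e ▸ a2)) fun e => v3 (mem_singleton.mpr e)
    exact c4 k1 e (mem_sdiff.mpr ⟨mem_nb.mpr e1, e2⟩) e2 e3.symm
  obtain ⟨c, c1, c2, c3, c4⟩ := col_stars h ts ra (by omega) K (y := y1) (nb G w \ K) {y2} m1 a1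
    (o.trans (two_le m1 m2 n a1 a2))
    (by rw [card_singleton]; exact card_pos.mpr ⟨x1, mem_inter.mpr ⟨mem_nb.mpr b1.symm, m1⟩⟩) o
    (by simp) (fun a ha => ⟨w, mw, me ha⟩) (fun a ha => ⟨x2, m2, mem_singleton.mp ha ▸ b2.symm⟩)
    z1 (fun q => nz (me q)) (fun q => ny1 (me q)) (fun q => z2 (mem_singleton.mp q))
    (fun q => e (mem_singleton.mp q)) fun a ha q => ny2 (mem_singleton.mp q ▸ me ha)
  have c12 := c4 k1 y2 (mem_singleton_self _) k2
  have fw : ∀ e, G.Adj w e → e ∉ K → c z ≠ c e := fun e he q =>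
    c3 hz e (mem_sdiff.mpr ⟨mem_nb.mpr he, q⟩) q
  obtain ⟨f1, g1⟩ := fit h c1 c2 h1 h2 mw n n1 n2 a1 a2 hz fw b1 k1 z1
  obtain ⟨f2, g2⟩ := fit h c1 c2 h2 h1 mw n.symm n2 n1 a2 a1 hz fw b2 k2 z2
  obtain ⟨t1, s1, s2, -⟩ := pick rg hK ∅ {x1, x2, w} (by simp)
    (by have := card_le_three (a := x1) (b := x2) (c := w); rw [card_empty]; omega)
  obtain ⟨t2, r1, r2, -⟩ := pick rg hK ∅ {t1, x1, x2, w} (by simp)
    (by have := card_le_four (a := t1) (b := x1) (c := x2) (d := w); rw [card_empty]; omega)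
  simp only [mem_insert, mem_singleton, not_or] at s2 r2
  have cy1 := (c2 y1).mpr k1
  have cy2 := (c2 y2).mpr k2
  have p1 : PCol G D (Function.update c x1 (c y2)) := c1.put fun e he q => by
    rcases ends h hK.1 h1 a1.symm hz b1 k1 z1 he ((c2 e).mp (q ▸ cy2)) with k | k
    · exact f2 (k ▸ q)
    · exact c12 (k ▸ q)
  have p2 : PCol G D (Function.update (Function.update c x1 (c y2)) x2 (c y1)) :=
    p1.put fun e he q => by
      by_cases k : e = x1
      · rw [k, Function.update_self] at q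
        exact c12 q.symm
      · rw [Function.update_of_ne k] at q
        rcases ends h hK.1 h2 a2.symm hz b2 k2 z2 he ((c2 e).mp (q ▸ cy1)) with k | k
        · exact f1 (k ▸ q)
        · exact c12 (k ▸ q).symm
  obtain ⟨c', e'⟩ : ∃ c', c' = Function.update (Function.update c x1 (c y2)) x2 (c y1) := ⟨_, rfl⟩
  have d2 : c' x2 = c y1 := by rw [e', Function.update_self]
  have d1 : c' x1 = c y2 := by rw [e', Function.update_of_ne n, Function.update_self]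
  have d0 : ∀ v, v ≠ x1 → v ≠ x2 → c' v = c v := fun v a b => by
    rw [e', Function.update_of_ne b, Function.update_of_ne a]
  have d3 : ∀ v, v ∉ K → c' v = c v := fun v a =>
    d0 v (fun k => a (k ▸ m1)) fun k => a (k ▸ m2)
  rw [← e'] at p2
  have ms := (sel_mem_uni.mp s1).1
  have mr := (sel_mem_uni.mp r1).1
  obtain ⟨e0, i1, i2, i3⟩ := g1 t1 ms s2.1 s2.2.1 s2.2.2
  obtain ⟨e1, j1, j2, j3⟩ := g1 t2 mr r2.2.1 r2.2.2.1 r2.2.2.2
  obtain ⟨e2, l1, l2, l3⟩ := g2 t2 mr r2.2.2.1 r2.2.1 r2.2.2.2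
  have nm : ∀ v, v ∉ K → v ∉ ({x1, x2} : Finset V) := fun v a k =>
    (mem_insert.mp k).elim (fun k => a (k ▸ m1)) fun k => a (mem_singleton.mp k ▸ m2)
  refine fin h p2 (fun v hv => ?_) s1 r1 r2.1 ?_ ?_
    ((sel_mem_uni.mp s1).2 x2 m2 (Ne.symm s2.2.1)) i1 (fun k => i2 (k ▸ m2)) (d2 ▸ cy1)
    (by rw [d3 _ i2, d2, i3]) {x1, x2} (fun b hb => ?_) ?_
  · by_contra k
    exact hv (d3 v k ▸ (c2 v).mpr k)
  · rw [d0 _ s2.1 s2.2.1]
    exact fun k => (c2 _).mp k ms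
  · rw [d0 _ r2.2.1 r2.2.2.1]
    exact fun k => (c2 _).mp k mr
  · rcases mem_insert.mp hb with k | k
    · rw [k, d1]
      exact ⟨cy2, e2, l1, nm _ l2, by rw [d3 _ l2, l3]⟩
    · rw [mem_singleton.mp k, d2]
      exact ⟨cy1, e1, j1, nm _ j2, by rw [d3 _ j2, j3]⟩
  · have a := RA.two h t2 {x1, x2} (nb G t2 \ {x1, x2}) disjoint_sdiff (fun a ha =>
      (mem_insert.mp ha).elim (fun k => k ▸ (sel_mem_uni.mp r1).2 x1 m1 (Ne.symm r2.2.1))
        fun k => mem_singleton.mp k ▸ (sel_mem_uni.mp r1).2 x2 m2 (Ne.symm r2.2.2.1))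
      fun _ a => mem_nb.mp (mem_sdiff.mp a).1
    rw [card_pair n] at a
    omega

end Pool.Agent.Lib.MP_12eaff_co.BK
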