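import Mathlib
import Pool.Agent.Lib.MP_12eaff_co.BK.State

set_option autoImplicit false
set_option linter.unusedSectionVars false
set_option linter.unusedVariables false

namespace Pool.Agent.Lib.MP_12eaff_co.BK

open Finset
open scoped Classical

variable {V : Type} [Fintype V]

/-- Search tree of uncoloured-vertex shifts. -/
structure Tr (V : Type) where
  R : Finset V
  r : V
  par : V → V
  t : V → ℕ
  A : V → Finset V
  col : V → V → ℕ

namespace Sys

variable (S : Sys V)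

def Mv (c : V → ℕ) (u z : V) : Prop := S.Uq c u z (c z)

def Ps (c0 c : V → ℕ) (u z : V) : Prop :=
  ∃ w ∈ S.P, S.Uq c u w (c z) ∧ c z ≠ c0 u ∧ S.Head c u w (c z) z

def Step (c0 c : V → ℕ) (u z : V) : Prop := S.Mv c u z ∨ S.Ps c0 c u z

structure PT (c0 : V → ℕ) (T : Tr V) (Dn : Finset V) : Prop where
  sub : Dn ⊆ T.R
  rR : T.r ∈ T.R
  rA : T.A T.r = {T.r}
  rcol : T.col T.r = c0
  rhole : ¬ c0 T.r < S.D
  rP : T.r ∉ S.P
  parD : ∀ z ∈ T.R, z ≠ T.r → T.par z ∈ Dn
  step : ∀ z ∈ T.R, z ≠ T.r → S.Step c0 (T.col (T.par z)) (T.par z) z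
  notA : ∀ z ∈ T.R, z ≠ T.r → z ∉ T.A (T.par z)
  Aeq : ∀ z ∈ T.R, z ≠ T.r → T.A z = insert z (T.A (T.par z))
  coleq : ∀ z ∈ T.R, z ≠ T.r →
    T.col z = Function.update (Function.update (T.col (T.par z)) z S.D) (T.par z) (c0 z)
  tlt : ∀ z ∈ Dn, z ≠ T.r → T.t (T.par z) < T.t z
  tinj : ∀ x ∈ Dn, ∀ y ∈ Dn, T.t x = T.t y → x = y
  tbd : ∀ x ∈ Dn, T.t x < Dn.card
  rin : ∀ z ∈ T.R, T.r ∈ T.A z
  clos : ∀ h ∈ Dn, ∀ z, z ∉ T.A h → S.Step c0 (T.col h) h z → z ∈ T.R ∧ T.t (T.par z) ≤ T.t h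

variable {S}

theorem PT.extend {c0 : V → ℕ} {T : Tr V} {Dn : Finset V} (pt : S.PT c0 T Dn) {h : V}
    (hR : h ∈ T.R) (hD : h ∉ Dn) : ∃ T', S.PT c0 T' (insert h Dn) := by
  let New : Finset V := univ.filter (fun z => z ∉ T.R ∧ z ∉ T.A h ∧ S.Step c0 (T.col h) h z)
  have nN : ∀ z ∈ T.R, z ∉ New := fun z hz hn => (mem_filter.mp hn).2.1 hz
  let T' : Tr V := ⟨T.R ∪ New, T.r, fun z => if z ∈ New then h else T.par z,
    Function.update T.t h Dn.card, fun z => if z ∈ New then insert z (T.A h) else T.A z,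
    fun z => if z ∈ New then Function.update (Function.update (T.col h) z S.D) h (c0 z)
      else T.col z⟩
  have eP : ∀ z ∈ T.R, T'.par z = T.par z := fun z hz => if_neg (nN z hz)
  have eA : ∀ z ∈ T.R, T'.A z = T.A z := fun z hz => if_neg (nN z hz)
  have eC : ∀ z ∈ T.R, T'.col z = T.col z := fun z hz => if_neg (nN z hz)
  have fP : ∀ z ∈ New, T'.par z = h := fun z hz => if_pos hz
  have fA : ∀ z ∈ New, T'.A z = insert z (T.A h) := fun z hz => if_pos hz
  have fC : ∀ z ∈ New, T'.col z = Function.update (Function.update (T.col h) z S.D) h (c0 z) :=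
    fun z hz => if_pos hz
  have eT : ∀ z ∈ Dn, T'.t z = T.t z := fun z hz =>
    Function.update_of_ne (fun (e : z = h) => hD (by rw [← e]; exact hz)) _ _
  have fT : T'.t h = Dn.card := by simp [T']
  have pR : ∀ z ∈ T.R, z ≠ T.r → T.par z ∈ T.R := fun z hz hr => pt.sub (pt.parD z hz hr)
  have cases : ∀ z ∈ T'.R, z ∈ T.R ∨ z ∈ New := fun z hz => mem_union.mp hz
  refine ⟨T', ?_, mem_union_left _ pt.rR, (eA _ pt.rR).trans pt.rA, (eC _ pt.rR).trans pt.rcol,
    pt.rhole, pt.rP, ?_, ?_, ?_, ?_, ?_, ?_, ?_, ?_, ?_, ?_⟩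
  · exact insert_subset (mem_union_left _ hR) (pt.sub.trans subset_union_left)
  · intro z hz hr
    rcases cases z hz with q | q
    · rw [eP z q]; exact mem_insert_of_mem (pt.parD z q hr)
    · rw [fP z q]; exact mem_insert_self _ _
  · intro z hz hr
    rcases cases z hz with q | q
    · rw [eP z q, eC _ (pR z q hr)]; exact pt.step z q hr
    · rw [fP z q, eC _ hR]; exact (mem_filter.mp q).2.2.2
  · intro z hz hr
    rcases cases z hz with q | q
    · rw [eP z q, eA _ (pR z q hr)]; exact pt.notA z q hr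
    · rw [fP z q, eA _ hR]; exact (mem_filter.mp q).2.2.1
  · intro z hz hr
    rcases cases z hz with q | q
    · rw [eP z q, eA _ (pR z q hr), eA z q]; exact pt.Aeq z q hr
    · rw [fP z q, eA _ hR, fA z q]
  · intro z hz hr
    rcases cases z hz with q | q
    · rw [eP z q, eC _ (pR z q hr), eC z q]; exact pt.coleq z q hr
    · rw [fP z q, eC _ hR, fC z q]
  · intro z hz hr
    rcases mem_insert.mp hz with q | q
    · subst q
      rw [eP z hR, fT, eT _ (pt.parD z hR hr)]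
      exact pt.tbd _ (pt.parD z hR hr)
    · rw [eP z (pt.sub q), eT z q, eT _ (pt.parD z (pt.sub q) hr)]
      exact pt.tlt z q hr
  · intro x hx y hy e
    rcases mem_insert.mp hx with q | q <;> rcases mem_insert.mp hy with q' | q'
    · rw [q, q']
    · rw [q, fT, eT y q'] at e
      have := pt.tbd y q'
      omega
    · rw [q', fT, eT x q] at e
      have := pt.tbd x q
      omega
    · rw [eT x q, eT y q'] at e
      exact pt.tinj x q y q' e
  · intro x hx
    rw [card_insert_of_notMem hD]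
    rcases mem_insert.mp hx with q | q
    · rw [q, fT]; omega
    · rw [eT x q]
      have := pt.tbd x q
      omega
  · intro z hz
    rcases cases z hz with q | q
    · rw [eA z q]; exact pt.rin z q
    · rw [fA z q]; exact mem_insert_of_mem (pt.rin h hR)
  · intro g hg z hz hs
    rcases mem_insert.mp hg with q | q
    · subst q
      rw [eA _ hR] at hz
      rw [eC _ hR] at hs
      by_cases k : z ∈ T.R
      · have hr : z ≠ T.r := fun e => hz (e ▸ pt.rin g hR)
        refine ⟨mem_union_left _ k, ?_⟩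
        rw [eP z k, fT, eT _ (pt.parD z k hr)]
        exact (pt.tbd _ (pt.parD z k hr)).le
      · have : z ∈ New := mem_filter.mpr ⟨mem_univ _, k, hz, hs⟩
        exact ⟨mem_union_right _ this, by rw [fP z this]⟩
    · rw [eA _ (pt.sub q)] at hz
      rw [eC _ (pt.sub q)] at hs
      obtain ⟨k, k2⟩ := pt.clos g q z hz hs
      have hr : z ≠ T.r := fun e => hz (e ▸ pt.rin g (pt.sub q))
      refine ⟨mem_union_left _ k, ?_⟩
      rw [eP z k, eT _ (pt.parD z k hr), eT g q]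
      exact k2

theorem exists_tree {c0 : V → ℕ} {r : V} (h1 : ¬ c0 r < S.D) (h2 : r ∉ S.P) :
    ∃ T : Tr V, S.PT c0 T T.R := by
  have base : S.PT c0 ⟨{r}, r, id, fun _ => 0, fun _ => {r}, fun _ => c0⟩ ∅ := by
    refine ⟨by simp, by simp, rfl, rfl, h1, h2, ?_, ?_, ?_, ?_, ?_, ?_, ?_, ?_, ?_, ?_⟩ <;> simp
  have key : ∀ n : ℕ, (∃ T : Tr V, S.PT c0 T T.R) ∨ ∃ T Dn, S.PT c0 T Dn ∧ n ≤ Dn.card := by
    intro n
    induction n with
    | zero => exact Or.inr ⟨_, _, base, Nat.zero_le _⟩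
    | succ n ih =>
      rcases ih with ih | ⟨T, Dn, pt, hn⟩
      · exact Or.inl ih
      · by_cases q : T.R ⊆ Dn
        · have : Dn = T.R := Subset.antisymm pt.sub q
          subst this
          exact Or.inl ⟨T, pt⟩
        · obtain ⟨h, hR, hD⟩ := not_subset.mp q
          obtain ⟨T', pt'⟩ := pt.extend hR hD
          exact Or.inr ⟨T', _, pt', by rw [card_insert_of_notMem hD]; omega⟩
  rcases key (Fintype.card V + 1) with h | ⟨T, Dn, _, hn⟩
  · exact h
  · have := card_le_univ Dn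
    omega

/-- The whole setting of the recolouring argument. -/
structure Ctx (S : Sys V) (c0 : V → ℕ) (T : Tr V) : Prop where
  ok : S.OK
  num : S.Num
  hm : S.Min c0
  pt : S.PT c0 T T.R

variable {c0 : V → ℕ} {T : Tr V}

theorem Step.lt {c : V → ℕ} {u z : V} (h : S.Step c0 c u z) : c z < S.D := by
  rcases h with h | ⟨w, _, h, _⟩ <;> exact h.1.2.1

theorem Step.uq {c : V → ℕ} {u z : V} (h : S.Step c0 c u z) :
    ∃ e, S.Uq c u e (c z) ∧ (e = z ∨ e ∈ S.P) := by
  rcases h with h | ⟨w, hw, h, _⟩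
  · exact ⟨z, h, Or.inl rfl⟩
  · exact ⟨w, h, Or.inr hw⟩

theorem Step.vis {c : V → ℕ} (hv : S.Valid c) {u z e : V} (h : S.Step c0 c u z)
    (he : S.G.Adj u e) (hc : c e = c z) : e = z := by
  obtain ⟨a, h1, h2⟩ := h.uq
  have := h1.2 e ⟨he, h.lt, Or.inl hc⟩
  subst this
  exact h2.resolve_right (fun q => hv.unc e q (hc ▸ h.lt))

theorem Step.head {c : V → ℕ} (ok : S.OK) (hv : S.Valid c) {u z : V} (h : S.Step c0 c u z) (w : V)
    (hw : S.NB c u w (c z)) : S.Head c u w (c z) z := by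
  have vc : S.VC c u w (c z) := ⟨(ok.Eadj w hw.1 u hw.2.1).symm, h.lt, Or.inr hw⟩
  rcases h with h' | ⟨w', _, h1, _, h3⟩
  · have := h'.2 w vc
    subst this
    exact absurd h'.1.2.1 (hv.unc w hw.1)
  · rw [h1.2 w vc]; exact h3

theorem Ctx.ind (X : Ctx S c0 T) {Q : V → Prop} (h0 : Q T.r)
    (h1 : ∀ z ∈ T.R, z ≠ T.r → Q (T.par z) → Q z) : ∀ z ∈ T.R, Q z := by
  have : ∀ n, ∀ z ∈ T.R, T.t z = n → Q z := by
    intro n
    induction n using Nat.strong_induction_on with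
    | _ n ih =>
      intro z hz e
      by_cases q : z = T.r
      · rw [q]; exact h0
      · exact h1 z hz q (ih _ (e ▸ X.pt.tlt z hz q) _ (X.pt.parD z hz q) rfl)
  exact fun z hz => this _ z hz rfl

structure St (S : Sys V) (c0 : V → ℕ) (T : Tr V) (h : V) : Prop where
  min : S.Min (T.col h)
  mono : S.Mono c0 (T.col h)
  hole : ¬ T.col h h < S.D
  nP : h ∉ S.P
  self : h ∈ T.A h
  out : ∀ v, v ∉ T.A h → T.col h v = c0 v

theorem St.step {h z : V} (ok : S.OK) (num : S.Num) (st : St S c0 T h) (hz : z ∉ T.A h)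
    (hs : S.Step c0 (T.col h) h z) :
    S.Min (Function.update (Function.update (T.col h) z S.D) h (c0 z)) ∧
      S.Mono c0 (Function.update (Function.update (T.col h) z S.D) h (c0 z)) := by
  rw [← st.out z hz]
  exact ⟨step_min ok num st.min st.hole st.nP hs.lt rfl (fun e he hc => hs.vis st.min.val he hc)
    (hs.head ok st.min.val), st.mono.trans (step_mono ok num st.hole hs.lt rfl
      (hs.head ok st.min.val))⟩

theorem Ctx.st (X : Ctx S c0 T) : ∀ h ∈ T.R, St S c0 T h := by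
  refine X.ind ?_ ?_
  · refine ⟨X.pt.rcol ▸ X.hm, X.pt.rcol ▸ Mono.refl _, X.pt.rcol ▸ X.pt.rhole, X.pt.rP,
      by rw [X.pt.rA]; simp, fun v _ => by rw [X.pt.rcol]⟩
  · intro z hz hr st
    have hs := X.pt.step z hz hr
    have hn := X.pt.notA z hz hr
    have k := st.step X.ok X.num hn hs
    have ne : z ≠ T.par z := fun e => hn (by have := st.self; rw [← e] at this ⊢; exact this)
    refine ⟨X.pt.coleq z hz hr ▸ k.1, X.pt.coleq z hz hr ▸ k.2, ?_, fun q => st.min.val.unc z q hs.lt,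
      by rw [X.pt.Aeq z hz hr]; exact mem_insert_self _ _, fun v hv => ?_⟩
    · rw [X.pt.coleq z hz hr, Function.update_of_ne ne]; simp
    · rw [X.pt.Aeq z hz hr, mem_insert, not_or] at hv
      rw [X.pt.coleq z hz hr, Function.update_of_ne (fun e => hv.2 (by rw [e]; exact st.self)),
        Function.update_of_ne hv.1]
      exact st.out v hv.2

theorem Ctx.anc (X : Ctx S c0 T) : ∀ h ∈ T.R, ∀ x ∈ T.A h,
    x ∈ T.R ∧ T.A x ⊆ T.A h ∧ (x = h ∨ T.t x < T.t h) := by
  refine X.ind (Q := fun h => ∀ x ∈ T.A h, x ∈ T.R ∧ T.A x ⊆ T.A h ∧ (x = h ∨ T.t x < T.t h)) ?_ ?_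
  · intro x hx
    rw [X.pt.rA, mem_singleton] at hx
    subst hx
    exact ⟨X.pt.rR, Subset.rfl, Or.inl rfl⟩
  · intro z hz hr ih x hx
    have hA := X.pt.Aeq z hz hr
    rw [hA] at hx
    rcases mem_insert.mp hx with q | q
    · subst q; exact ⟨hz, Subset.rfl, Or.inl rfl⟩
    · obtain ⟨a, b, c⟩ := ih x q
      refine ⟨a, by rw [hA]; exact b.trans (subset_insert _ _), Or.inr ?_⟩
      have := X.pt.tlt z hz hr
      rcases c with c | c
      · rw [c]; exact this
      · omega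

theorem Ctx.next (X : Ctx S c0 T) : ∀ h ∈ T.R, ∀ x ∈ T.A h, x ≠ h →
    ∃ y ∈ T.A h, y ≠ T.r ∧ T.par y = x ∧ T.col h x = c0 y := by
  refine X.ind (Q := fun h => ∀ x ∈ T.A h, x ≠ h →
    ∃ y ∈ T.A h, y ≠ T.r ∧ T.par y = x ∧ T.col h x = c0 y) ?_ ?_
  · intro x hx hne
    rw [X.pt.rA, mem_singleton] at hx
    exact absurd hx hne
  · intro z hz hr ih x hx hne
    have hA := X.pt.Aeq z hz hr
    rw [hA] at hx ⊢
    have q := (mem_insert.mp hx).resolve_left hne
    by_cases e : x = T.par z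
    · refine ⟨z, mem_insert_self _ _, hr, e.symm, ?_⟩
      rw [X.pt.coleq z hz hr, e, Function.update_self]
    · obtain ⟨y, a, b, c, d⟩ := ih x q e
      refine ⟨y, mem_insert_of_mem a, b, c, ?_⟩
      rw [X.pt.coleq z hz hr, Function.update_of_ne e, Function.update_of_ne hne, d]

theorem Ctx.lin (X : Ctx S c0 T) : ∀ h ∈ T.R, ∀ x ∈ T.A h, ∀ y ∈ T.A h, T.t x ≤ T.t y →
    x ∈ T.A y := by
  refine X.ind (Q := fun h => ∀ x ∈ T.A h, ∀ y ∈ T.A h, T.t x ≤ T.t y → x ∈ T.A y) ?_ ?_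
  · intro x hx y hy _
    rw [X.pt.rA, mem_singleton] at hx hy
    rw [hx, hy, X.pt.rA]; simp
  · intro z hz hr ih x hx y hy hle
    by_cases e : y = z
    · rw [e]; exact hx
    · have hA := X.pt.Aeq z hz hr
      have hy' := hy
      rw [hA] at hx hy
      have q := (mem_insert.mp hy).resolve_left e
      rcases mem_insert.mp hx with k | k
      · have := ((X.anc z hz y hy').2.2).resolve_left e
        rw [k] at hle
        omega
      · exact ih x k y q hle

theorem Ctx.notA_of_lt (X : Ctx S c0 T) {h x : V} (hh : h ∈ T.R) (hlt : T.t h < T.t x) :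
    x ∉ T.A h := by
  intro q
  rcases (X.anc h hh x q).2.2 with e | e
  · rw [e] at hlt; omega
  · omega

theorem Ctx.antisymm (X : Ctx S c0 T) {h x : V} (hh : h ∈ T.R) (hx : x ∈ T.A h) (hne : x ≠ h) :
    h ∉ T.A x :=
  X.notA_of_lt (X.anc h hh x hx).1 ((X.anc h hh x hx).2.2.resolve_left hne)

theorem Ctx.parA (X : Ctx S c0 T) {z : V} (hz : z ∈ T.R) (hr : z ≠ T.r) : T.par z ∈ T.A z := by
  rw [X.pt.Aeq z hz hr]
  exact mem_insert_of_mem (X.st _ (X.pt.parD z hz hr)).self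

theorem Ctx.inA_par (X : Ctx S c0 T) {z x : V} (hz : z ∈ T.R) (hx : x ∈ T.A z) (hne : x ≠ z) :
    z ≠ T.r ∧ x ∈ T.A (T.par z) := by
  have hr : z ≠ T.r := by
    intro e
    rw [e, X.pt.rA, mem_singleton] at hx
    exact hne (hx.trans e.symm)
  refine ⟨hr, ?_⟩
  rw [X.pt.Aeq z hz hr] at hx
  exact (mem_insert.mp hx).resolve_left hne

theorem Ctx.step_lt (X : Ctx S c0 T) {h z : V} (hh : h ∈ T.R) (hz : z ∉ T.A h)
    (hs : S.Step c0 (T.col h) h z) : c0 z < S.D := by
  rw [← (X.st h hh).out z hz]; exact hs.lt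

theorem Ctx.step_ne (X : Ctx S c0 T) {h z : V} (hh : h ∈ T.R) (hz : z ∉ T.A h)
    (hs : S.Step c0 (T.col h) h z) : c0 z ≠ c0 h := by
  have k := X.step_lt hh hz hs
  rcases hs with hs | ⟨w, _, _, h2, _⟩
  · exact X.hm.val.prop z h hs.1.1.symm k
  · rwa [(X.st h hh).out z hz] at h2

theorem Ctx.col_lt (X : Ctx S c0 T) {z : V} (hz : z ∈ T.R) (hr : z ≠ T.r) : c0 z < S.D :=
  X.step_lt (X.pt.parD z hz hr) (X.pt.notA z hz hr) (X.pt.step z hz hr)

theorem Ctx.mv_of (X : Ctx S c0 T) {u e : V} (hu : u ∈ T.R) (ha : S.G.Adj u e) (hP : e ∉ S.P)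
    (hN : e ∉ S.NU (T.col u) u) : S.Mv (T.col u) u e := by
  have : ∃ γ, S.Uq (T.col u) u e γ := by
    by_contra q
    exact hN (mem_filter.mpr ⟨mem_nb.mpr ha, q⟩)
  obtain ⟨γ, hγ⟩ := this
  have : T.col u e = γ := hγ.1.2.2.resolve_right (fun q => hP q.1)
  unfold Mv
  rw [this]; exact hγ

theorem Ctx.NU_le (X : Ctx S c0 T) {u : V} (hu : u ∈ T.R) :
    (S.NU (T.col u) u).card + 2 * S.D ≤ 2 * (nb S.G u).card ∧ S.D ≤ (nb S.G u).card :=
  NU_card X.ok X.num (X.st u hu).min (X.st u hu).hole (X.st u hu).nP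

theorem Ctx.NU_two (X : Ctx S c0 T) {u : V} (hu : u ∈ T.R) : (S.NU (T.col u) u).card ≤ 2 := by
  have := X.NU_le hu
  have := X.ok.deg u
  omega

/-- A descendant joined to an ancestor other than its parent was not available from it. -/
theorem Ctx.desc_NU (X : Ctx S c0 T) {u e : V} (hu : u ∈ T.R) (he : e ∈ T.A u)
    (ha : S.G.Adj e u) (hp : T.par u ≠ e) : u ∈ S.NU (T.col e) e := by
  by_contra q
  have heR := (X.anc u hu e he).1
  have mv := X.mv_of heR ha (X.st u hu).nP q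
  have k := (X.pt.clos e heR u (X.antisymm hu he ha.ne) (Or.inl mv)).2
  obtain ⟨hr, k2⟩ := X.inA_par hu he ha.ne
  rcases (X.anc _ (X.pt.parD u hu hr) e k2).2.2 with e1 | e1
  · exact hp e1.symm
  · omega

end Sys

end Pool.Agent.Lib.MP_12eaff_co.BK
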