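import Mathlib
import Pool.Agent.Lib.MP_12eaff_co.BK.Tree

set_option autoImplicit false
set_option linter.unusedSectionVars false
set_option linter.unusedVariables false

namespace Pool.Agent.Lib.MP_12eaff_co.BK

open Finset
open scoped Classical

variable {V : Type} [Fintype V]

def Tr.Inner (T : Tr V) (x : V) : Prop := ∃ z ∈ T.R, z ≠ T.r ∧ T.par z = x

namespace Sys

variable (S : Sys V)

noncomputable def Pot (c0 : V → ℕ) (w : V) : Finset ℕ :=
  (range S.D).filter (fun γ => S.p - 1 ≤ S.sC c0 (S.gr w) γ ∨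
    ∃ ζ < S.D, S.L - 1 ≤ S.cC c0 (S.gr w) γ ζ)

def U0 (c0 : V → ℕ) (y z : V) : Prop :=
  S.G.Adj y z ∧ c0 z < S.D ∧ (∀ e, S.G.Adj y e → e ≠ z → c0 e ≠ c0 z) ∧
    ∀ w ∈ S.P, y ∈ S.E w → c0 z ∉ S.Pot c0 w

def TrP (c0 : V → ℕ) (T : Tr V) (y z : V) : Prop :=
  ∃ x ∈ T.R, x ≠ T.r ∧ T.Inner x ∧ y ∈ S.NU (T.col (T.par x)) (T.par x) ∧ c0 z = c0 x

def U (c0 : V → ℕ) (T : Tr V) (y z : V) : Prop := S.U0 c0 y z ∧ ¬ S.TrP c0 T y z

/-- `e` is an available, so far untouched neighbour of `u`. -/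
def Good (T : Tr V) (u e : V) : Prop :=
  S.G.Adj u e ∧ e ∉ S.P ∧ e ∉ T.A u ∧ e ∉ S.NU (T.col u) u

def Clean (c0 : V → ℕ) (T : Tr V) (y z : V) : Prop :=
  y ∈ T.R ∧ z ∈ T.R ∧ S.U c0 T y z ∧ S.U c0 T z y ∧ S.Good T y z ∧ S.Good T z y

noncomputable def Cl (c0 : V → ℕ) (T : Tr V) (z : V) : Finset V :=
  univ.filter (fun y => S.Clean c0 T y z)

variable {S} {c0 : V → ℕ} {T : Tr V}

theorem Clean.symm {y z : V} (h : S.Clean c0 T y z) : S.Clean c0 T z y :=
  ⟨h.2.1, h.1, h.2.2.2.1, h.2.2.1, h.2.2.2.2.2, h.2.2.2.2.1⟩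

theorem mem_Cl {y z : V} : y ∈ S.Cl c0 T z ↔ S.Clean c0 T y z := by simp [Cl]

theorem Pot_card (ok : S.OK) (num : S.Num) {w : V} (hw : w ∈ S.P) : (S.Pot c0 w).card ≤ 2 := by
  have n1 := num.h1
  have n2 := num.h2
  have hc := ok.card w hw
  have hE : ∀ a ∈ S.gr w, (S.E a).card ≤ 2 := fun a ha => ok.Ecard a (ok.sub w hw ha)
  by_cases h : ∃ γ0 ζ0, ζ0 < S.D ∧ S.L - 1 ≤ S.cC c0 (S.gr w) γ0 ζ0
  · obtain ⟨γ0, ζ0, _, h2⟩ := h
    have : S.Pot c0 w ⊆ {γ0, ζ0} := by
      intro γ hγ
      by_contra hn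
      simp only [mem_insert, mem_singleton, not_or] at hn
      rcases (mem_filter.mp hγ).2 with q | ⟨ζ, _, q⟩
      · have := filt_disj (g := S.gr w) (p := fun a => S.sees c0 a γ)
          (q := fun a => S.cls c0 a γ0 ζ0) (fun t ht p q => by
            rcases cls_sees (hE t ht) q p with e | e
            · exact hn.1 e
            · exact hn.2 e)
        unfold sC at q
        unfold cC at h2
        omega
      · have := filt_disj (g := S.gr w) (p := fun a => S.cls c0 a γ0 ζ0)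
          (q := fun a => S.cls c0 a γ ζ) (fun t ht p q => by
            rcases cls_eq (hE t ht) p q with e | e
            · exact hn.1 e.1
            · exact hn.2 e.1)
        unfold cC at h2 q
        omega
    exact le_trans (card_le_card this) card_le_two
  · push Not at h
    have : (S.Pot c0 w).card ≤ 1 := by
      rw [card_le_one]
      intro γ hγ γ' hγ'
      by_contra hne
      have a := mem_filter.mp hγ
      have b := mem_filter.mp hγ'
      have a2 := a.2.resolve_right (fun ⟨ζ, q1, q2⟩ => absurd (h γ ζ q1) (by omega))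
      have b2 := b.2.resolve_right (fun ⟨ζ, q1, q2⟩ => absurd (h γ' ζ q1) (by omega))
      have := filt_add (g := S.gr w) (p := fun a => S.sees c0 a γ)
        (q := fun a => S.sees c0 a γ') (r := fun a => S.cls c0 a γ γ')
        (fun t _ p q => sees_two p q hne)
      have k := h γ γ' (mem_range.mp b.1)
      unfold sC at a2 b2
      unfold cC at k
      omega
    omega

theorem pot_of (num : S.Num) {c : V → ℕ} (mono : S.Mono c0 c) {w : V} (hw : w ∈ S.P) {γ : ℕ}
    (hγ : γ < S.D) (h : S.p - 1 ≤ S.sC c (S.gr w) γ ∨ ∃ ζ < S.D, S.L - 1 ≤ S.cC c (S.gr w) γ ζ) :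
    γ ∈ S.Pot c0 w := by
  have n1 := num.h1
  have n2 := num.h2
  refine mem_filter.mpr ⟨mem_range.mpr hγ, ?_⟩
  rcases h with h | ⟨ζ, h1, h2⟩
  · have := mono.star w hw γ hγ
    left; omega
  · have := mono.cl w hw γ hγ ζ h1
    exact Or.inr ⟨ζ, h1, by omega⟩

theorem sC_erase (c : V → ℕ) (g : Finset V) (w : V) (γ : ℕ) : S.sC c (g.erase w) γ ≤ S.sC c g γ :=
  filt_erase_le _ _ _

theorem cC_erase (c : V → ℕ) (g : Finset V) (w : V) (γ ζ : ℕ) :
    S.cC c (g.erase w) γ ζ ≤ S.cC c g γ ζ :=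
  filt_erase_le _ _ _

theorem put_cls_le (ok : S.OK) (c : V → ℕ) (u : V) (γ : ℕ) {w0 : V} (hw0 : w0 ∈ S.P) (δ ε : ℕ) :
    S.cC (Function.update c u γ) (S.gr w0) δ ε ≤ S.cC c (S.gr w0) δ ε + 1 := by
  rcases put_cls ok c u γ hw0 (δ := δ) (ε := ε) with h | ⟨w, hw, _, x, _, _, a4, a5⟩
  · omega
  · have k := cC_erase (S := S) c (S.gr w) w γ (c x)
    rw [ok.eqv w0 hw0 w hw] at k a5
    rcases a4 with a | a
    · rw [a.1, a.2] at a5 ⊢; omega
    · rw [a.1, a.2] at a5 ⊢
      rw [cC_symm c _ (c x) γ]; omega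

theorem Ctx.inner_of (X : Ctx S c0 T) {h x : V} (hh : h ∈ T.R) (hx : x ∈ T.A h) (hne : x ≠ h) :
    T.Inner x := by
  obtain ⟨y, a, b, c, _⟩ := X.next h hh x hx hne
  exact ⟨y, (X.anc h hh y a).1, b, c⟩

theorem Ctx.lem1 (X : Ctx S c0 T) : ∀ h ∈ T.R, ∀ z y, z ∉ T.A h → S.Step c0 (T.col h) h z →
    S.U c0 T y z → S.U c0 T z y → y ∉ T.A h → S.G.Adj h y ∨ c0 y = c0 h := by
  have main : ∀ n, ∀ h ∈ T.R, T.t h = n → ∀ z y, z ∉ T.A h → S.Step c0 (T.col h) h z →
      S.U c0 T y z → S.U c0 T z y → y ∉ T.A h → S.G.Adj h y ∨ c0 y = c0 h := by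
    intro n
    induction n using Nat.strong_induction_on with
    | _ n ih =>
      intro h hh hn z y hz hs uy uz hy
      have ok := X.ok
      have num := X.num
      have n1 := num.h1
      have n2 := num.h2
      have st := X.st h hh
      have vis : ∀ v v', S.U c0 T v v' → S.U c0 T v' v → v ∉ T.A h → v' ∉ T.A h → ∀ x ∈ T.A h,
          x ≠ h → S.G.Adj v x → T.col h x = c0 v' → c0 v' = c0 h := by
        intro v v' u1 u2 hv hv' x hx hne ha hc
        obtain ⟨x', a, b, c, d⟩ := X.next h hh x hx hne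
        by_cases e : x' = h
        · rw [← hc, d, e]
        · exfalso
          obtain ⟨xR, xA, xt⟩ := X.anc h hh x hx
          have x'R := (X.anc h hh x' a).1
          have k1 : v ∉ S.NU (T.col x) x := fun q =>
            u1.2 ⟨x', x'R, b, X.inner_of hh a e, c ▸ q, hc.symm.trans d⟩
          have mv := X.mv_of xR ha.symm (fun q => X.hm.val.unc v q u2.1.2.1) k1
          have stp := X.pt.step x' x'R b
          have nA := X.pt.notA x' x'R b
          rw [c] at stp nA
          rcases ih _ (hn ▸ xt.resolve_left hne) x xR rfl v v' (fun q => hv (xA q)) (Or.inl mv) u2 u1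
            (fun q => hv' (xA q)) with q | q
          · have := stp.vis (X.st x xR).min.val q (by
              rw [(X.st x xR).out v' (fun q => hv' (xA q)), (X.st x xR).out x' nA, ← hc, d])
            exact hv' (this ▸ a)
          · exact X.step_ne xR nA stp (by rw [← d, hc, q])
      by_contra hcon
      push Not at hcon
      obtain ⟨nadj, nc⟩ := hcon
      obtain ⟨m1, m2⟩ := st.step ok num hz hs
      set σ := Function.update (Function.update (T.col h) z S.D) h (c0 z) with hσ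
      have zh : z ≠ h := fun e => hz (e ▸ st.self)
      have yh : y ≠ h := fun e => hy (e ▸ st.self)
      have yz : y ≠ z := uy.1.1.ne
      have cz := uy.1.2.1
      have cy := uz.1.2.1
      have cyz : c0 y ≠ c0 z := X.hm.val.prop y z uy.1.1 cy
      have σo : ∀ e, e ≠ h → e ≠ z → σ e = T.col h e := fun e a b => by
        rw [hσ, Function.update_of_ne a, Function.update_of_ne b]
      have σh : σ h = c0 z := by rw [hσ, Function.update_self]
      have σz : σ z = S.D := by rw [hσ, Function.update_of_ne zh, Function.update_self]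
      have σy : σ y = c0 y := by rw [σo y yh yz, st.out y hy]
      have zP : z ∉ S.P := fun q => X.hm.val.unc z q cz
      have yP : y ∉ S.P := fun q => X.hm.val.unc y q cy
      set τ0 := Function.update σ y S.D with hτ0
      have v0 : S.Valid τ0 := m1.val.unc' y
      have τ0z : ¬ τ0 z < S.D := by rw [hτ0, Function.update_of_ne yz.symm, σz]; omega
      have v1 : S.Valid (Function.update τ0 z (c0 y)) := by
        refine put_valid ok num v0 τ0z zP cy (fun e he hc => ?_) (fun w hw => ?_)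
        · have ey : e ≠ y := fun q => by rw [q, hτ0, Function.update_self] at hc; omega
          rw [hτ0, Function.update_of_ne ey] at hc
          by_cases q1 : e = h
          · rw [q1, σh] at hc; exact cyz hc.symm
          · rw [σo e q1 he.ne'] at hc
            by_cases q2 : e ∈ T.A h
            · exact nc (vis z y uz uy hz hy e q2 q1 he hc)
            · rw [st.out e q2] at hc
              exact uz.1.2.2.1 e he ey hc
        · refine uz.1.2.2.2 w hw.1 hw.2.1 (pot_of num m2 hw.1 cy ?_)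
          rcases hw.2.2 with q | ⟨x, _, _, q3, q4⟩
          · exact Or.inl (le_trans q.2 (le_trans (sC_erase _ _ _ _) (sC_unc σ y _ cy)))
          · exact Or.inr ⟨_, q3, le_trans (by omega)
              (le_trans q4 (le_trans (cC_erase _ _ _ _ _) (cC_unc σ y _ cy q3)))⟩
      set τ := Function.update τ0 z (c0 y) with hτ
      have m3 : S.Min τ := by
        refine ⟨v1, fun c' hc' => ?_⟩
        have a := holes_put (S := S) τ0z cy
        have b := holes_unc (S := S) (c := σ) (z := y) (by rw [σy]; exact cy)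
        have := m1.min c' hc'
        rw [← hτ] at a
        rw [← hτ0] at b
        omega
      have τy : ¬ τ y < S.D := by
        rw [hτ, Function.update_of_ne yz, hτ0, Function.update_self]; omega
      obtain ⟨e, he, hc⟩ := seen_all ok num m3 τy yP cz
      rcases hc with hc | hw
      · have ez : e ≠ z := fun q => by rw [q, hτ, Function.update_self] at hc; exact cyz hc
        rw [hτ, Function.update_of_ne ez, hτ0, Function.update_of_ne he.ne'] at hc
        have q1 : e ≠ h := fun q => nadj (q ▸ he.symm)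
        rw [σo e q1 ez] at hc
        by_cases q2 : e ∈ T.A h
        · exact X.step_ne hh hz hs (vis y z uy uz hy hz e q2 q1 he hc)
        · rw [st.out e q2] at hc
          exact uy.1.2.2.1 e he ez hc
      · refine uy.1.2.2.2 e hw.1 hw.2.1 (pot_of num m2 hw.1 cz ?_)
        rcases hw.2.2 with q | ⟨x, _, _, q3, q4⟩
        · left
          have a := sC_erase (S := S) τ (S.gr e) e (c0 z)
          have b := sC_unc (S := S) σ y (S.gr e) cz
          have := q.2
          rcases put_star ok τ0 z (c0 y) hw.1 (δ := c0 z) with k | k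
          · rw [← hτ] at k
            rw [← hτ0] at b
            omega
          · exact absurd k.1.symm cyz
        · refine Or.inr ⟨_, q3, ?_⟩
          have a := cC_erase (S := S) τ (S.gr e) e (c0 z) (τ x)
          have b := cC_unc (S := S) σ y (S.gr e) cz q3
          have k := put_cls_le ok τ0 z (c0 y) hw.1 (c0 z) (τ x)
          rw [← hτ] at k
          rw [← hτ0] at b
          omega
  exact fun h hh => main _ h hh rfl

theorem Ctx.lem1_mv (X : Ctx S c0 T) {h z y : V} (hh : h ∈ T.R) (hz : z ∉ T.A h)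
    (mv : S.Mv (T.col h) h z) (cl : S.Clean c0 T y z) (hy : y ∉ T.A h) : S.G.Adj h y := by
  rcases X.lem1 h hh z y hz (Or.inl mv) cl.2.2.1 cl.2.2.2.1 hy with q | q
  · exact q
  · exact absurd q.symm (cl.2.2.2.1.1.2.2.1 h mv.1.1.symm (fun e => hy (e ▸ (X.st h hh).self)))

theorem Ctx.good_mv (X : Ctx S c0 T) {u e : V} (hu : u ∈ T.R) (g : S.Good T u e) :
    S.Mv (T.col u) u e := X.mv_of hu g.1 g.2.1 g.2.2.2

theorem Ctx.good_R (X : Ctx S c0 T) {u e : V} (hu : u ∈ T.R) (g : S.Good T u e) :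
    e ∈ T.R ∧ T.t (T.par e) ≤ T.t u := X.pt.clos u hu e g.2.2.1 (Or.inl (X.good_mv hu g))

theorem Ctx.Cl_clq (X : Ctx S c0 T) (z : V) : IsClq S.G (S.Cl c0 T z) := by
  intro y hy y' hy' hne
  rw [mem_Cl] at hy hy'
  by_cases q : y' ∈ T.A y
  · exact (X.lem1_mv hy'.1 hy'.2.2.2.2.1.2.2.1 (X.good_mv hy'.1 hy'.2.2.2.2.1) hy
      (X.antisymm hy.1 q hne.symm)).symm
  · exact X.lem1_mv hy.1 hy.2.2.2.2.1.2.2.1 (X.good_mv hy.1 hy.2.2.2.2.1) hy' q

theorem Ctx.clq_anc (X : Ctx S c0 T) {Q : Finset V} (hQ : IsClq S.G Q) {h : V} (hh : h ∈ T.R) :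
    (Q.filter (fun y => y ∈ T.A h)).card ≤ 4 := by
  by_cases hne : (Q.filter (fun y => y ∈ T.A h)).Nonempty
  swap
  · rw [not_nonempty_iff_eq_empty.mp hne]; simp
  obtain ⟨y1, h1, h2⟩ := exists_min_image _ T.t hne
  obtain ⟨h1Q, h1A⟩ := mem_filter.mp h1
  have y1R := (X.anc h hh y1 h1A).1
  let C := (T.A h).filter (fun y => y ≠ T.r ∧ T.par y = y1)
  have hC : C.card ≤ 1 := by
    rw [card_le_one]
    have key : ∀ a ∈ C, ∀ b ∈ C, T.t a ≤ T.t b → a = b := by
      intro a ha b hb hle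
      by_contra hab
      obtain ⟨a1, a2, a3⟩ := mem_filter.mp ha
      obtain ⟨b1, b2, b3⟩ := mem_filter.mp hb
      have k := (X.inA_par (X.anc h hh b b1).1 (X.lin h hh a a1 b b1 hle) hab).2
      rw [b3] at k
      have := X.pt.tlt a (X.anc h hh a a1).1 a2
      rw [a3] at this
      exact X.notA_of_lt y1R this k
    intro a ha b hb
    rcases le_total (T.t a) (T.t b) with q | q
    · exact key a ha b hb q
    · exact (key b hb a ha q).symm
  have hsub : Q.filter (fun y => y ∈ T.A h) ⊆ insert y1 (C ∪ S.NU (T.col y1) y1) := by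
    intro y hy
    by_cases e : y = y1
    · rw [e]; exact mem_insert_self _ _
    · obtain ⟨yQ, yA⟩ := mem_filter.mp hy
      have yR := (X.anc h hh y yA).1
      have k := X.lin h hh y1 h1A y yA (h2 y hy)
      refine mem_insert_of_mem (mem_union.mpr ?_)
      by_cases q : T.par y = y1
      · exact Or.inl (mem_filter.mpr ⟨yA, (X.inA_par yR k (Ne.symm e)).1, q⟩)
      · exact Or.inr (X.desc_NU yR k (hQ _ h1Q _ yQ (Ne.symm e)) q)
  have := card_le_card hsub
  have := card_insert_le y1 (C ∪ S.NU (T.col y1) y1)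
  have := card_union_le C (S.NU (T.col y1) y1)
  have := X.NU_two y1R
  omega

theorem Ctx.head_small (X : Ctx S c0 T) {h z : V} (hh : h ∈ T.R) (hz : z ∉ T.A h)
    (ps : S.Ps c0 (T.col h) h z) : (S.Cl c0 T z).card ≤ 7 := by
  let C := (S.Cl c0 T z).filter (fun y => c0 y = c0 h)
  have hC : C.card ≤ 1 := by
    rw [card_le_one]
    intro a ha b hb
    by_contra hab
    obtain ⟨a1, a2⟩ := mem_filter.mp ha
    obtain ⟨b1, b2⟩ := mem_filter.mp hb
    rw [mem_Cl] at a1 b1
    exact b1.2.2.2.1.1.2.2.1 a a1.2.2.2.1.1.1 hab (a2.trans b2.symm)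
  have hsub : S.Cl c0 T z ⊆ ((S.Cl c0 T z).filter (fun y => y ∈ T.A h) ∪ C) ∪ S.NU (T.col h) h := by
    intro y hy
    by_contra hn
    simp only [mem_union, not_or, mem_filter, C, hy, true_and] at hn
    rw [mem_Cl] at hy
    have adj := (X.lem1 h hh z y hz (Or.inr ps) hy.2.2.1 hy.2.2.2.1 hn.1.1).resolve_right hn.1.2
    have mv := X.mv_of hh adj hy.2.2.2.2.2.2.1 hn.2
    have adj2 := X.lem1_mv hh hn.1.1 mv hy.symm hz
    obtain ⟨w, w1, w2, _⟩ := ps
    have := w2.2 z ⟨adj2, w2.1.2.1, Or.inl rfl⟩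
    exact hy.2.2.2.2.1.2.1 (this ▸ w1)
  have := card_le_card hsub
  have := card_union_le ((S.Cl c0 T z).filter (fun y => y ∈ T.A h) ∪ C) (S.NU (T.col h) h)
  have := card_union_le ((S.Cl c0 T z).filter (fun y => y ∈ T.A h)) C
  have := X.clq_anc (X.Cl_clq z) hh
  have := X.NU_two hh
  omega

/-- An in-neighbour of a vertex with a large clean clique is attached to it. -/
theorem Ctx.attach (X : Ctx S c0 T) {h z : V} (hh : h ∈ T.R) (hz : z ∉ T.A h)
    (mv : S.Mv (T.col h) h z) (big : S.κ ≤ (S.Cl c0 T z).card) :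
    h ∈ Jset S.G (S.κ - 4) z ∧ z ∈ Jset S.G (S.κ - 4) h := by
  have k := card_filter_add_card_filter_not (s := S.Cl c0 T z) (fun y => y ∈ T.A h)
  have := X.clq_anc (X.Cl_clq z) hh
  have hQ : IsClq S.G ((S.Cl c0 T z).filter (fun y => ¬ y ∈ T.A h)) :=
    fun a ha b hb => X.Cl_clq z a (mem_filter.mp ha).1 b (mem_filter.mp hb).1
  have adj : ∀ a ∈ (S.Cl c0 T z).filter (fun y => ¬ y ∈ T.A h), S.G.Adj h a ∧ S.G.Adj z a := by
    intro a ha
    obtain ⟨a1, a2⟩ := mem_filter.mp ha
    rw [mem_Cl] at a1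
    exact ⟨X.lem1_mv hh hz mv a1 a2, a1.2.2.2.1.1.1⟩
  exact ⟨mem_filter.mpr ⟨mem_nb.mpr mv.1.1.symm, _, hQ, by omega, adj⟩,
    mem_filter.mpr ⟨mem_nb.mpr mv.1.1, _, hQ, by omega, fun a ha => (adj a ha).symm⟩⟩

end Sys

end Pool.Agent.Lib.MP_12eaff_co.BK
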