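import Mathlib
import Pool.Agent.Lib.MP_12eaff_co.BK.Lem1

set_option autoImplicit false
set_option linter.unusedSectionVars false
set_option linter.unusedVariables false

namespace Pool.Agent.Lib.MP_12eaff_co.BK

open Finset
open scoped Classical

variable {V : Type} [Fintype V]

namespace Sys

variable (S : Sys V)

noncomputable def PL (c0 : V → ℕ) (T : Tr V) (u : V) : Finset V :=
  (nb S.G u).filter (fun e => S.Uq (T.col u) u e (c0 u))

noncomputable def Bad (c0 : V → ℕ) (T : Tr V) (u : V) : Finset V :=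
  S.NU (T.col u) u ∪ S.PL c0 T u

noncomputable def Tch (c0 : V → ℕ) (T : Tr V) (u : V) : Finset V :=
  (nb S.G u).filter (fun e => e ∉ S.Bad c0 T u ∧
    (e ∈ T.A u ∨ (e ∈ S.P ∧ ∃ x ∈ S.E e, x ≠ u ∧ x ∈ T.A u)))

noncomputable def Ab (c0 : V → ℕ) (T : Tr V) (u : V) : Finset V :=
  (nb S.G u).filter (fun e => e ∈ S.P ∧ e ∉ S.Bad c0 T u ∧ ∀ x ∈ S.E e, x ≠ u → x ∉ T.A u)

noncomputable def Z (c0 : V → ℕ) (T : Tr V) (u : V) : Finset V :=
  (nb S.G u).filter (fun e => e ∉ S.P ∧ ¬ (S.Good T u e ∧ S.U0 c0 u e))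

noncomputable def TrS (c0 : V → ℕ) (T : Tr V) (y : V) : Finset V :=
  (nb S.G y).filter (fun z => S.U0 c0 y z ∧ S.TrP c0 T y z)

noncomputable def AbM (c0 : V → ℕ) (T : Tr V) : Finset V :=
  S.P.filter (fun w => ∃ u ∈ T.R, w ∈ S.Ab c0 T u)

def Small (c0 : V → ℕ) (T : Tr V) (v : V) : Prop := (S.Cl c0 T v).card < S.κ

noncomputable def Em (c0 : V → ℕ) (T : Tr V) : Finset V :=
  S.P.filter (fun w => ∃ v ∈ T.R, (S.Small c0 T v ∨ T.Inner v) ∧ w ∈ S.Bad c0 T v)

variable {S} {c0 : V → ℕ} {T : Tr V}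

theorem PL_card (u : V) : (S.PL c0 T u).card ≤ 1 := by
  rw [card_le_one]
  intro a ha b hb
  exact (mem_filter.mp hb).2.2 a (mem_filter.mp ha).2.1

theorem Ctx.Bad_card (X : Ctx S c0 T) {u : V} (hu : u ∈ T.R) : (S.Bad c0 T u).card ≤ 3 := by
  have := card_union_le (S.NU (T.col u) u) (S.PL c0 T u)
  have := X.NU_two hu
  have := PL_card (S := S) (c0 := c0) (T := T) u
  unfold Bad
  omega

theorem classify {u e : V} (h : S.G.Adj u e) :
    e ∈ S.Bad c0 T u ∨ e ∈ S.Tch c0 T u ∨ e ∈ S.Ab c0 T u ∨ S.Good T u e := by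
  by_cases a : e ∈ S.Bad c0 T u
  · exact Or.inl a
  · right
    by_cases b : e ∈ T.A u
    · exact Or.inl (mem_filter.mpr ⟨mem_nb.mpr h, a, Or.inl b⟩)
    · by_cases c : e ∈ S.P
      · by_cases d : ∃ x ∈ S.E e, x ≠ u ∧ x ∈ T.A u
        · exact Or.inl (mem_filter.mpr ⟨mem_nb.mpr h, a, Or.inr ⟨c, d⟩⟩)
        · push Not at d
          exact Or.inr (Or.inl (mem_filter.mpr ⟨mem_nb.mpr h, c, a, d⟩))
      · exact Or.inr (Or.inr ⟨h, c, b, fun q => a (mem_union_left _ q)⟩)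

theorem Ctx.inv_uq (X : Ctx S c0 T) {u w : V} (hu : u ∈ T.R) (ha : S.G.Adj u w) (hw : w ∈ S.P)
    (hb : w ∉ S.Bad c0 T u) :
    ∃ γ, S.Uq (T.col u) u w γ ∧ γ ≠ c0 u ∧ S.HB (T.col u) u w γ := by
  have : ∃ γ, S.Uq (T.col u) u w γ := by
    by_contra q
    exact hb (mem_union_left _ (mem_filter.mpr ⟨mem_nb.mpr ha, q⟩))
  obtain ⟨γ, h⟩ := this
  have st := X.st u hu
  exact ⟨γ, h, fun e => hb (mem_union_right _ (mem_filter.mpr ⟨mem_nb.mpr ha, e ▸ h⟩)),
    uq_HB X.ok X.num st.min st.hole st.nP hw h⟩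

theorem Ctx.hb_pot (X : Ctx S c0 T) {u w : V} (hu : u ∈ T.R) {γ : ℕ} (hγ : γ < S.D)
    (h : S.HB (T.col u) u w γ) : γ ∈ S.Pot c0 w := by
  refine pot_of X.num (X.st u hu).mono h.1 hγ ?_
  rcases h.2.2 with q | ⟨x, _, _, q3, q4⟩
  · exact Or.inl (le_trans q.2 (sC_erase _ _ _ _))
  · exact Or.inr ⟨_, q3, le_trans (by omega) (le_trans q4 (cC_erase _ _ _ _ _))⟩

theorem Ctx.par_Bad (X : Ctx S c0 T) {u : V} (hu : u ∈ T.R) (hr : u ≠ T.r)
    (ha : S.G.Adj u (T.par u)) : T.par u ∈ S.Bad c0 T u := by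
  by_contra q
  have mv := X.mv_of hu ha (X.st _ (X.pt.parD u hu hr)).nP (fun k => q (mem_union_left _ k))
  have : T.col u (T.par u) = c0 u := by rw [X.pt.coleq u hu hr, Function.update_self]
  unfold Mv at mv
  rw [this] at mv
  exact q (mem_union_right _ (mem_filter.mpr ⟨mem_nb.mpr ha, mv⟩))

theorem Ctx.Z_card (X : Ctx S c0 T) {u : V} (hu : u ∈ T.R) :
    (S.Z c0 T u).card ≤ 6 + 2 * (S.Tch c0 T u).card + (S.Ab c0 T u).card ∧
    (S.Z c0 T u).card + ((nb S.G u).filter (fun e => e ∈ S.P)).card ≤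
      9 + 3 * (S.Tch c0 T u).card + 2 * (S.Ab c0 T u).card := by
  set B := S.Bad c0 T u ∪ S.Tch c0 T u with hB
  have st := X.st u hu
  have h1 : B.card ≤ 3 + (S.Tch c0 T u).card := by
    have := card_union_le (S.Bad c0 T u) (S.Tch c0 T u)
    have := X.Bad_card hu
    rw [hB]
    omega
  have h2 := card_filter_add_card_filter_not (s := B) (fun e => e ∈ S.P)
  have h3 : ((nb S.G u).filter (fun e => e ∈ S.P)).card ≤
      (B.filter (fun e => e ∈ S.P)).card + (S.Ab c0 T u).card := by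
    refine le_trans (card_le_card ?_) (card_union_le _ _)
    intro e he
    obtain ⟨a, b⟩ := mem_filter.mp he
    rcases classify (c0 := c0) (T := T) (mem_nb.mp a) with q | q | q | q
    · exact mem_union_left _ (mem_filter.mpr ⟨mem_union_left _ q, b⟩)
    · exact mem_union_left _ (mem_filter.mpr ⟨mem_union_right _ q, b⟩)
    · exact mem_union_right _ q
    · exact absurd b q.2.1
  let C := (nb S.G u).filter (fun e => S.Good T u e ∧ ¬ S.U0 c0 u e)
  have h4 : (S.Z c0 T u).card ≤ (B.filter (fun e => ¬ e ∈ S.P)).card + C.card := by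
    refine le_trans (card_le_card ?_) (card_union_le _ _)
    intro e he
    obtain ⟨a, b, c⟩ := mem_filter.mp he
    rcases classify (c0 := c0) (T := T) (mem_nb.mp a) with q | q | q | q
    · exact mem_union_left _ (mem_filter.mpr ⟨mem_union_left _ q, b⟩)
    · exact mem_union_left _ (mem_filter.mpr ⟨mem_union_right _ q, b⟩)
    · exact absurd (mem_filter.mp q).2.1 b
    · exact mem_union_right _ (mem_filter.mpr ⟨a, q, fun k => c ⟨q, k⟩⟩)
  have guq : ∀ e, S.Good T u e → S.Uq (T.col u) u e (c0 e) := by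
    intro e g
    have := X.good_mv hu g
    unfold Mv at this
    rwa [st.out e g.2.2.1] at this
  have h5 : C.card = (C.image c0).card := by
    refine (card_image_of_injOn (fun a ha b hb e => ?_)).symm
    have a1 := guq a (mem_filter.mp ha).2.1
    have b1 := guq b (mem_filter.mp hb).2.1
    exact b1.2 a (e ▸ a1.1)
  let Φ : V → Finset ℕ := fun w => (S.Pot c0 w).filter (fun γ => ¬ S.Uq (T.col u) u w γ)
  have h6 : C.image c0 ⊆ ((B.filter (fun e => ¬ e ∈ S.P)).image c0 ∪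
      (B.filter (fun e => e ∈ S.P)).biUnion (S.Pot c0)) ∪ (S.Ab c0 T u).biUnion Φ := by
    intro γ hγ
    obtain ⟨e, he, rfl⟩ := mem_image.mp hγ
    obtain ⟨_, g, nu⟩ := mem_filter.mp he
    have uq := guq e g
    by_cases k : ∀ e', S.G.Adj u e' → e' ≠ e → c0 e' ≠ c0 e
    · have : ∃ w ∈ S.P, u ∈ S.E w ∧ c0 e ∈ S.Pot c0 w := by
        by_contra q
        push Not at q
        exact nu ⟨g.1, uq.1.2.1, k, q⟩
      obtain ⟨w, w1, w2, w3⟩ := this
      rcases classify (c0 := c0) (T := T) (X.ok.Eadj w w1 u w2).symm with q | q | q | q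
      · exact mem_union_left _ (mem_union_right _
          (mem_biUnion.mpr ⟨w, mem_filter.mpr ⟨mem_union_left _ q, w1⟩, w3⟩))
      · exact mem_union_left _ (mem_union_right _
          (mem_biUnion.mpr ⟨w, mem_filter.mpr ⟨mem_union_right _ q, w1⟩, w3⟩))
      · refine mem_union_right _ (mem_biUnion.mpr ⟨w, q, mem_filter.mpr ⟨w3, fun k2 => ?_⟩⟩)
        exact g.2.1 (k2.2 e uq.1 ▸ w1)
      · exact absurd w1 q.2.1
    · push Not at k
      obtain ⟨e', a, b, c⟩ := k
      have nP : e' ∉ S.P := fun q => X.hm.val.unc e' q (c ▸ uq.1.2.1)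
      refine mem_union_left _ (mem_union_left _ (mem_image.mpr ⟨e', mem_filter.mpr ⟨?_, nP⟩, c⟩))
      rcases classify (c0 := c0) (T := T) a with q | q | q | q
      · exact mem_union_left _ q
      · exact mem_union_right _ q
      · exact absurd (mem_filter.mp q).2.1 nP
      · exact absurd (uq.2 e' (c ▸ (guq e' q).1)) b
  have h7 := card_le_card h6
  have h8 := card_union_le (((B.filter (fun e => ¬ e ∈ S.P)).image c0 ∪
      (B.filter (fun e => e ∈ S.P)).biUnion (S.Pot c0))) ((S.Ab c0 T u).biUnion Φ)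
  have h9 := card_union_le ((B.filter (fun e => ¬ e ∈ S.P)).image c0)
      ((B.filter (fun e => e ∈ S.P)).biUnion (S.Pot c0))
  have h10 : ((B.filter (fun e => ¬ e ∈ S.P)).image c0).card ≤ _ := card_image_le
  have h11 := card_biUnion_le_card_mul (B.filter (fun e => e ∈ S.P)) (S.Pot c0) 2
    (fun w hw => Pot_card X.ok X.num (mem_filter.mp hw).2)
  have h12 := card_biUnion_le_card_mul (S.Ab c0 T u) Φ 1 (fun w hw => by
    obtain ⟨a, b, c, _⟩ := mem_filter.mp hw
    obtain ⟨γ, g1, _, g3⟩ := X.inv_uq hu (mem_nb.mp a) b c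
    have k := X.hb_pot hu g1.1.2.1 g3
    have : Φ w ⊆ (S.Pot c0 w).erase γ := fun δ hδ =>
      mem_erase.mpr ⟨fun e => (mem_filter.mp hδ).2 (e ▸ g1), (mem_filter.mp hδ).1⟩
    have := card_le_card this
    have := card_erase_of_mem k
    have := Pot_card (c0 := c0) X.ok X.num b
    omega)
  omega

theorem Ctx.nb_split (X : Ctx S c0 T) {s : V} (hs : s ∈ T.R) :
    (nb S.G s).card ≤ (S.Cl c0 T s).card + ((S.Z c0 T s).card +
      ((nb S.G s).filter (fun e => e ∈ S.P)).card) + (T.R.filter (fun e => s ∈ S.Z c0 T e)).card +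
      (S.TrS c0 T s).card + (T.R.filter (fun e => s ∈ S.TrS c0 T e)).card := by
  have : nb S.G s ⊆ (((S.Cl c0 T s ∪ (S.Z c0 T s ∪ (nb S.G s).filter (fun e => e ∈ S.P))) ∪
      T.R.filter (fun e => s ∈ S.Z c0 T e)) ∪ S.TrS c0 T s) ∪
      T.R.filter (fun e => s ∈ S.TrS c0 T e) := by
    intro e he
    by_contra q
    simp only [mem_union, not_or] at q
    obtain ⟨⟨⟨⟨q1, q2, q3⟩, q4⟩, q5⟩, q6⟩ := q
    have nP : e ∉ S.P := fun k => q3 (mem_filter.mpr ⟨he, k⟩)
    have g1 : S.Good T s e ∧ S.U0 c0 s e := by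
      by_contra k
      exact q2 (mem_filter.mpr ⟨he, nP, k⟩)
    have eR := (X.good_R hs g1.1).1
    have hs' : s ∈ nb S.G e := mem_nb.mpr g1.1.1.symm
    have g2 : S.Good T e s ∧ S.U0 c0 e s := by
      by_contra k
      exact q4 (mem_filter.mpr ⟨eR, mem_filter.mpr ⟨hs', (X.st s hs).nP, k⟩⟩)
    exact q1 (mem_Cl.mpr ⟨eR, hs,
      ⟨g2.2, fun k => q6 (mem_filter.mpr ⟨eR, mem_filter.mpr ⟨hs', g2.2, k⟩⟩)⟩,
      ⟨g1.2, fun k => q5 (mem_filter.mpr ⟨he, g1.2, k⟩)⟩, g2.1, g1.1⟩)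
  refine le_trans (card_le_card this) ?_
  refine le_trans (card_union_le _ _) (Nat.add_le_add_right ?_ _)
  refine le_trans (card_union_le _ _) (Nat.add_le_add_right ?_ _)
  refine le_trans (card_union_le _ _) (Nat.add_le_add_right ?_ _)
  exact le_trans (card_union_le _ _) (Nat.add_le_add_left (card_union_le _ _) _)

theorem Ctx.root_small (X : Ctx S c0 T) : S.Cl c0 T T.r = ∅ := by
  rw [eq_empty_iff_forall_notMem]
  intro y hy
  exact X.pt.rhole (mem_Cl.mp hy).2.2.1.1.2.1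

theorem Ctx.big_mv (X : Ctx S c0 T) (hκ : 8 ≤ S.κ) {z : V} (hz : z ∈ T.R)
    (big : ¬ S.Small c0 T z) : z ≠ T.r ∧ S.Mv (T.col (T.par z)) (T.par z) z := by
  unfold Small at big
  have hr : z ≠ T.r := fun e => by
    rw [e, X.root_small] at big
    simp at big
    omega
  refine ⟨hr, (X.pt.step z hz hr).resolve_right (fun q => ?_)⟩
  have := X.head_small (X.pt.parD z hz hr) (X.pt.notA z hz hr) q
  omega

theorem Ctx.leaf_emit (X : Ctx S c0 T) (hκ : 8 ≤ S.κ) {z : V} (hz : z ∈ T.R)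
    (big : ¬ S.Small c0 T z) (leaf : ¬ T.Inner z) (h1 : S.Tch c0 T z = ∅) (h2 : S.Ab c0 T z = ∅) :
    ∃ e ∈ T.R, S.Small c0 T e ∧ z ∈ S.NU (T.col e) e := by
  have st := X.st z hz
  have big' : S.κ ≤ (S.Cl c0 T z).card := not_lt.mp big
  obtain ⟨hr, mv⟩ := X.big_mv hκ hz big
  have hJ : (Jset S.G (S.κ - 4) z).card + 2 ≤ S.D := by
    rcases X.ok.p4 z st.nP with ⟨W, w1, w2, w3⟩ | q
    · exfalso
      have : W ⊆ S.NU (T.col z) z := by
        intro w hw
        refine mem_filter.mpr ⟨mem_nb.mpr (w3 w hw).1, ?_⟩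
        rintro ⟨γ, g⟩
        rcases g.1.2.2 with k | k
        · exact st.min.val.unc w (w1 hw) (k ▸ g.1.2.1)
        · exact (w3 w hw).2 k.2.1
      have := card_le_card this
      have := X.NU_two hz
      omega
    · exact q _ (X.Cl_clq z) big' (fun a ha => (mem_Cl.mp ha).2.2.2.1.1.1)
  have pJ := (X.attach (X.pt.parD z hz hr) (X.pt.notA z hz hr) mv big').1
  have : ∃ e ∈ nb S.G z, e ∉ Jset S.G (S.κ - 4) z ∪ S.NU (T.col z) z := by
    by_contra q
    push Not at q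
    have := card_le_card (show nb S.G z ⊆ _ from q)
    have := card_union_le (Jset S.G (S.κ - 4) z) (S.NU (T.col z) z)
    have := X.NU_le hz
    have := X.ok.deg z
    omega
  obtain ⟨e, he, hn⟩ := this
  rw [mem_union, not_or] at hn
  have g : S.Good T z e := by
    rcases classify (c0 := c0) (T := T) (mem_nb.mp he) with q | q | q | q
    · exfalso
      have q' := (mem_filter.mp ((mem_union.mp q).resolve_left hn.2)).2
      have := q'.2 (T.par z) ⟨mv.1.1.symm, q'.1.2.1,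
        Or.inl (by rw [X.pt.coleq z hz hr, Function.update_self])⟩
      exact hn.1 (this ▸ pJ)
    · rw [h1] at q; simp at q
    · rw [h2] at q; simp at q
    · exact q
  have eR := (X.good_R hz g).1
  refine ⟨e, eR, ?_, ?_⟩
  · by_contra q
    exact hn.1 (X.attach hz g.2.2.1 (X.good_mv hz g) (not_lt.mp q)).2
  · by_contra q
    have nA : z ∉ T.A e := fun k => leaf (X.inner_of eR k g.1.ne)
    exact hn.1 (X.attach eR nA (X.mv_of eR g.1.symm st.nP q) big').1

theorem Ctx.tch_inv (X : Ctx S c0 T) {u w x : V} (hu : u ∈ T.R) (hw : w ∈ S.P) (huw : u ∈ S.E w)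
    (hx : x ∈ S.E w) (hne : x ≠ u) (hA : x ∈ T.A u) :
    w ∈ S.Bad c0 T x ∨ w ∈ S.Ab c0 T x := by
  have xR := (X.anc u hu x hA).1
  rcases classify (c0 := c0) (T := T) (X.ok.Eadj w hw x hx).symm with q | q | q | q
  · exact Or.inl q
  · exfalso
    rcases (mem_filter.mp q).2.2 with k | ⟨_, y, y1, y2, y3⟩
    · exact (X.st w (X.anc x xR w k).1).nP hw
    · have := (two_ends (X.ok.Ecard w hw) hx huw hne y1).resolve_left y2
      exact X.antisymm hu hA hne (this ▸ y3)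
  · exact Or.inr q
  · exact absurd hw q.2.1

theorem Ctx.em_mem (X : Ctx S c0 T) {w v : V} (hw : w ∈ S.P) (hn : w ∉ S.AbM c0 T)
    (hv : v ∈ S.E w) (hR : v ∈ T.R) (h : S.Small c0 T v ∨ T.Inner v) : w ∈ S.Em c0 T := by
  rcases classify (c0 := c0) (T := T) (X.ok.Eadj w hw v hv).symm with q | q | q | q
  · exact mem_filter.mpr ⟨hw, v, hR, h, q⟩
  · rcases (mem_filter.mp q).2.2 with k | ⟨_, x, x1, x2, x3⟩
    · exact absurd hw (X.st w (X.anc v hR w k).1).nP
    · have xR := (X.anc v hR x x3).1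
      rcases X.tch_inv hR hw hv x1 x2 x3 with k | k
      · exact mem_filter.mpr ⟨hw, x, xR, Or.inr (X.inner_of hR x3 x2), k⟩
      · exact absurd (mem_filter.mpr ⟨hw, x, xR, k⟩) hn
  · exact absurd (mem_filter.mpr ⟨hw, v, hR, q⟩) hn
  · exact absurd hw q.2.1

theorem Ctx.head_node (X : Ctx S c0 T) (hκ : 8 ≤ S.κ) {u w z : V} {γ : ℕ} (hu : u ∈ T.R)
    (hw : w ∈ S.P) (uq : S.Uq (T.col u) u w γ) (hne : γ ≠ c0 u) (hz : T.col u z = γ)
    (hd : S.Head (T.col u) u w γ z) : z ∈ T.R ∧ (S.Small c0 T z ∨ T.Inner z) := by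
  by_cases q : z ∈ T.A u
  · exact ⟨(X.anc u hu z q).1, Or.inr (X.inner_of hu q (fun e =>
      (X.st u hu).hole (by rw [e] at hz; rw [hz]; exact uq.1.2.1)))⟩
  · have ps : S.Ps c0 (T.col u) u z := ⟨w, hw, hz ▸ uq, hz ▸ hne, hz ▸ hd⟩
    refine ⟨(X.pt.clos u hu z q (Or.inr ps)).1, Or.inl ?_⟩
    have := X.head_small hu q ps
    unfold Small
    omega

theorem Ctx.ab_facts (X : Ctx S c0 T) {u w : V} (hu : u ∈ T.R) (h : w ∈ S.Ab c0 T u) :
    ∃ γ, S.Uq (T.col u) u w γ ∧ γ ≠ c0 u ∧ u ∈ S.E w ∧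
      ((S.BlkS (S.p - 1) (T.col u) u w γ ∧ S.p - 1 ≤ S.sC c0 (S.gr w) γ ∧ ¬ S.sees c0 w γ) ∨
       ∃ x ∈ S.E w, x ≠ u ∧ T.col u x = c0 x ∧ c0 x < S.D ∧ S.BlkC (S.L - 2) (T.col u) u w γ ∧
         S.L ≤ S.cC c0 (S.gr w) γ (c0 x) ∧ ¬ S.cls c0 w γ (c0 x)) := by
  obtain ⟨a, b, c, d⟩ := mem_filter.mp h
  obtain ⟨γ, g1, g2, g3⟩ := X.inv_uq hu (mem_nb.mp a) b c
  have st := X.st u hu
  have n1 := X.num.h1
  have n2 := X.num.h2
  refine ⟨γ, g1, g2, g3.2.1, ?_⟩
  rcases g3.2.2 with q | ⟨x, x1, x2, x3, x4⟩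
  · refine Or.inl ⟨q, ?_, ?_⟩
    · have := st.mono.star w b γ g1.1.2.1
      have := sC_erase (S := S) (T.col u) (S.gr w) w γ
      have := q.2
      omega
    · rintro ⟨x, x1, x2⟩
      by_cases e : x = u
      · exact g2 (by rw [← x2, e])
      · exact q.1 x x1 e (by rw [st.out x (d x x1 e), x2])
  · have e := st.out x (d x x1 x2)
    refine Or.inr ⟨x, x1, x2, e, e ▸ x3, ⟨x, x1, x2, x3, le_trans (by omega) x4⟩, ?_, ?_⟩
    · have := st.mono.cl w b γ g1.1.2.1 _ x3
      have := cC_erase (S := S) (T.col u) (S.gr w) w γ (T.col u x)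
      have k5 := x4
      rw [e] at k5 this
      rename_i k6
      simp only [e] at k6
      omega
    · intro k
      rcases cls_eq (X.ok.Ecard w b) ⟨u, g3.2.1, x, x1, x2.symm, rfl, rfl⟩ k with k | k
      · exact g2 k.1
      · exact g2 (k.1.trans k.2)

theorem Ctx.group_emit (X : Ctx S c0 T) (hκ : 8 ≤ S.κ) {μ : ℕ} (m1 : μ * (S.p - S.L) ≤ S.L)
    (m2 : μ + S.L + 1 ≤ S.p) (m3 : μ + 2 ≤ S.L) {w0 : V} (hw0 : w0 ∈ S.P) :
    μ * ((S.gr w0).filter (fun w => w ∈ S.AbM c0 T)).card ≤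
      ((S.gr w0).filter (fun w => w ∈ S.Em c0 T)).card := by
  have ok := X.ok
  have n1 := X.num.h1
  have n2 := X.num.h2
  have hc := ok.card w0 hw0
  have hE : ∀ a ∈ S.gr w0, (S.E a).card ≤ 2 := fun a ha => ok.Ecard a (ok.sub w0 hw0 ha)
  by_cases hC : ∃ w ∈ S.gr w0, ∃ u ∈ T.R, ∃ γ, S.Uq (T.col u) u w γ ∧ γ ≠ c0 u ∧ u ∈ S.E w ∧
      ∃ x ∈ S.E w, x ≠ u ∧ T.col u x = c0 x ∧ c0 x < S.D ∧ S.BlkC (S.L - 2) (T.col u) u w γ ∧
         S.L ≤ S.cC c0 (S.gr w) γ (c0 x) ∧ ¬ S.cls c0 w γ (c0 x)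
  · obtain ⟨w, hw, u, hu, γ, uq, gne, huw, x, x1, x2, x3, x4, x5, x6, x7⟩ := hC
    have hg := ok.eqv w0 hw0 w hw
    have hwP := ok.sub w0 hw0 hw
    rw [hg] at x6
    have dis : ∀ a ∈ S.gr w0, a ∈ S.AbM c0 T → S.cls c0 a γ (c0 x) → False := by
      intro a ha h1 h2
      obtain ⟨_, v, hv, h3⟩ := mem_filter.mp h1
      obtain ⟨γ', _, _, _, q⟩ := X.ab_facts hv h3
      rw [ok.eqv w0 hw0 a ha] at q
      rcases q with ⟨_, q2, q3⟩ | ⟨y, _, _, _, _, _, q2, q3⟩
      · have := filt_disj (g := S.gr w0) (p := fun a => S.sees c0 a γ')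
          (q := fun a => S.cls c0 a γ (c0 x)) (fun t ht p q => by
            obtain ⟨a1, a2, a3, a4, _, a6, a7⟩ := h2
            rcases cls_sees (hE t ht) q p with e | e
            · exact q3 ⟨a1, a2, a6.trans e.symm⟩
            · exact q3 ⟨a3, a4, a7.trans e.symm⟩)
        unfold sC at q2
        unfold cC at x6
        omega
      · have := filt_disj (g := S.gr w0) (p := fun a => S.cls c0 a γ (c0 x))
          (q := fun a => S.cls c0 a γ' (c0 y)) (fun t ht p q => by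
            rcases cls_eq (hE t ht) p q with e | e
            · exact q3 (by rw [e.1, e.2]; exact h2)
            · exact q3 (by rw [e.1, e.2]; exact cls_symm h2))
        unfold cC at x6 q2
        omega
    have k1 := filt_disj (g := S.gr w0) (p := fun a => a ∈ S.AbM c0 T)
      (q := fun a => S.cls c0 a γ (c0 x)) dis
    have k2 := filt_mono (g := S.gr w0) (p := fun a => S.cls c0 a γ (c0 x))
      (q := fun a => a ∈ S.Em c0 T) (fun a ha h => by
        have aP := ok.sub w0 hw0 ha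
        have nA : a ∉ S.AbM c0 T := fun q => dis a ha q h
        have aw : a ≠ w := fun e => x7 (e ▸ h)
        have nu : u ∉ S.E a := ok.Edisj w hwP a (hg ▸ ha) aw u huw
        obtain ⟨z, z1, y, y1, zy, z2, y2⟩ := h
        by_cases q1 : z ∈ T.A u
        · exact X.em_mem aP nA z1 (X.anc u hu z q1).1
            (Or.inr (X.inner_of hu q1 (fun e => nu (e ▸ z1))))
        by_cases q2 : y ∈ T.A u
        · exact X.em_mem aP nA y1 (X.anc u hu y q2).1
            (Or.inr (X.inner_of hu q2 (fun e => nu (e ▸ y1))))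
        have cz : T.col u z = γ := by rw [(X.st u hu).out z q1, z2]
        have := X.head_node hκ hu hwP uq gne cz ⟨a, hg ▸ ha, aw, z1, cz, fun x' a1 a2 _ _ =>
          ⟨y, y1, zy.symm, by
            rw [(two_ends (ok.Ecard w hwP) huw x1 x2.symm a1).resolve_left a2, x3,
              (X.st u hu).out y q2, y2]⟩, fun q => absurd x5 q⟩
        exact X.em_mem aP nA z1 this.1 this.2)
    have k3 : ((S.gr w0).filter (fun w => w ∈ S.AbM c0 T)).card ≤ S.p - S.L := by
      unfold cC at x6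
      omega
    have k4 := Nat.mul_le_mul_left μ k3
    unfold cC at x6
    omega
  · by_cases hne : ((S.gr w0).filter (fun w => w ∈ S.AbM c0 T)).Nonempty
    swap
    · rw [not_nonempty_iff_eq_empty.mp hne]; simp
    have star : ∀ a ∈ S.gr w0, a ∈ S.AbM c0 T → ∃ u ∈ T.R, ∃ γ, S.Uq (T.col u) u a γ ∧ γ ≠ c0 u ∧
        S.BlkS (S.p - 1) (T.col u) u a γ ∧ S.p - 1 ≤ S.sC c0 (S.gr w0) γ ∧ ¬ S.sees c0 a γ := by
      intro a ha h1
      obtain ⟨_, v, hv, h3⟩ := mem_filter.mp h1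
      obtain ⟨γ', a1, a2, a3, q⟩ := X.ab_facts hv h3
      rcases q with q | q
      · exact ⟨v, hv, γ', a1, a2, q.1, ok.eqv w0 hw0 a ha ▸ q.2.1, q.2.2⟩
      · exact absurd ⟨a, ha, v, hv, γ', a1, a2, a3, q⟩ hC
    obtain ⟨w, hw⟩ := hne
    obtain ⟨hw, hwA⟩ := mem_filter.mp hw
    obtain ⟨u, hu, γ, uq, gne, b1, b2, b3⟩ := star w hw hwA
    have hg := ok.eqv w0 hw0 w hw
    have hwP := ok.sub w0 hw0 hw
    have only : ∀ a ∈ S.gr w0, a ∈ S.AbM c0 T → a = w := by
      intro a ha h1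
      by_contra hne
      obtain ⟨_, _, γ', uq', _, _, c2, c3⟩ := star a ha h1
      by_cases e : γ' = γ
      · subst e
        have k1 := filt_erase_eq (g := S.gr w0) (p := fun t => S.sees c0 t γ') b3
        have k2 := filt_erase_eq (g := (S.gr w0).erase w) (p := fun t => S.sees c0 t γ') c3
        have k3 := card_filter_le (((S.gr w0).erase w).erase a) (fun t => S.sees c0 t γ')
        have k4 := card_erase_of_mem hw
        have k5 := card_erase_of_mem (mem_erase.mpr ⟨hne, ha⟩)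
        unfold sC at b2
        omega
      · have := filt_add (g := S.gr w0) (p := fun a => S.sees c0 a γ')
          (q := fun a => S.sees c0 a γ) (r := fun a => S.cls c0 a γ' γ)
          (fun t _ p q => sees_two p q e)
        have k := X.hm.val.cl w0 hw0 γ' uq'.1.2.1 γ uq.1.2.1
        unfold sC at b2 c2
        unfold cC at k
        omega
    have k1 : ((S.gr w0).filter (fun w => w ∈ S.AbM c0 T)).card ≤ 1 :=
      card_le_one.mpr (fun a ha b hb => by
        rw [only a (mem_filter.mp ha).1 (mem_filter.mp ha).2,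
          only b (mem_filter.mp hb).1 (mem_filter.mp hb).2])
    have k4 := Nat.mul_le_mul_left μ k1
    have k5 := filt_erase_le (S.gr w0) w (fun a => a ∈ S.Em c0 T)
    have fin : ∀ a ∈ (S.gr w0).erase w, ∀ z ∈ S.E a, T.col u z = γ → S.Head (T.col u) u w γ z →
        a ∈ S.Em c0 T := by
      intro a ha z z1 z2 hd
      obtain ⟨a1, a2⟩ := mem_erase.mp ha
      have := X.head_node hκ hu hwP uq gne z2 hd
      exact X.em_mem (ok.sub w0 hw0 a2) (fun q => a1 (only a a2 q)) z1 this.1 this.2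
    by_cases q : S.BlkC (S.L - 2) (T.col u) u w γ
    · have q' := q
      obtain ⟨x, x1, x2, x3, x4⟩ := q'
      rw [hg] at x4
      have huw : u ∈ S.E w := (uq.1.2.2.resolve_left
        (fun k => (X.st u hu).min.val.unc w hwP (k ▸ uq.1.2.1))).2.1
      have k2 := filt_mono (g := (S.gr w0).erase w) (p := fun a => S.cls (T.col u) a γ (T.col u x))
        (q := fun a => a ∈ S.Em c0 T) (fun a ha h => by
          obtain ⟨z, z1, y, y1, zy, z2, y2⟩ := h
          exact fin a ha z z1 z2 ⟨a, hg ▸ (mem_erase.mp ha).2, (mem_erase.mp ha).1, z1, z2,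
            fun x' a1 a2 _ _ => ⟨y, y1, zy.symm, by
              rw [(two_ends (ok.Ecard w hwP) huw x1 x2.symm a1).resolve_left a2, y2]⟩,
            fun k => absurd q k⟩)
      unfold cC at x4
      omega
    · have k2 : (S.gr w0).erase w ⊆ ((S.gr w0).erase w).filter (fun a => a ∈ S.Em c0 T) ∪
          ((S.gr w0).filter (fun a => S.cls (T.col u) a γ γ) ∪
            ((S.gr w0).erase w).filter (fun a => ¬ S.sees (T.col u) a γ)) := by
        intro a ha
        by_contra hn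
        simp only [mem_union, mem_filter, not_or, ha, true_and, (mem_erase.mp ha).2, not_not] at hn
        obtain ⟨z, z1, z2⟩ := hn.2.2
        exact hn.1 (fin a ha z z1 z2 ⟨a, hg ▸ (mem_erase.mp ha).2, (mem_erase.mp ha).1, z1, z2,
          fun x' a1 a2 a3 a4 => absurd ⟨x', a1, a2, a3, a4⟩ q,
          fun _ y y1 y2 y3 => hn.2.1 ⟨z, z1, y, y1, y2.symm, z2, y3⟩⟩)
      have k3 := card_le_card k2
      have k6 := card_union_le (((S.gr w0).erase w).filter (fun a => a ∈ S.Em c0 T))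
        ((S.gr w0).filter (fun a => S.cls (T.col u) a γ γ) ∪
            ((S.gr w0).erase w).filter (fun a => ¬ S.sees (T.col u) a γ))
      have k7 := card_union_le ((S.gr w0).filter (fun a => S.cls (T.col u) a γ γ))
            (((S.gr w0).erase w).filter (fun a => ¬ S.sees (T.col u) a γ))
      have k8 := card_filter_add_card_filter_not (s := (S.gr w0).erase w)
        (fun a => S.sees (T.col u) a γ)
      have k9 := (X.st u hu).min.val.cl w0 hw0 γ uq.1.2.1 γ uq.1.2.1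
      have k10 := b1.2
      have k11 := card_erase_of_mem hw
      rw [hg] at k10
      unfold sC at k10
      unfold cC at k9
      omega

end Sys

end Pool.Agent.Lib.MP_12eaff_co.BK
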