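import Mathlib
import Pool.Agent.Lib.MP_12eaff_co.BK.Loc

set_option autoImplicit false
set_option linter.unusedSectionVars false
set_option linter.unusedVariables false

namespace Pool.Agent.Lib.MP_12eaff_co.BK

open Finset
open scoped Classical

variable {V : Type} [Fintype V]

theorem sum_le_sum_rel {s t : Finset V} {F G : V → Finset V} (r : V → V → V → V → Prop)
    (h1 : ∀ a ∈ s, ∀ b ∈ F a, ∃ c ∈ t, ∃ d ∈ G c, r a b c d)
    (h2 : ∀ a ∈ s, ∀ b ∈ F a, ∀ a' ∈ s, ∀ b' ∈ F a', ∀ c d, r a b c d → r a' b' c d →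
      a = a' ∧ b = b') :
    ∑ a ∈ s, (F a).card ≤ ∑ c ∈ t, (G c).card := by
  rw [← card_sigma, ← card_sigma]
  refine card_le_card_of_forall_subsingleton (fun x y => r x.1 x.2 y.1 y.2) ?_ ?_
  · rintro ⟨a, b⟩ hx
    rw [mem_sigma] at hx
    obtain ⟨c, hc, d, hd, h⟩ := h1 a hx.1 b hx.2
    exact ⟨⟨c, d⟩, mem_sigma.mpr ⟨hc, hd⟩, h⟩
  · rintro ⟨c, d⟩ _ ⟨a, b⟩ hx ⟨a', b'⟩ hy
    have hx1 := mem_sigma.mp (mem_coe.mp hx.1)
    have hy1 := mem_sigma.mp (mem_coe.mp hy.1)
    obtain ⟨e1, e2⟩ := h2 a hx1.1 b hx1.2 a' hy1.1 b' hy1.2 c d hx.2 hy.2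
    subst e1 e2
    rfl

theorem card_le_sum_rel {s t : Finset V} {G : V → Finset V}
    (h1 : ∀ a ∈ s, ∃ c ∈ t, a ∈ G c) : s.card ≤ ∑ c ∈ t, (G c).card :=
  le_trans (card_le_card (fun a ha => mem_biUnion.mpr (h1 a ha))) card_biUnion_le

namespace Sys

variable {S : Sys V} {c0 : V → ℕ} {T : Tr V}

theorem by_groups (ok : S.OK) {A B : Finset V} (hA : A ⊆ S.P) (hB : B ⊆ S.P) {μ : ℕ}
    (h : ∀ w ∈ S.P, μ * ((S.gr w).filter (fun a => a ∈ A)).card ≤
      ((S.gr w).filter (fun a => a ∈ B)).card) : μ * A.card ≤ B.card := by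
  have key : ∀ {C : Finset V}, C ⊆ S.P → C.card =
      ∑ g ∈ S.P.image S.gr, (g.filter (fun a => a ∈ C)).card := by
    intro C hC
    rw [card_eq_sum_card_fiberwise (f := S.gr) (t := S.P.image S.gr)
      (fun a ha => mem_coe.mpr (mem_image_of_mem _ (hC ha)))]
    refine sum_congr rfl (fun g hg => ?_)
    obtain ⟨w, hw, rfl⟩ := mem_image.mp hg
    congr 1
    ext a
    simp only [mem_filter]
    exact ⟨fun q => ⟨q.2 ▸ ok.mem a (hC q.1), q.1⟩, fun q => ⟨q.2, ok.eqv w hw a q.1⟩⟩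
  rw [key hA, key hB, mul_sum]
  refine sum_le_sum (fun g hg => ?_)
  obtain ⟨w, hw, rfl⟩ := mem_image.mp hg
  exact h w hw

theorem Ctx.sum_tch (X : Ctx S c0 T) :
    ∑ u ∈ T.R, (S.Tch c0 T u).card ≤
      3 * (T.R.filter T.Inner).card + ∑ x ∈ T.R.filter T.Inner, (S.Ab c0 T x).card := by
  have h := sum_le_sum_rel (s := T.R) (t := T.R.filter T.Inner) (F := S.Tch c0 T)
    (G := fun x => S.Bad c0 T x ∪ S.Ab c0 T x)
    (fun u e x d => (e ∉ S.P ∧ x = e ∧ d = u) ∨ (e ∈ S.P ∧ d = e ∧ x ∈ S.E e ∧ u ∈ S.E e ∧ x ≠ u))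
    (by
      intro u hu e he
      obtain ⟨a, b, c⟩ := mem_filter.mp he
      have a' := mem_nb.mp a
      rcases c with c | ⟨c, x, x1, x2, x3⟩
      · have eR := (X.anc u hu e c).1
        have hp : T.par u ≠ e := fun q => b (by
          have := X.par_Bad hu (X.inA_par hu c a'.ne').1 (q ▸ a')
          exact q ▸ this)
        exact ⟨e, mem_filter.mpr ⟨eR, X.inner_of hu c a'.ne'⟩, u,
          mem_union_left _ (mem_union_left _ (X.desc_NU hu c a'.symm hp)),
          Or.inl ⟨(X.st e eR).nP, rfl, rfl⟩⟩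
      · obtain ⟨γ, _, _, g⟩ := X.inv_uq hu a' c b
        exact ⟨x, mem_filter.mpr ⟨(X.anc u hu x x3).1, X.inner_of hu x3 x2⟩, e,
          mem_union.mpr (X.tch_inv hu c g.2.1 x1 x2 x3), Or.inr ⟨c, rfl, x1, g.2.1, x2⟩⟩)
    (by
      intro u hu e _ u' hu' e' _ x d h h'
      rcases h with h | h <;> rcases h' with h' | h'
      · exact ⟨h.2.2.symm.trans h'.2.2, h.2.1.symm.trans h'.2.1⟩
      · exact absurd (by rw [← h.2.2, h'.2.1]; exact h'.1) (X.st u hu).nP
      · exact absurd (by rw [← h'.2.2, h.2.1]; exact h.1) (X.st u' hu').nP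
      · have e1 : e = e' := h.2.1.symm.trans h'.2.1
        subst e1
        exact ⟨((two_ends (X.ok.Ecard e h.1) h.2.2.1 h.2.2.2.1 h.2.2.2.2 h'.2.2.2.1).resolve_left
          h'.2.2.2.2.symm).symm, rfl⟩)
  refine le_trans h ?_
  rw [mul_comm, card_eq_sum_ones, sum_mul, ← sum_add_distrib]
  refine sum_le_sum (fun x hx => ?_)
  have := card_union_le (S.Bad c0 T x) (S.Ab c0 T x)
  have := X.Bad_card (mem_filter.mp hx).1
  omega

theorem Ctx.sum_tr (X : Ctx S c0 T) :
    ∑ u ∈ T.R, (S.TrS c0 T u).card ≤ 2 * (T.R.filter T.Inner).card := by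
  have h := sum_le_sum_rel (s := T.R) (t := (T.R.filter T.Inner).erase T.r) (F := S.TrS c0 T)
    (G := fun x => S.NU (T.col (T.par x)) (T.par x)) (fun y z x d => d = y ∧ c0 z = c0 x)
    (by
      intro y _ z hz
      obtain ⟨_, _, x, x1, x2, x3, x4, x5⟩ := mem_filter.mp hz
      exact ⟨x, mem_erase.mpr ⟨x2, mem_filter.mpr ⟨x1, x3⟩⟩, y, x4, rfl, x5⟩)
    (by
      intro y _ z hz y' _ z' hz' x d h h'
      have e : y = y' := h.1.symm.trans h'.1
      subst e
      refine ⟨rfl, ?_⟩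
      by_contra q
      exact (mem_filter.mp hz').2.1.2.2.1 z (mem_filter.mp hz).2.1.1 q (h.2.trans h'.2.symm))
  refine le_trans h ?_
  have := sum_le_card_nsmul ((T.R.filter T.Inner).erase T.r)
    (fun x => (S.NU (T.col (T.par x)) (T.par x)).card) 2 (fun x hx =>
      X.NU_two (X.pt.parD x (mem_filter.mp (mem_erase.mp hx).2).1 (mem_erase.mp hx).1))
  have k := card_erase_le (s := T.R.filter T.Inner) (a := T.r)
  simp only [smul_eq_mul] at this
  omega

theorem Ctx.sum_ab (X : Ctx S c0 T) : ∑ u ∈ T.R, (S.Ab c0 T u).card ≤ 2 * (S.AbM c0 T).card := by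
  have h := sum_le_sum_rel (s := T.R) (t := S.AbM c0 T) (F := S.Ab c0 T) (G := S.E)
    (fun u w w' u' => w' = w ∧ u' = u)
    (by
      intro u hu w hw
      obtain ⟨_, _, _, h, _⟩ := X.ab_facts hu hw
      exact ⟨w, mem_filter.mpr ⟨(mem_filter.mp hw).2.1, u, hu, hw⟩, u, h, rfl, rfl⟩)
    (fun u _ w _ u' _ w' _ c d h h' => ⟨h.2.symm.trans h'.2, h.1.symm.trans h'.1⟩)
  refine le_trans h ?_
  have := sum_le_card_nsmul (S.AbM c0 T) (fun w => (S.E w).card) 2
    (fun w hw => X.ok.Ecard w (mem_filter.mp hw).1)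
  simp only [smul_eq_mul] at this
  omega

theorem swap_sum (s t : Finset V) (F : V → Finset V) :
    ∑ a ∈ s, (t.filter (fun e => a ∈ F e)).card ≤ ∑ e ∈ t, (F e).card :=
  sum_le_sum_rel (fun a e e' a' => e' = e ∧ a' = a)
    (fun a _ e he => ⟨e, (mem_filter.mp he).1, a, (mem_filter.mp he).2, rfl, rfl⟩)
    (fun _ _ _ _ _ _ _ _ _ _ h h' => ⟨h.2.symm.trans h'.2, h.1.symm.trans h'.1⟩)

theorem Ctx.inner_card (X : Ctx S c0 T) (hκ : 8 ≤ S.κ) :
    ∃ J : ℕ, (T.R.filter T.Inner).card ≤ (T.R.filter (S.Small c0 T)).card + J ∧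
      J * (S.κ - 3) ≤ T.R.card * 3 := by
  let BI := T.R.filter (fun u => ∃ x ∈ T.R, x ≠ T.r ∧ T.par x = u ∧ ¬ S.Small c0 T x)
  refine ⟨BI.card, ?_, ?_⟩
  · have : T.R.filter T.Inner ⊆ (T.R.filter (S.Small c0 T)).image T.par ∪ BI := by
      intro u hu
      obtain ⟨uR, x, x1, x2, x3⟩ := mem_filter.mp hu
      by_cases q : S.Small c0 T x
      · exact mem_union_left _ (mem_image.mpr ⟨x, mem_filter.mpr ⟨x1, q⟩, x3⟩)
      · exact mem_union_right _ (mem_filter.mpr ⟨uR, x, x1, x2, x3, q⟩)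
    exact le_trans (card_le_card this)
      (le_trans (card_union_le _ _) (Nat.add_le_add_right card_image_le _))
  · refine card_mul_le_card_mul (fun u y => ∃ x ∈ T.R, x ≠ T.r ∧ T.par x = u ∧
      S.Mv (T.col u) u x ∧ S.Clean c0 T y x ∧ y ∉ S.NU (T.col u) u ∧ y ≠ u) ?_ ?_
    · intro u hu
      obtain ⟨uR, x, x1, x2, x3, x4⟩ := mem_filter.mp hu
      have mv := (X.big_mv hκ x1 x4).2
      rw [x3] at mv
      have : S.Cl c0 T x ⊆ T.R.bipartiteAbove (fun u y => ∃ x ∈ T.R, x ≠ T.r ∧ T.par x = u ∧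
          S.Mv (T.col u) u x ∧ S.Clean c0 T y x ∧ y ∉ S.NU (T.col u) u ∧ y ≠ u) u ∪
          insert u (S.NU (T.col u) u) := by
        intro y hy
        by_cases q : y ∈ insert u (S.NU (T.col u) u)
        · exact mem_union_right _ q
        · rw [mem_insert, not_or] at q
          rw [mem_Cl] at hy
          exact mem_union_left _ (mem_bipartiteAbove _ |>.mpr
            ⟨hy.1, x, x1, x2, x3, mv, hy, q.2, q.1⟩)
      have k := le_trans (card_le_card this) (card_union_le _ _)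
      have := card_insert_le u (S.NU (T.col u) u)
      have := X.NU_two uR
      have : S.κ ≤ (S.Cl c0 T x).card := not_lt.mp x4
      omega
    · intro y hy
      set C := BI.bipartiteBelow (fun u y => ∃ x ∈ T.R, x ≠ T.r ∧ T.par x = u ∧
        S.Mv (T.col u) u x ∧ S.Clean c0 T y x ∧ y ∉ S.NU (T.col u) u ∧ y ≠ u) y with hC
      by_cases hne : C.Nonempty
      swap
      · rw [not_nonempty_iff_eq_empty.mp hne]; simp
      obtain ⟨u1, h1, h2⟩ := exists_min_image _ T.t hne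
      obtain ⟨u1B, x, x1, x2, x3, x4, x5, x6, x7⟩ := (mem_bipartiteBelow _).mp h1
      have u1R := (mem_filter.mp u1B).1
      have yA : y ∉ T.A u1 := by
        intro q
        have a := (X.good_R hy x5.2.2.2.2.1).2
        rw [x3] at a
        have := (X.anc u1 u1R y q).2.2.resolve_left x7
        omega
      have adj := X.lem1_mv u1R (x3 ▸ X.pt.notA x x1 x2) x4 x5 yA
      have mv := X.mv_of u1R adj (X.st y hy).nP x6
      have : C ⊆ insert u1 ((S.NU (T.col u1) u1).image T.par) := by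
        intro u hu
        by_cases e : u = u1
        · rw [e]; exact mem_insert_self _ _
        · obtain ⟨uB, z, z1, z2, z3, z4, z5, z6, z7⟩ := (mem_bipartiteBelow _).mp hu
          have uR := (mem_filter.mp uB).1
          have lt : T.t u1 < T.t u :=
            lt_of_le_of_ne (h2 u hu) (fun q => e (X.pt.tinj u1 u1R u uR q).symm)
          have lt2 := X.pt.tlt z z1 z2
          rw [z3] at lt2
          have zA : z ∉ T.A u1 := X.notA_of_lt u1R (by omega)
          have adj2 := X.lem1_mv u1R yA mv z5.symm zA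
          refine mem_insert_of_mem (mem_image.mpr ⟨z, ?_, z3⟩)
          by_contra q
          have := (X.pt.clos u1 u1R z zA (Or.inl (X.mv_of u1R adj2 (X.st z z1).nP q))).2
          rw [z3] at this
          omega
      have k := le_trans (card_le_card this) (card_insert_le _ _)
      have k2 : ((S.NU (T.col u1) u1).image T.par).card ≤ _ := card_image_le
      have := X.NU_two u1R
      omega

theorem Ctx.false (X : Ctx S c0 T) (hp : S.p = 16) (hL : S.L = 12) (hκ : 221 ≤ S.κ)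
    (hD : S.κ + 101 ≤ S.D) : False := by
  have κ8 : 8 ≤ S.κ := by omega
  set Sm := T.R.filter (S.Small c0 T) with hSm
  set Bg := T.R.filter (fun v => ¬ S.Small c0 T v) with hBg
  set In := T.R.filter T.Inner with hIn
  set Lf := Bg.filter (fun v => ¬ T.Inner v) with hLf
  have s0 : 0 < Sm.card := card_pos.mpr ⟨T.r, mem_filter.mpr ⟨X.pt.rR, by
    unfold Small; rw [X.root_small]; simp; omega⟩⟩
  have hN : Sm.card + Bg.card = T.R.card := card_filter_add_card_filter_not _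
  have hb : Bg.card ≤ In.card + Lf.card := by
    have : (Bg.filter T.Inner).card + Lf.card = Bg.card := card_filter_add_card_filter_not _
    have : (Bg.filter T.Inner).card ≤ In.card :=
      card_le_card (filter_subset_filter _ (filter_subset _ _))
    omega
  have split : ∀ f : V → ℕ, ∑ u ∈ Sm, f u + ∑ u ∈ Bg, f u = ∑ u ∈ T.R, f u :=
    fun f => sum_filter_add_sum_filter_not _ _ _
  have tA := split (fun u => (S.Tch c0 T u).card)
  have tA2 : ∑ u ∈ Lf, (S.Tch c0 T u).card ≤ ∑ u ∈ Bg, (S.Tch c0 T u).card :=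
    sum_le_sum_of_subset (filter_subset _ _)
  have ta := split (fun u => (S.Ab c0 T u).card)
  have ta2 : ∑ u ∈ In, (S.Ab c0 T u).card + ∑ u ∈ Lf, (S.Ab c0 T u).card ≤
      ∑ u ∈ T.R, (S.Ab c0 T u).card := by
    rw [← sum_filter_add_sum_filter_not T.R T.Inner]
    exact Nat.add_le_add_left (sum_le_sum_of_subset
      (filter_subset_filter _ (filter_subset _ _))) _
  have h1 := X.sum_tch
  have h2 := X.sum_tr
  have h3 := X.sum_ab
  obtain ⟨J, h4, h5⟩ := X.inner_card κ8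
  have h5' : J * 218 ≤ J * (S.κ - 3) := Nat.mul_le_mul_left _ (by omega)
  have h6 : 3 * (S.AbM c0 T).card ≤ (S.Em c0 T).card :=
    by_groups X.ok (filter_subset _ _) (filter_subset _ _)
      (fun w hw => X.group_emit κ8 (by rw [hp, hL]) (by omega) (by omega) hw)
  have h7 : (S.Em c0 T).card ≤
      ∑ v ∈ Sm, ((S.Bad c0 T v).filter (fun e => e ∈ S.P)).card + 3 * In.card := by
    have a : S.Em c0 T ⊆ Sm.biUnion (fun v => (S.Bad c0 T v).filter (fun e => e ∈ S.P)) ∪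
        In.biUnion (S.Bad c0 T) := by
      intro w hw
      obtain ⟨wP, v, v1, v2, v3⟩ := mem_filter.mp hw
      rcases v2 with v2 | v2
      · exact mem_union_left _ (mem_biUnion.mpr ⟨v, mem_filter.mpr ⟨v1, v2⟩, mem_filter.mpr ⟨v3, wP⟩⟩)
      · exact mem_union_right _ (mem_biUnion.mpr ⟨v, mem_filter.mpr ⟨v1, v2⟩, v3⟩)
    have b := le_trans (card_le_card a) (card_union_le _ _)
    have c := card_biUnion_le (s := Sm) (t := fun v => (S.Bad c0 T v).filter (fun e => e ∈ S.P))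
    have d := card_biUnion_le_card_mul In (S.Bad c0 T) 3
      (fun v hv => X.Bad_card (mem_filter.mp hv).1)
    omega
  have h8 : Lf.card ≤ ∑ v ∈ Sm, ((S.Bad c0 T v).filter (fun e => ¬ e ∈ S.P)).card +
      ∑ u ∈ Lf, (S.Tch c0 T u).card + ∑ u ∈ Lf, (S.Ab c0 T u).card := by
    have a := card_filter_add_card_filter_not (s := Lf)
      (fun z => S.Tch c0 T z = ∅ ∧ S.Ab c0 T z = ∅)
    have b : (Lf.filter (fun z => S.Tch c0 T z = ∅ ∧ S.Ab c0 T z = ∅)).card ≤
        ∑ v ∈ Sm, ((S.Bad c0 T v).filter (fun e => ¬ e ∈ S.P)).card := by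
      refine card_le_sum_rel (fun z hz => ?_)
      obtain ⟨z1, z2, z3⟩ := mem_filter.mp hz
      obtain ⟨z4, z5⟩ := mem_filter.mp z1
      obtain ⟨z6, z7⟩ := mem_filter.mp z4
      obtain ⟨e, e1, e2, e3⟩ := X.leaf_emit κ8 z6 z7 z5 z2 z3
      exact ⟨e, mem_filter.mpr ⟨e1, e2⟩, mem_filter.mpr ⟨mem_union_left _ e3, (X.st z z6).nP⟩⟩
    have c : (Lf.filter (fun z => ¬ (S.Tch c0 T z = ∅ ∧ S.Ab c0 T z = ∅))).card ≤
        ∑ u ∈ Lf, ((S.Tch c0 T u).card + (S.Ab c0 T u).card) := by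
      rw [card_filter]
      refine sum_le_sum (fun z _ => ?_)
      split_ifs with q
      · omega
      · rw [← card_eq_zero, ← card_eq_zero] at q
        omega
    rw [sum_add_distrib] at c
    omega
  have h9 : ∑ v ∈ Sm, ((S.Bad c0 T v).filter (fun e => e ∈ S.P)).card +
      ∑ v ∈ Sm, ((S.Bad c0 T v).filter (fun e => ¬ e ∈ S.P)).card ≤ 3 * Sm.card := by
    rw [← sum_add_distrib, mul_comm, card_eq_sum_ones, sum_mul]
    refine sum_le_sum (fun v hv => ?_)
    have := card_filter_add_card_filter_not (s := S.Bad c0 T v) (fun e => e ∈ S.P)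
    have := X.Bad_card (mem_filter.mp hv).1
    omega
  have h10 : ∑ u ∈ T.R, (S.Z c0 T u).card ≤
      6 * T.R.card + 2 * ∑ u ∈ T.R, (S.Tch c0 T u).card + ∑ u ∈ T.R, (S.Ab c0 T u).card := by
    rw [mul_comm 6, card_eq_sum_ones, sum_mul, mul_sum, ← sum_add_distrib, ← sum_add_distrib]
    refine sum_le_sum (fun v hv => ?_)
    have := (X.Z_card hv).1
    omega
  have h11 : 93 * Sm.card ≤ 3 * ∑ u ∈ Sm, (S.Tch c0 T u).card + 2 * ∑ u ∈ Sm, (S.Ab c0 T u).card +
      ∑ s ∈ Sm, (T.R.filter (fun e => s ∈ S.Z c0 T e)).card + ∑ s ∈ Sm, (S.TrS c0 T s).card +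
      ∑ s ∈ Sm, (T.R.filter (fun e => s ∈ S.TrS c0 T e)).card := by
    rw [mul_comm 93, card_eq_sum_ones, sum_mul, mul_sum, mul_sum, ← sum_add_distrib,
      ← sum_add_distrib, ← sum_add_distrib, ← sum_add_distrib]
    refine sum_le_sum (fun v hv => ?_)
    obtain ⟨v1, v2⟩ := mem_filter.mp hv
    have := (X.Z_card v1).2
    have := X.nb_split v1
    have := (X.NU_le v1).2
    unfold Small at v2
    omega
  have h12 := swap_sum Sm T.R (S.Z c0 T)
  have h13 := swap_sum Sm T.R (S.TrS c0 T)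
  have h14 : ∑ s ∈ Sm, (S.TrS c0 T s).card ≤ ∑ s ∈ T.R, (S.TrS c0 T s).card :=
    sum_le_sum_of_subset (filter_subset _ _)
  rw [← hIn] at h1 h2 h4
  rw [← hSm] at h4
  omega

theorem not_ok (ok : S.OK) (hp : S.p = 16) (hL : S.L = 12) (hκ : 221 ≤ S.κ)
    (hD : S.κ + 101 ≤ S.D) : False := by
  have v0 : S.Valid (fun _ => S.D) := by
    refine ⟨fun _ _ => lt_irrefl _, fun _ _ _ h => absurd h (lt_irrefl _), fun w hw γ hγ => ?_,
      fun w hw γ hγ ζ hζ => ?_⟩
    · have : S.sC (fun _ => S.D) (S.gr w) γ = 0 := by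
        unfold sC
        rw [card_eq_zero, filter_eq_empty_iff]
        rintro a _ ⟨x, _, h⟩
        exact absurd h hγ.ne'
      omega
    · have : S.cC (fun _ => S.D) (S.gr w) γ ζ = 0 := by
        unfold cC
        rw [card_eq_zero, filter_eq_empty_iff]
        rintro a _ ⟨x, _, y, _, _, h, _⟩
        exact absurd h hγ.ne'
      omega
  have ex : ∃ n, ∃ c, S.Valid c ∧ S.holes c = n := ⟨_, _, v0, rfl⟩
  obtain ⟨c, hc, hn⟩ := Nat.find_spec ex
  have hm : S.Min c := ⟨hc, fun c' hc' => hn ▸ Nat.find_min' ex ⟨c', hc', rfl⟩⟩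
  obtain ⟨r, r1, r2⟩ := ok.hole c hc
  obtain ⟨T, pt⟩ := exists_tree r2 r1
  exact Ctx.false ⟨ok, ⟨by omega, by omega⟩, hm, pt⟩ hp hL hκ hD

end Sys

end Pool.Agent.Lib.MP_12eaff_co.BK
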