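import Mathlib
import Pool.Agent.Lib.MP_12eaff_co.BK.Lem1
import Pool.Agent.Lib.MP_12eaff_co.BK.Defs2

set_option autoImplicit false
set_option linter.unusedSectionVars false
set_option linter.unusedVariables false

namespace Pool.Agent.Lib.MP_12eaff_co.BK

open Finset
open scoped Classical

variable {V : Type} [Fintype V]

namespace Sys

variable (S : Sys V)

def HS (c0 : V → ℕ) (w : V) (γ : ℕ) : Prop := γ < S.D ∧ S.p - 1 ≤ S.sC c0 (S.gr w) γ

def HC (c0 : V → ℕ) (w : V) (γ ζ : ℕ) : Prop :=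
  γ < S.D ∧ ζ < S.D ∧ S.L - 1 ≤ S.cC c0 (S.gr w) γ ζ

structure Keep (c0 c : V → ℕ) : Prop where
  star : ∀ w ∈ S.P, ∀ γ, S.HS c0 w γ → S.sC c0 (S.gr w) γ ≤ S.sC c (S.gr w) γ
  cl : ∀ w ∈ S.P, ∀ γ ζ, S.HC c0 w γ ζ → S.cC c0 (S.gr w) γ ζ ≤ S.cC c (S.gr w) γ ζ

noncomputable def Phi (c : V → ℕ) : ℕ :=
  ∑ w ∈ S.P, ∑ γ ∈ range S.D, ((S.sC c (S.gr w) γ - (S.p - 2)) +
    ∑ ζ ∈ range S.D, (S.cC c (S.gr w) γ ζ - (S.L - 2)))

/-- The setting with a base colouring of least potential. -/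
structure Ctx2 (S : Sys V) (c0 : V → ℕ) (T : Tr V) : Prop extends Ctx S c0 T where
  keep : ∀ c, S.Min c → S.Mono c0 c → S.Keep c0 c

variable {S} {c0 : V → ℕ} {T : Tr V}

omit [Fintype V] in
theorem keep_of (num : S.Num) {c : V → ℕ} (hφ : S.Phi c0 ≤ S.Phi c) (mono : S.Mono c0 c) :
    S.Keep c0 c := by
  have n1 := num.h1
  have n2 := num.h2
  have l2 : ∀ w ∈ S.P, ∀ γ ∈ range S.D, ∀ ζ ∈ range S.D,
      S.cC c (S.gr w) γ ζ - (S.L - 2) ≤ S.cC c0 (S.gr w) γ ζ - (S.L - 2) := by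
    intro w hw γ hγ ζ hζ
    have := mono.cl w hw γ (mem_range.mp hγ) ζ (mem_range.mp hζ)
    omega
  have l1 : ∀ w ∈ S.P, ∀ γ ∈ range S.D,
      S.sC c (S.gr w) γ - (S.p - 2) ≤ S.sC c0 (S.gr w) γ - (S.p - 2) := by
    intro w hw γ hγ
    have := mono.star w hw γ (mem_range.mp hγ)
    omega
  have l3 := fun w hw γ hγ => add_le_add (l1 w hw γ hγ) (sum_le_sum (l2 w hw γ hγ))
  refine ⟨fun w hw γ h => ?_, fun w hw γ ζ h => ?_⟩
  · by_contra q
    have g := mem_range.mpr h.1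
    refine absurd hφ (not_le.mpr (sum_lt_sum (fun w hw => sum_le_sum (l3 w hw))
      ⟨w, hw, sum_lt_sum (l3 w hw) ⟨γ, g, add_lt_add_of_lt_of_le ?_ (sum_le_sum (l2 w hw γ g))⟩⟩))
    have := h.2
    omega
  · by_contra q
    have g := mem_range.mpr h.1
    refine absurd hφ (not_le.mpr (sum_lt_sum (fun w hw => sum_le_sum (l3 w hw))
      ⟨w, hw, sum_lt_sum (l3 w hw) ⟨γ, g, add_lt_add_of_le_of_lt (l1 w hw γ g)
        (sum_lt_sum (l2 w hw γ g) ⟨ζ, mem_range.mpr h.2.1, ?_⟩)⟩⟩))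
    have := h.2.2
    omega

theorem exists_ctx2 (ok : S.OK) (num : S.Num) : ∃ c T, Ctx2 S c T := by
  have n1 := num.h1
  have v0 : S.Valid (fun _ => S.D) := by
    refine ⟨fun _ _ => lt_irrefl _, fun _ _ _ h => absurd h (lt_irrefl _), fun w hw γ hγ => ?_,
      fun w hw γ hγ ζ hζ => ?_⟩
    · have : S.sC (fun _ => S.D) (S.gr w) γ = 0 := by
        unfold sC
        rw [card_eq_zero, filter_eq_empty_iff]
        rintro a _ ⟨x, _, h⟩
        exact absurd h hγ.ne'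
      omega
    · have : S.cC (fun _ => S.D) (S.gr w) γ ζ = 0 := by
        unfold cC
        rw [card_eq_zero, filter_eq_empty_iff]
        rintro a _ ⟨x, _, y, _, _, h, _⟩
        exact absurd h hγ.ne'
      omega
  have ex : ∃ n, ∃ c, S.Valid c ∧ S.holes c = n := ⟨_, _, v0, rfl⟩
  obtain ⟨c1, hc, hn⟩ := Nat.find_spec ex
  have hm1 : S.Min c1 := ⟨hc, fun c' hc' => hn ▸ Nat.find_min' ex ⟨c', hc', rfl⟩⟩
  have ex2 : ∃ n, ∃ c, S.Min c ∧ S.Phi c = n := ⟨_, _, hm1, rfl⟩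
  obtain ⟨c, hm, hn2⟩ := Nat.find_spec ex2
  obtain ⟨r, r1, r2⟩ := ok.hole c hm.val
  obtain ⟨T, pt⟩ := exists_tree r2 r1
  exact ⟨c, T, ⟨ok, num, hm, pt⟩, fun c' h1 h2 =>
    keep_of num (hn2 ▸ Nat.find_min' ex2 ⟨c', h1, rfl⟩) h2⟩

theorem Ctx2.kp (X : Ctx2 S c0 T) {u : V} (hu : u ∈ T.R) : S.Keep c0 (T.col u) :=
  X.keep _ (X.st u hu).min (X.st u hu).mono

omit [Fintype V] in
theorem HC.symm {w : V} {γ ζ : ℕ} (h : S.HC c0 w γ ζ) : S.HC c0 w ζ γ :=
  ⟨h.2.1, h.1, cC_symm c0 _ γ ζ ▸ h.2.2⟩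

omit [Fintype V] in
theorem HC.pot {w : V} {γ ζ : ℕ} (h : S.HC c0 w γ ζ) : γ ∈ S.Pot c0 w :=
  mem_filter.mpr ⟨mem_range.mpr h.1, Or.inr ⟨ζ, h.2.1, h.2.2⟩⟩

theorem hc_pot (ok : S.OK) (num : S.Num) {w : V} (hw : w ∈ S.P) {γ ζ β : ℕ} (h : S.HC c0 w γ ζ)
    (hβ : β ∈ S.Pot c0 w) : β = γ ∨ β = ζ := by
  have n1 := num.h1
  have n2 := num.h2
  have hc := ok.card w hw
  have hE : ∀ a ∈ S.gr w, (S.E a).card ≤ 2 := fun a ha => ok.Ecard a (ok.sub w hw ha)
  have h2 := h.2.2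
  by_contra hn
  rw [not_or] at hn
  rcases (mem_filter.mp hβ).2 with q | ⟨ζ', _, q⟩
  · have := filt_disj (g := S.gr w) (p := fun a => S.sees c0 a β)
      (q := fun a => S.cls c0 a γ ζ) (fun t ht p q => by
        rcases cls_sees (hE t ht) q p with e | e
        · exact hn.1 e
        · exact hn.2 e)
    unfold sC at q
    unfold cC at h2
    omega
  · have := filt_disj (g := S.gr w) (p := fun a => S.cls c0 a γ ζ)
      (q := fun a => S.cls c0 a β ζ') (fun t ht p q => by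
        rcases cls_eq (hE t ht) p q with e | e
        · exact hn.1 e.1
        · exact hn.2 e.1)
    unfold cC at h2 q
    omega

theorem pot_two (ok : S.OK) (num : S.Num) {w : V} (hw : w ∈ S.P) {γ β : ℕ} (hγ : γ ∈ S.Pot c0 w)
    (hβ : β ∈ S.Pot c0 w) (hne : γ ≠ β) : S.HC c0 w γ β := by
  have n1 := num.h1
  have hc := ok.card w hw
  obtain ⟨a1, a2⟩ := mem_filter.mp hγ
  obtain ⟨b1, b2⟩ := mem_filter.mp hβ
  rw [mem_range] at a1 b1
  rcases a2 with a2 | ⟨ζ, q1, q2⟩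
  · rcases b2 with b2 | ⟨ζ, q1, q2⟩
    · have := filt_add (g := S.gr w) (p := fun a => S.sees c0 a γ)
        (q := fun a => S.sees c0 a β) (r := fun a => S.cls c0 a γ β)
        (fun t _ p q => sees_two p q hne)
      refine ⟨a1, b1, ?_⟩
      unfold sC at a2 b2
      unfold cC
      omega
    · have k : S.HC c0 w β ζ := ⟨b1, q1, q2⟩
      rw [(hc_pot ok num hw k hγ).resolve_left hne]
      exact k.symm
  · have k : S.HC c0 w γ ζ := ⟨a1, q1, q2⟩
    rw [(hc_pot ok num hw k hβ).resolve_left hne.symm]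
    exact k

theorem Ctx2.nb_hot (X : Ctx2 S c0 T) {v w : V} (hv : v ∈ T.R) {γ ζ β : ℕ} (h : S.HC c0 w γ ζ)
    (hb : S.NB (T.col v) v w β) : β = γ ∨ β = ζ := by
  have n1 := X.num.h1
  have n2 := X.num.h2
  have hw := hb.1
  have hc := card_er X.ok hw
  have hE : ∀ a ∈ (S.gr w).erase w, (S.E a).card ≤ 2 :=
    fun a ha => X.ok.Ecard a (X.ok.sub w hw (mem_of_mem_erase ha))
  have k := (X.kp hv).cl w hw γ ζ h
  have k2 := filt_erase_eq (g := S.gr w) (w := w) (p := fun a => S.cls (T.col v) a γ ζ)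
    (fun q => (X.st v hv).hole (by
      rcases cls_sees (X.ok.Ecard w hw) q ⟨v, hb.2.1, rfl⟩ with e | e
      · exact e ▸ h.1
      · exact e ▸ h.2.1))
  have h2 := h.2.2
  by_contra hn
  rw [not_or] at hn
  rcases hb.2.2 with q | ⟨x, _, _, _, q⟩
  · have := filt_disj (g := (S.gr w).erase w) (p := fun a => S.sees (T.col v) a β)
      (q := fun a => S.cls (T.col v) a γ ζ) (fun t ht p q => by
        rcases cls_sees (hE t ht) q p with e | e
        · exact hn.1 e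
        · exact hn.2 e)
    have q2 := q.2
    unfold sC at q2
    unfold cC at h2 k
    omega
  · have := filt_disj (g := (S.gr w).erase w) (p := fun a => S.cls (T.col v) a γ ζ)
      (q := fun a => S.cls (T.col v) a β (T.col v x)) (fun t ht p q => by
        rcases cls_eq (hE t ht) p q with e | e
        · exact hn.1 e.1
        · exact hn.2 e.1)
    unfold cC at h2 q k
    omega

theorem Ctx2.nb_hs (X : Ctx2 S c0 T) {v w : V} (hv : v ∈ T.R) (hw : w ∈ S.P) (hE : v ∈ S.E w)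
    {γ : ℕ} (h : S.HS c0 w γ) (hx : ∀ x ∈ S.E w, x ≠ v → T.col v x ≠ γ) :
    S.NB (T.col v) v w γ := by
  refine ⟨hw, hE, Or.inl ⟨hx, ?_⟩⟩
  have k := (X.kp hv).star w hw γ h
  have k2 := filt_le_erase (g := S.gr w) (w := w) (p := fun a => S.sees (T.col v) a γ)
    (q := fun a => S.sees (T.col v) a γ) (fun _ _ _ h => h)
  have := h.2
  unfold sC at *
  omega

theorem Ctx2.nb_hc (X : Ctx2 S c0 T) {v w x : V} (hv : v ∈ T.R) (hw : w ∈ S.P) (hE : v ∈ S.E w)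
    (hx : x ∈ S.E w) (hne : x ≠ v) {γ : ℕ} (h : S.HC c0 w γ (T.col v x)) :
    S.NB (T.col v) v w γ := by
  refine ⟨hw, hE, Or.inr ⟨x, hx, hne, h.2.1, ?_⟩⟩
  have k := (X.kp hv).cl w hw γ _ h
  have k2 := filt_le_erase (g := S.gr w) (w := w) (p := fun a => S.cls (T.col v) a γ (T.col v x))
    (q := fun a => S.cls (T.col v) a γ (T.col v x)) (fun _ _ _ h => h)
  have := h.2.2
  unfold cC at *
  omega

theorem Ctx2.lock_cls (X : Ctx2 S c0 T) {h z w2 : V} {γ ζ : ℕ} (hh : h ∈ T.R) (hz : z ∉ T.A h)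
    (hs : S.Step c0 (T.col h) h z) (hw : w2 ∈ S.P) (hE : z ∈ S.E w2) (hc : S.HC c0 w2 γ ζ)
    (hcl : S.cls (T.col h) w2 γ ζ) : ∃ w ∈ S.gr w2, w ≠ w2 ∧ S.NB (T.col h) h w (c0 z) := by
  have st := X.st h hh
  have n1 := X.num.h1
  have n2 := X.num.h2
  obtain ⟨m1, m2⟩ := st.step X.ok X.num hz hs
  have k := (X.keep _ m1 m2).cl w2 hw γ ζ hc
  have mo := st.mono.cl w2 hw γ hc.1 ζ hc.2.1
  have h3 := hc.2.2
  have drop := filt_lt (g := S.gr w2)
    (p := fun a => S.cls (Function.update (T.col h) z S.D) a γ ζ)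
    (q := fun a => S.cls (T.col h) a γ ζ) (fun a _ q => by
      obtain ⟨x, hx, y, hy, h0, h1, h2, _⟩ := cls_unc hc.1 hc.2.1 q
      exact ⟨x, hx, y, hy, h0, h1, h2⟩) (X.ok.mem w2 hw) hcl (fun q => by
      obtain ⟨a, ha, b, hb, h0, _, _, h3, h4⟩ := cls_unc hc.1 hc.2.1 q
      rcases two_ends (X.ok.Ecard w2 hw) ha hb h0 hE with e | e
      · exact h3 e.symm
      · exact h4 e.symm)
  rcases put_cls X.ok (Function.update (T.col h) z S.D) h (c0 z) hw (δ := γ) (ε := ζ) with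
    q | ⟨w, hw', a1, x, a2, a3, a4, a5⟩
  · unfold cC at *
    omega
  · have g1 := hc.1
    have g2 := hc.2.1
    have cz := X.step_lt hh hz hs
    have hx : Function.update (T.col h) z S.D x < S.D := by rcases a4 with a | a <;> omega
    have hxz : x ≠ z := fun e => by rw [e] at hx; simp at hx
    rw [Function.update_of_ne hxz] at a5 hx
    have k1 := cC_unc (S := S) (T.col h) z ((S.gr w).erase w) cz hx
    refine ⟨w, hw', fun e => ?_, X.ok.sub w2 hw hw', a1, Or.inr ⟨x, a2, a3, hx, by omega⟩⟩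
    subst e
    rcases two_ends (X.ok.Ecard w hw) a1 hE (fun e => hz (e ▸ st.self)) a2 with e | e
    · exact a3 e
    · exact hxz e

theorem Ctx2.lock_star (X : Ctx2 S c0 T) {h z w2 : V} (hh : h ∈ T.R) (hz : z ∉ T.A h)
    (hs : S.Step c0 (T.col h) h z) (hw : w2 ∈ S.P) (hE : z ∈ S.E w2) (hc : S.HS c0 w2 (c0 z))
    (ho : ∀ y ∈ S.E w2, y ≠ z → T.col h y ≠ c0 z ∧ y ≠ h) :
    ∃ w ∈ S.gr w2, w ≠ w2 ∧ S.NB (T.col h) h w (c0 z) := by
  have st := X.st h hh
  have n1 := X.num.h1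
  obtain ⟨m1, m2⟩ := st.step X.ok X.num hz hs
  have k := (X.keep _ m1 m2).star w2 hw _ hc
  have mo := st.mono.star w2 hw _ hc.1
  have h3 := hc.2
  have hz' : h ≠ z := fun e => hz (e ▸ st.self)
  have drop := filt_lt (g := S.gr w2)
    (p := fun a => S.sees (Function.update (T.col h) z S.D) a (c0 z))
    (q := fun a => S.sees (T.col h) a (c0 z)) (fun a _ q => by
      obtain ⟨x, hx, _, h2⟩ := sees_upd' hc.1.ne' q
      exact ⟨x, hx, h2⟩) (X.ok.mem w2 hw) ⟨z, hE, st.out z hz⟩ (fun q => by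
      obtain ⟨x, hx, h1, h2⟩ := sees_upd' hc.1.ne' q
      exact (ho x hx h1).1 h2)
  rcases put_star X.ok (Function.update (T.col h) z S.D) h (c0 z) hw (δ := c0 z) with
    q | ⟨_, w, hw', a1, a2, a3⟩
  · unfold sC at *
    omega
  · have k1 := sC_unc (S := S) (T.col h) z ((S.gr w).erase w) hc.1
    have ne : w ≠ w2 := fun e => (ho h (e ▸ a1) hz').2 rfl
    refine ⟨w, hw', ne, X.ok.sub w2 hw hw', a1, Or.inl ⟨fun x hx hne => ?_, by omega⟩⟩
    have := a2 x hx hne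
    rwa [Function.update_of_ne (fun (e : x = z) => X.ok.Edisj w2 hw w hw' ne z hE (e ▸ hx))] at this

theorem Ctx.step_nb (X : Ctx S c0 T) {h z w : V} (hh : h ∈ T.R) (hz : z ∉ T.A h)
    (hs : S.Step c0 (T.col h) h z) (hb : S.NB (T.col h) h w (c0 z)) :
    S.Ps c0 (T.col h) h z ∧ S.Uq (T.col h) h w (c0 z) := by
  have st := X.st h hh
  have e := st.out z hz
  have vc : S.VC (T.col h) h w (T.col h z) :=
    ⟨(X.ok.Eadj w hb.1 h hb.2.1).symm, hs.lt, Or.inr (e ▸ hb)⟩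
  rcases hs with q | q
  · have := q.2 w vc
    subst this
    exact absurd q.1.2.1 (st.min.val.unc w hb.1)
  · refine ⟨q, ?_⟩
    obtain ⟨w', _, q2, _⟩ := q
    rw [q2.2 w vc, ← e]
    exact q2

theorem NU_pair (ok : S.OK) (num : S.Num) {c : V → ℕ} (hm : S.Min c) {u : V}
    (hu : ¬ c u < S.D) (huP : u ∉ S.P) {e e' : V} (he : e ∈ S.NU c u) (he' : e' ∈ S.NU c u)
    (hne : e ≠ e') : ∃ γ, S.VC c u e γ ∧ S.VC c u e' γ := by
  by_contra hn
  push Not at hn
  obtain ⟨a1, a2⟩ := mem_filter.mp he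
  obtain ⟨b1, b2⟩ := mem_filter.mp he'
  have key : ∀ γ, γ < S.D → ∃ a, S.VC c u a γ ∧ a ≠ e ∧ a ≠ e' := by
    intro γ hγ
    obtain ⟨a, ha⟩ := seen_VC ok num hm hu huP hγ
    by_contra q
    push Not at q
    by_cases q1 : a = e
    · subst q1
      refine a2 ⟨γ, ha, fun b hb => ?_⟩
      by_contra q2
      exact hn γ ha (q b hb q2 ▸ hb)
    · have := q a ha q1
      subst this
      refine b2 ⟨γ, ha, fun b hb => ?_⟩
      by_contra q2
      by_cases q3 : b = e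
      · exact hn γ (q3 ▸ hb) ha
      · exact q2 (q b hb q3)
  have : Nonempty V := ⟨u⟩
  choose! f hf using key
  have := card_le_card_of_injOn (s := range S.D) (t := ((nb S.G u).erase e).erase e') f
    (fun γ hγ => by
      have := hf γ (mem_range.mp (mem_coe.mp hγ))
      exact mem_coe.mpr (mem_erase.mpr ⟨this.2.2, mem_erase.mpr ⟨this.2.1, mem_nb.mpr this.1.1⟩⟩))
    (fun γ hγ δ hδ e => VC_single ok num hm.val (hf γ (mem_range.mp (mem_coe.mp hγ))).1
      (e ▸ (hf δ (mem_range.mp (mem_coe.mp hδ))).1))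
  have k1 := card_erase_add_one a1
  have k2 := card_erase_add_one (mem_erase.mpr ⟨hne.symm, b1⟩)
  have := ok.deg u
  rw [card_range] at *
  omega

theorem Ctx.NU_vis (X : Ctx S c0 T) {u e e' : V} (hu : u ∈ T.R) (he : e ∈ S.NU (T.col u) u)
    (he' : e' ∈ S.NU (T.col u) u) (hne : e ≠ e') (h1 : e ∉ S.P) (h2 : e' ∉ S.P) :
    T.col u e = T.col u e' ∧ T.col u e < S.D := by
  have st := X.st u hu
  obtain ⟨γ, a, b⟩ := NU_pair X.ok X.num st.min st.hole st.nP he he' hne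
  have a' := a.2.2.resolve_right (fun q => h1 q.1)
  have b' := b.2.2.resolve_right (fun q => h2 q.1)
  exact ⟨a'.trans b'.symm, a' ▸ a.2.1⟩

theorem Ctx.clq_anc3 (X : Ctx S c0 T) {Q : Finset V} (hQ : IsClq S.G Q) {h : V} (hh : h ∈ T.R) :
    (Q.filter (fun y => y ∈ T.A h)).card ≤ 3 := by
  by_cases hne : (Q.filter (fun y => y ∈ T.A h)).Nonempty
  swap
  · rw [not_nonempty_iff_eq_empty.mp hne]; simp
  obtain ⟨y1, h1, h2⟩ := exists_min_image _ T.t hne
  obtain ⟨h1Q, h1A⟩ := mem_filter.mp h1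
  have y1R := (X.anc h hh y1 h1A).1
  let C := (T.A h).filter (fun y => y ≠ T.r ∧ T.par y = y1)
  have hC : C.card ≤ 1 := by
    rw [card_le_one]
    have key : ∀ a ∈ C, ∀ b ∈ C, T.t a ≤ T.t b → a = b := by
      intro a ha b hb hle
      by_contra hab
      obtain ⟨a1, a2, a3⟩ := mem_filter.mp ha
      obtain ⟨b1, b2, b3⟩ := mem_filter.mp hb
      have k := (X.inA_par (X.anc h hh b b1).1 (X.lin h hh a a1 b b1 hle) hab).2
      rw [b3] at k
      have := X.pt.tlt a (X.anc h hh a a1).1 a2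
      rw [a3] at this
      exact X.notA_of_lt y1R this k
    intro a ha b hb
    rcases le_total (T.t a) (T.t b) with q | q
    · exact key a ha b hb q
    · exact (key b hb a ha q).symm
  let N := (S.NU (T.col y1) y1).filter (fun y => y ∈ Q ∧ y ∉ S.P)
  have hN : N.card ≤ 1 := by
    rw [card_le_one]
    intro a ha b hb
    by_contra hab
    obtain ⟨a1, a2, a3⟩ := mem_filter.mp ha
    obtain ⟨b1, b2, b3⟩ := mem_filter.mp hb
    obtain ⟨k1, k2⟩ := X.NU_vis y1R a1 b1 hab a3 b3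
    exact (X.st y1 y1R).min.val.prop a b (hQ a a2 b b2 hab) k2 k1
  have hsub : Q.filter (fun y => y ∈ T.A h) ⊆ insert y1 (C ∪ N) := by
    intro y hy
    by_cases e : y = y1
    · rw [e]; exact mem_insert_self _ _
    · obtain ⟨yQ, yA⟩ := mem_filter.mp hy
      have yR := (X.anc h hh y yA).1
      have k := X.lin h hh y1 h1A y yA (h2 y hy)
      refine mem_insert_of_mem (mem_union.mpr ?_)
      by_cases q : T.par y = y1
      · exact Or.inl (mem_filter.mpr ⟨yA, (X.inA_par yR k (Ne.symm e)).1, q⟩)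
      · exact Or.inr (mem_filter.mpr ⟨X.desc_NU yR k (hQ _ h1Q _ yQ (Ne.symm e)) q, yQ,
          (X.st y yR).nP⟩)
  have := card_le_card hsub
  have := card_insert_le y1 (C ∪ N)
  have := card_union_le C N
  omega

end Sys

end Pool.Agent.Lib.MP_12eaff_co.BK
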