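import Mathlib
import Pool.Agent.Lib.MP_12eaff_co.BK.Lem2
import Pool.Agent.Lib.MP_12eaff_co.BK.Loc

set_option autoImplicit false
set_option linter.unusedSectionVars false
set_option linter.unusedVariables false

namespace Pool.Agent.Lib.MP_12eaff_co.BK

open Finset
open scoped Classical

variable {V : Type} [Fintype V]

namespace Sys

variable (S : Sys V) (c0 : V → ℕ) (T : Tr V) (k : ℕ)

noncomputable def N1 (u : V) : Finset V := (S.NU (T.col u) u).filter (fun e => e ∉ S.P ∧ e ∉ T.A u)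
noncomputable def N2 (u : V) : Finset V := (S.NU (T.col u) u).filter (fun e => e ∈ S.P)
noncomputable def PLi (u : V) : Finset V := (S.PL c0 T u).filter (fun e => e ∈ S.P)
noncomputable def PV (u : V) : Finset V := (nb S.G u).filter (fun e => e ∈ T.A u ∧ e = T.par u)
noncomputable def TV (u : V) : Finset V := (nb S.G u).filter (fun e => e ∈ T.A u ∧ e ≠ T.par u)
noncomputable def UB (u : V) : Finset V := (nb S.G u).filter (fun e => e ∈ S.P ∧ e ∉ S.Bad c0 T u)

def Lk (x w : V) : Prop := (∃ γ ζ, S.HC c0 w γ ζ ∧ S.cls c0 w γ ζ) ∨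
  (S.HS c0 w (c0 x) ∧ ∀ y ∈ S.E w, y ≠ x → c0 y ≠ c0 x)

noncomputable def Tp (u : V) : Finset V :=
  (S.UB c0 T u).filter (fun w => ∃ x ∈ S.E w, x ≠ u ∧ x ∈ T.A u ∧ S.Lk c0 x w)
noncomputable def Aq (u : V) : Finset V :=
  (S.UB c0 T u).filter (fun w => ¬ ∃ x ∈ S.E w, x ≠ u ∧ x ∈ T.A u ∧ S.Lk c0 x w)
noncomputable def Ex (u : V) : Finset V :=
  (nb S.G u).filter (fun w => w ∈ S.P ∧ u ∈ S.E w ∧ S.IP T u w)
noncomputable def Ce (u : V) : Finset V :=
  (nb S.G u).filter (fun e => S.Good T u e ∧ ∃ w ∈ S.P, u ∈ S.E w ∧ S.Exc c0 T u w (c0 e))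
noncomputable def Cp (u : V) : Finset V :=
  (nb S.G u).filter (fun e => S.Good T u e ∧ ∃ a ∈ T.A u, S.G.Adj u a ∧ c0 a = c0 e)
noncomputable def Z2 (u : V) : Finset V :=
  (nb S.G u).filter (fun e => e ∉ S.P ∧ ¬ (S.Good T u e ∧ S.W0 c0 T u e))
noncomputable def Tr2 (y : V) : Finset V :=
  (nb S.G y).filter (fun z => S.W0 c0 T y z ∧ S.TrP c0 T y z)
noncomputable def Gs (u w : V) : Finset ℕ :=
  (range S.D).filter (fun γ => S.Exc c0 T u w γ ∧ ¬ S.NB (T.col u) u w γ)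
noncomputable def Tri (u : V) : Finset V :=
  (S.N2 T u).filter (fun w => (if S.IP T u w then 1 else 0) < (S.Gs c0 T u w).card)

def Big (v : V) : Prop := k ≤ (S.Cl2 c0 T v).card

noncomputable def PN (u : V) : Finset V := (S.PV T u).filter (fun e => ¬ S.Big c0 T k e)
noncomputable def PH (u : V) : Finset V := (S.PV T u).filter (fun e => S.Big c0 T k e)
noncomputable def Ni (e : V) : Finset V :=
  (S.N1 T e).filter (fun s => s ∈ T.R ∧ ¬ S.Big c0 T k s ∧ S.Good T s e)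
noncomputable def Xs (e : V) : Finset V :=
  (S.N1 T e).filter (fun s => s ∈ T.R ∧ S.Big c0 T k s ∧ S.Good T s e)
noncomputable def Ts (e : V) : Finset V := (S.N1 T e).filter (fun s => s ∈ T.R ∧ e ∈ T.A s)
noncomputable def Zin (e : V) : Finset V :=
  T.R.filter (fun s => ¬ S.Big c0 T k s ∧ S.Good T s e ∧ s ∈ S.Z2 c0 T e)
noncomputable def Xo (u : V) : Finset V :=
  T.R.filter (fun e => ¬ S.Big c0 T k e ∧ u ∈ S.Xs c0 T k e)
noncomputable def Ch (u : V) : Finset V :=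
  T.R.filter (fun e => ¬ S.Big c0 T k e ∧ u ∈ S.PH c0 T k e)

variable {S c0 T k}

omit [Fintype V] in
theorem card3 {s a b c : Finset V} (h : ∀ x ∈ s, x ∈ a ∨ x ∈ b ∨ x ∈ c) :
    s.card ≤ a.card + b.card + c.card := by
  have : s ⊆ a ∪ b ∪ c := fun x hx => by
    simp only [mem_union]
    exact or_assoc.mpr (h x hx)
  have := card_le_card this
  have := card_union_le (a ∪ b) c
  have := card_union_le a b
  omega

omit [Fintype V] in
theorem card4 {s a b c d : Finset V} (h : ∀ x ∈ s, x ∈ a ∨ x ∈ b ∨ x ∈ c ∨ x ∈ d) :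
    s.card ≤ a.card + b.card + c.card + d.card := by
  have := card3 (s := s) (a := a) (b := b) (c := c ∪ d) (fun x hx => by
    simp only [mem_union]
    exact h x hx)
  have := card_union_le c d
  omega

omit [Fintype V] in
theorem card5 {s a b c d e : Finset V} (h : ∀ x ∈ s, x ∈ a ∨ x ∈ b ∨ x ∈ c ∨ x ∈ d ∨ x ∈ e) :
    s.card ≤ a.card + b.card + c.card + d.card + e.card := by
  have := card4 (s := s) (a := a) (b := b) (c := c) (d := d ∪ e) (fun x hx => by
    simp only [mem_union]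
    exact h x hx)
  have := card_union_le d e
  omega

theorem N12 (u : V) : (S.N1 T u).card + (S.N2 T u).card ≤ (S.NU (T.col u) u).card :=
  filt_disj (fun _ _ a b => a.1 b)

theorem slots (u : V) :
    (S.Xs c0 T k u).card + (S.Ts T u).card + (S.Ni c0 T k u).card ≤ (S.N1 T u).card := by
  have a := card_filter_add_card_filter_not (s := S.N1 T u) (fun s => u ∈ T.A s)
  have b : (S.Ts T u).card ≤ ((S.N1 T u).filter (fun s => u ∈ T.A s)).card :=
    filt_mono (fun _ _ h => h.2)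
  have c := filt_disj (g := (S.N1 T u).filter (fun s => ¬ u ∈ T.A s))
    (p := fun s => S.Big c0 T k s) (q := fun s => ¬ S.Big c0 T k s) (fun _ _ a b => b a)
  have d : (S.Xs c0 T k u).card ≤ _ := card_le_card (show S.Xs c0 T k u ⊆
    ((S.N1 T u).filter (fun s => ¬ u ∈ T.A s)).filter (fun s => S.Big c0 T k s) from fun s hs => by
      obtain ⟨h1, _, h2, h3⟩ := mem_filter.mp hs
      exact mem_filter.mpr ⟨mem_filter.mpr ⟨h1, h3.2.2.1⟩, h2⟩)
  have e : (S.Ni c0 T k u).card ≤ _ := card_le_card (show S.Ni c0 T k u ⊆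
    ((S.N1 T u).filter (fun s => ¬ u ∈ T.A s)).filter (fun s => ¬ S.Big c0 T k s) from
    fun s hs => by
      obtain ⟨h1, _, h2, h3⟩ := mem_filter.mp hs
      exact mem_filter.mpr ⟨mem_filter.mpr ⟨h1, h3.2.2.1⟩, h2⟩)
  omega

theorem PV_card (u : V) : (S.PV T u).card ≤ 1 :=
  card_le_one.mpr (fun a ha b hb => (mem_filter.mp ha).2.2.trans (mem_filter.mp hb).2.2.symm)

theorem PNH (u : V) : (S.PH c0 T k u).card + (S.PN c0 T k u).card = (S.PV T u).card :=
  card_filter_add_card_filter_not _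

theorem Ctx.par_vc (X : Ctx S c0 T) {u : V} (hu : u ∈ T.R) (hr : u ≠ T.r)
    (ha : S.G.Adj u (T.par u)) : S.VC (T.col u) u (T.par u) (c0 u) :=
  ⟨ha, X.col_lt hu hr, Or.inl (by rw [X.pt.coleq u hu hr, Function.update_self])⟩

theorem Ctx2.pli (X : Ctx2 S c0 T) {u : V} (hu : u ∈ T.R) :
    (S.PV T u).card + (S.PLi c0 T u).card ≤ 1 ∧ (¬ S.Hd c0 T u → (S.PLi c0 T u).card = 0) := by
  have a := PV_card (S := S) (T := T) u
  have b : (S.PLi c0 T u).card ≤ 1 := le_trans (card_filter_le _ _) (PL_card u)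
  by_cases h : (S.PLi c0 T u).Nonempty
  · obtain ⟨w, hw⟩ := h
    obtain ⟨h1, h2⟩ := mem_filter.mp hw
    have uq := (mem_filter.mp h1).2
    have hr : u ≠ T.r := fun e => X.pt.rhole (e ▸ uq.1.2.1)
    have na : ¬ S.G.Adj u (T.par u) := fun q =>
      (X.st _ (X.pt.parD u hu hr)).nP (uq.2 _ (X.par_vc hu hr q) ▸ h2)
    have : S.PV T u = ∅ := filter_eq_empty_iff.mpr (fun e he q => na (q.2 ▸ mem_nb.mp he))
    rw [this]
    exact ⟨by simpa using b, fun q => absurd (X.par_mv hu hr q).1.1.symm na⟩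
  · rw [not_nonempty_iff_eq_empty.mp h]
    exact ⟨by simpa using a, fun _ => rfl⟩

theorem inv_cases {u w : V} (ha : S.G.Adj u w) (hw : w ∈ S.P) :
    w ∈ S.N2 T u ∨ w ∈ S.PLi c0 T u ∨ w ∈ S.Aq c0 T u ∨ w ∈ S.Tp c0 T u := by
  by_cases a : w ∈ S.Bad c0 T u
  · rcases mem_union.mp a with q | q
    · exact Or.inl (mem_filter.mpr ⟨q, hw⟩)
    · exact Or.inr (Or.inl (mem_filter.mpr ⟨q, hw⟩))
  · have b : w ∈ S.UB c0 T u := mem_filter.mpr ⟨mem_nb.mpr ha, hw, a⟩
    by_cases c : ∃ x ∈ S.E w, x ≠ u ∧ x ∈ T.A u ∧ S.Lk c0 x w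
    · exact Or.inr (Or.inr (Or.inr (mem_filter.mpr ⟨b, c⟩)))
    · exact Or.inr (Or.inr (Or.inl (mem_filter.mpr ⟨b, c⟩)))

theorem inv_card (u : V) : ((nb S.G u).filter (fun e => e ∈ S.P)).card ≤
    (S.N2 T u).card + (S.PLi c0 T u).card + (S.Aq c0 T u).card + (S.Tp c0 T u).card :=
  card4 (fun w hw => inv_cases (mem_nb.mp (mem_filter.mp hw).1) (mem_filter.mp hw).2)

theorem Ex_card (u : V) : (S.Ex T u).card ≤ ((nb S.G u).filter (fun e => e ∈ S.P)).card :=
  filt_mono (fun _ _ h => h.1)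

theorem Ctx2.z2_cases (X : Ctx2 S c0 T) {u e : V} (hu : u ∈ T.R) (he : e ∈ S.Z2 c0 T u) :
    e ∈ S.N1 T u ∨ e ∈ S.PV T u ∨ e ∈ S.TV T u ∨ e ∈ S.Cp c0 T u ∨ e ∈ S.Ce c0 T u := by
  obtain ⟨a, b, c⟩ := mem_filter.mp he
  by_cases h1 : e ∈ T.A u
  · by_cases h2 : e = T.par u
    · exact Or.inr (Or.inl (mem_filter.mpr ⟨a, h1, h2⟩))
    · exact Or.inr (Or.inr (Or.inl (mem_filter.mpr ⟨a, h1, h2⟩)))
  by_cases h2 : e ∈ S.NU (T.col u) u
  · exact Or.inl (mem_filter.mpr ⟨h2, b, h1⟩)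
  have g : S.Good T u e := ⟨mem_nb.mp a, b, h1, h2⟩
  have uq := X.good_uq hu g
  refine Or.inr (Or.inr (Or.inr ?_))
  by_contra q
  rw [not_or] at q
  refine c ⟨g, g.1, uq.1.2.1, fun e' a1 a2 a3 => ?_,
    fun w w1 w2 w3 => q.2 (mem_filter.mpr ⟨a, g, w, w1, w2, w3⟩)⟩
  by_cases h3 : e' ∈ T.A u
  · exact q.1 (mem_filter.mpr ⟨a, g, e', h3, a1, a3⟩)
  · exact a2 (uq.2 e' ⟨a1, uq.1.2.1, Or.inl (((X.st u hu).out e' h3).trans a3)⟩)

theorem Ctx2.good_inj (X : Ctx2 S c0 T) {u : V} (hu : u ∈ T.R) {C : Finset V}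
    (h : ∀ e ∈ C, S.Good T u e) : C.card = (C.image c0).card :=
  (card_image_of_injOn (fun a ha b hb (e : c0 a = c0 b) =>
    (X.good_uq hu (h b hb)).2 a (e ▸ (X.good_uq hu (h a ha)).1))).symm

theorem Ctx2.Cp_card (X : Ctx2 S c0 T) {u : V} (hu : u ∈ T.R) :
    (S.Cp c0 T u).card ≤ (S.PV T u).card + (S.TV T u).card := by
  rw [X.good_inj hu (fun e he => (mem_filter.mp he).2.1)]
  refine le_trans (card_le_card (t := (S.PV T u ∪ S.TV T u).image c0) ?_)
    (le_trans card_image_le (card_union_le _ _))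
  intro γ hγ
  obtain ⟨e, he, rfl⟩ := mem_image.mp hγ
  obtain ⟨_, _, a, a1, a2, a3⟩ := mem_filter.mp he
  refine mem_image.mpr ⟨a, ?_, a3⟩
  by_cases q : a = T.par u
  · exact mem_union_left _ (mem_filter.mpr ⟨mem_nb.mpr a2, a1, q⟩)
  · exact mem_union_right _ (mem_filter.mpr ⟨mem_nb.mpr a2, a1, q⟩)

omit [Fintype V] in
theorem Exc.pot {u w : V} {γ : ℕ} (h : S.Exc c0 T u w γ) : γ ∈ S.Pot c0 w := by
  rcases h.2 with q | q | q
  · exact q.2
  · exact q.pot
  · exact q.pot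

theorem Ctx2.gs1 (X : Ctx2 S c0 T) {u w : V} (hw : w ∈ S.P) :
    (S.Gs c0 T u w).card ≤ 1 + if S.IP T u w then 1 else 0 := by
  split_ifs with ip
  · exact le_trans (card_le_card (fun γ hγ => (mem_filter.mp hγ).2.1.pot)) (Pot_card X.ok X.num hw)
  · rw [add_zero, card_le_one]
    intro a ha b hb
    obtain ⟨_, a1, _⟩ := mem_filter.mp ha
    obtain ⟨_, b1, _⟩ := mem_filter.mp hb
    rcases a1.2 with q | q | q
    · exact absurd q.1 ip
    · exact ((hc_pot X.ok X.num hw q b1.pot).resolve_right b1.1).symm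
    · exact ((hc_pot X.ok X.num hw q b1.pot).elim id id).symm

theorem Ctx2.gs2 (X : Ctx2 S c0 T) {u w : V} (hu : u ∈ T.R) {β : ℕ} (hb : S.NB (T.col u) u w β)
    (hne : β ≠ c0 u) : (S.Gs c0 T u w).card ≤ if S.IP T u w then 1 else 0 := by
  split_ifs with ip
  · rw [card_le_one]
    intro a ha b hb'
    obtain ⟨_, a1, a2⟩ := mem_filter.mp ha
    obtain ⟨_, b1, b2⟩ := mem_filter.mp hb'
    by_contra q
    rcases X.nb_hot hu (pot_two X.ok X.num hb.1 a1.pot b1.pot q) hb with e | e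
    · exact a2 (e ▸ hb)
    · exact b2 (e ▸ hb)
  · rw [Nat.le_zero, card_eq_zero, eq_empty_iff_forall_notMem]
    intro a ha
    obtain ⟨_, a1, a2⟩ := mem_filter.mp ha
    rcases a1.2 with q | q | q
    · exact ip q.1
    · exact (X.nb_hot hu q hb).elim (fun e => a2 (e ▸ hb)) hne
    · exact (X.nb_hot hu q hb).elim (fun e => a2 (e ▸ hb)) (fun e => a2 (e ▸ hb))

theorem Ctx2.Ce_card (X : Ctx2 S c0 T) {u : V} (hu : u ∈ T.R) :
    (S.Ce c0 T u).card ≤ (S.Tri c0 T u).card + (S.PLi c0 T u).card + (S.Ex T u).card := by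
  rw [X.good_inj hu (fun e he => (mem_filter.mp he).2.1)]
  let W := (nb S.G u).filter (fun w => w ∈ S.P ∧ u ∈ S.E w)
  have h1 : (S.Ce c0 T u).image c0 ⊆ W.biUnion (S.Gs c0 T u) := by
    intro γ hγ
    obtain ⟨e, he, rfl⟩ := mem_image.mp hγ
    obtain ⟨_, g, w, w1, w2, w3⟩ := mem_filter.mp he
    exact mem_biUnion.mpr ⟨w, mem_filter.mpr ⟨mem_nb.mpr (X.ok.Eadj w w1 u w2).symm, w1, w2⟩,
      mem_filter.mpr ⟨mem_range.mpr (X.good_uq hu g).1.2.1, w3, X.good_nb hu g⟩⟩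
  refine le_trans (card_le_card h1) (le_trans card_biUnion_le ?_)
  have h2 : ∑ w ∈ W, (S.Gs c0 T u w).card ≤ ∑ w ∈ W, ((if w ∈ S.Tri c0 T u then 1 else 0) +
      (if w ∈ S.PLi c0 T u then 1 else 0) + (if w ∈ S.Ex T u then 1 else 0)) := by
    refine sum_le_sum (fun w hw => ?_)
    obtain ⟨w0, w1, w2⟩ := mem_filter.mp hw
    have e : (if w ∈ S.Ex T u then 1 else 0) = if S.IP T u w then 1 else 0 :=
      if_congr ⟨fun q => (mem_filter.mp q).2.2.2, fun q => mem_filter.mpr ⟨w0, w1, w2, q⟩⟩ rfl rfl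
    rw [e]
    have g1 := X.gs1 (u := u) w1
    by_cases a : w ∈ S.Tri c0 T u
    · rw [if_pos a]; omega
    by_cases b : w ∈ S.PLi c0 T u
    · rw [if_pos b]; omega
    by_cases c : w ∈ S.N2 T u
    · have := not_lt.mp (fun q => a (mem_filter.mpr ⟨c, q⟩))
      omega
    · obtain ⟨γ, _, g2, g3⟩ := X.inv_uq hu (mem_nb.mp w0) w1 (fun q => (mem_union.mp q).elim
        (fun q => c (mem_filter.mpr ⟨q, w1⟩)) (fun q => b (mem_filter.mpr ⟨q, w1⟩)))
      have := X.gs2 hu g3.nb g2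
      omega
  rw [sum_add_distrib, sum_add_distrib, ← card_filter, ← card_filter, ← card_filter] at h2
  have f : ∀ A : Finset V, (W.filter (fun w => w ∈ A)).card ≤ A.card :=
    fun A => card_le_card (fun a ha => (mem_filter.mp ha).2)
  have := f (S.Tri c0 T u)
  have := f (S.PLi c0 T u)
  have := f (S.Ex T u)
  omega

theorem Tri_card (u : V) : (S.Tri c0 T u).card ≤ (S.N2 T u).card := card_filter_le _ _

theorem Ctx2.tri_NU (X : Ctx2 S c0 T) {u w : V} (hu : u ∈ T.R) (hd : ¬ S.Hd c0 T u)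
    (hw : w ∈ S.Tri c0 T u) : ∀ e ∈ S.NU (T.col u) u, e = w ∨ (u ≠ T.r ∧ e = T.par u) := by
  intro e he
  by_contra q
  rw [not_or] at q
  obtain ⟨h1, h2⟩ := mem_filter.mp hw
  obtain ⟨h3, h4⟩ := mem_filter.mp h1
  have st := X.st u hu
  obtain ⟨β, b1, b2⟩ := NU_pair X.ok X.num st.min st.hole st.nP h3 he (Ne.symm q.1)
  have nb := b1.2.2.resolve_left (fun k => st.min.val.unc w h4 (k ▸ b1.2.1))
  have e1 : β = c0 u := by
    by_contra k
    exact absurd (X.gs2 hu nb k) (not_le.mpr h2)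
  subst e1
  have hr : u ≠ T.r := fun k => X.pt.rhole (k ▸ b1.2.1)
  have vc := X.par_vc hu hr (X.par_mv hu hr hd).1.1.symm
  have pw : T.par u ≠ w := fun k => (X.st _ (X.pt.parD u hu hr)).nP (k ▸ h4)
  have pN : T.par u ∈ S.NU (T.col u) u := mem_filter.mpr ⟨mem_nb.mpr vc.1, fun ⟨γ, g⟩ =>
    pw (g.2 w (VC_single X.ok X.num st.min.val vc g.1 ▸ b1)).symm⟩
  have : ({e, w, T.par u} : Finset V) ⊆ S.NU (T.col u) u := by
    intro t ht
    simp only [mem_insert, mem_singleton] at ht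
    rcases ht with rfl | rfl | rfl <;> assumption
  have h5 := card_le_card this
  rw [card_insert_of_notMem (by
    simp only [mem_insert, mem_singleton, not_or]
    exact ⟨q.1, fun k => q.2 ⟨hr, k⟩⟩), card_pair pw.symm] at h5
  have := X.NU_two hu
  omega

theorem Ctx2.tri_ref (X : Ctx2 S c0 T) {u : V} (hu : u ∈ T.R) (hd : ¬ S.Hd c0 T u) :
    (S.Tri c0 T u).card = 0 ∨ ((S.N1 T u).card = 0 ∧ (S.N2 T u).card ≤ 1) := by
  by_cases h : (S.Tri c0 T u).Nonempty
  · obtain ⟨w, hw⟩ := h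
    have k := X.tri_NU hu hd hw
    have wP := (mem_filter.mp (mem_filter.mp hw).1).2
    refine Or.inr ⟨card_eq_zero.mpr (filter_eq_empty_iff.mpr (fun e he q => ?_)), ?_⟩
    · rcases k e he with r | r
      · exact q.1 (r ▸ wP)
      · exact q.2 (r.2 ▸ X.parA hu r.1)
    · refine le_trans (card_le_card (t := {w}) (fun e he => ?_)) (by simp)
      obtain ⟨h1, h2⟩ := mem_filter.mp he
      rcases k e h1 with r | r
      · exact mem_singleton.mpr r
      · exact absurd (r.2 ▸ h2) (X.st _ (X.pt.parD u hu r.1)).nP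
  · rw [not_nonempty_iff_eq_empty.mp h]
    exact Or.inl rfl

theorem Ctx2.zin_card (X : Ctx2 S c0 T) {e : V} (he : e ∈ T.R) :
    (S.Zin c0 T k e).card ≤ (S.Ni c0 T k e).card + (S.PN c0 T k e).card + (S.Cp c0 T e).card +
      (S.Ce c0 T e).card := by
  refine card4 (fun s hs => ?_)
  obtain ⟨s1, s2, s3, s4⟩ := mem_filter.mp hs
  rcases X.z2_cases he s4 with q | q | q | q
  · exact Or.inl (mem_filter.mpr ⟨q, s1, s2, s3⟩)
  · exact Or.inr (Or.inl (mem_filter.mpr ⟨q, s2⟩))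
  · obtain ⟨_, q1, q2⟩ := mem_filter.mp q
    exact absurd (X.desc_NU he q1 s3.1 (Ne.symm q2)) s3.2.2.2
  · exact Or.inr (Or.inr q)

theorem Ctx2.z2_card (X : Ctx2 S c0 T) {u : V} (hu : u ∈ T.R) :
    (S.Z2 c0 T u).card ≤ (S.N1 T u).card + (S.PV T u).card + (S.TV T u).card +
      (S.Cp c0 T u).card + (S.Ce c0 T u).card :=
  card5 (fun _ he => X.z2_cases hu he)

theorem Ctx2.nb_split2 (X : Ctx2 S c0 T) {s : V} (hs : s ∈ T.R) (nb' : ¬ S.Big c0 T k s) :
    (nb S.G s).card ≤ (S.Cl2 c0 T s).card + ((S.Z2 c0 T s).card +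
      ((nb S.G s).filter (fun e => e ∈ S.P)).card) +
      (T.R.filter (fun e => s ∈ S.Zin c0 T k e)).card + (S.Tr2 c0 T s).card +
      (T.R.filter (fun e => s ∈ S.Tr2 c0 T e)).card := by
  refine le_trans (card5 (a := S.Cl2 c0 T s)
    (b := S.Z2 c0 T s ∪ (nb S.G s).filter (fun e => e ∈ S.P))
    (c := T.R.filter (fun e => s ∈ S.Zin c0 T k e)) (d := S.Tr2 c0 T s)
    (e := T.R.filter (fun e => s ∈ S.Tr2 c0 T e)) (fun e he => ?_)) ?_
  · by_contra q
    simp only [mem_union, not_or] at q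
    obtain ⟨q1, ⟨q2, q3⟩, q4, q5, q6⟩ := q
    have nP : e ∉ S.P := fun k => q3 (mem_filter.mpr ⟨he, k⟩)
    have g1 : S.Good T s e ∧ S.W0 c0 T s e := by
      by_contra k
      exact q2 (mem_filter.mpr ⟨he, nP, k⟩)
    have eR := (X.good_R hs g1.1).1
    have hs' : s ∈ nb S.G e := mem_nb.mpr g1.1.1.symm
    have g2 : S.Good T e s ∧ S.W0 c0 T e s := by
      by_contra k
      exact q4 (mem_filter.mpr ⟨eR, mem_filter.mpr ⟨hs, nb', g1.1,
        mem_filter.mpr ⟨hs', (X.st s hs).nP, k⟩⟩⟩)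
    exact q1 (mem_Cl2.mpr ⟨eR, hs, g2.2, g1.2,
      fun k => q6 (mem_filter.mpr ⟨eR, mem_filter.mpr ⟨hs', g2.2, k⟩⟩),
      fun k => q5 (mem_filter.mpr ⟨he, g1.2, k⟩), g2.1, g1.1⟩)
  · have := card_union_le (S.Z2 c0 T s) ((nb S.G s).filter (fun e => e ∈ S.P))
    omega

theorem Ctx2.ch_inner (X : Ctx2 S c0 T) {u : V} (h : ¬ T.Inner u) : (S.Ch c0 T k u).card = 0 := by
  refine card_eq_zero.mpr (filter_eq_empty_iff.mpr (fun e he q => h ?_))
  obtain ⟨q1, q2, q3⟩ := mem_filter.mp (mem_filter.mp q.2).1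
  exact X.inner_of he q2 (mem_nb.mp q1).ne'

theorem Ctx2.emit (X : Ctx2 S c0 T) (p4 : S.P4n k) (hk : 8 ≤ k) {u : V} (hu : u ∈ T.R)
    (big : S.Big c0 T k u) :
    1 + (S.Ni c0 T k u).card + (S.Tri c0 T u).card ≤ (S.Xo c0 T k u).card + (S.TV T u).card +
      (S.Aq c0 T u).card + (S.Tp c0 T u).card + (S.Ch c0 T k u).card := by
  have st := X.st u hu
  obtain ⟨hr, hd, mv⟩ := X.big_mv hu (le_trans hk big)
  set J := Jset S.G (k - 3) u with hJ
  have h1 : J.card + 2 ≤ S.D := by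
    rcases p4 u st.nP with ⟨W, w1, w2, w3⟩ | q
    · exfalso
      have : W ⊆ S.NU (T.col u) u := by
        intro w hw
        refine mem_filter.mpr ⟨mem_nb.mpr (w3 w hw).1, ?_⟩
        rintro ⟨γ, g⟩
        rcases g.1.2.2 with k | k
        · exact st.min.val.unc w (w1 hw) (k ▸ g.1.2.1)
        · exact (w3 w hw).2 k.2.1
      have := card_le_card this
      have := X.NU_two hu
      omega
    · exact q _ (X.Cl_clq u) big (fun a ha => (mem_Cl2.mp ha).w2.1)
  have pJ := (X.attach (X.pt.parD u hu hr) (X.pt.notA u hu hr) mv big).1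
  set NO := (S.NU (T.col u) u).filter (fun e => ¬ e ∈ J) with hNO
  have h2 : (nb S.G u).card ≤ (J ∪ NO).card + ((S.Xo c0 T k u ∪ S.TV T u).card +
      (S.Aq c0 T u).card + (S.Tp c0 T u).card + (S.Ch c0 T k u).card) := by
    have := card5 (s := nb S.G u) (a := J ∪ NO) (b := S.Xo c0 T k u ∪ S.TV T u)
      (c := S.Aq c0 T u) (d := S.Tp c0 T u) (e := S.Ch c0 T k u) (fun e he => by
      by_cases a : e ∈ J
      · exact Or.inl (mem_union_left _ a)
      by_cases b : e ∈ S.NU (T.col u) u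
      · exact Or.inl (mem_union_right _ (mem_filter.mpr ⟨b, a⟩))
      right
      have adj := mem_nb.mp he
      by_cases c : e ∈ S.P
      · rcases inv_cases (c0 := c0) (T := T) adj c with q | q | q | q
        · exact absurd (mem_filter.mp q).1 b
        · have := (X.pli hu).2 hd
          rw [card_eq_zero] at this
          rw [this] at q
          simp at q
        · exact Or.inr (Or.inl q)
        · exact Or.inr (Or.inr (Or.inl q))
      by_cases d : e ∈ T.A u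
      · exact Or.inl (mem_union_right _ (mem_filter.mpr ⟨he, d, fun q => a (q ▸ pJ)⟩))
      have g : S.Good T u e := ⟨adj, c, d, b⟩
      have eR := (X.good_R hu g).1
      have nb' : ¬ S.Big c0 T k e := fun q => a (X.attach hu d (X.good_mv hu g) q).2
      by_cases f : u ∈ T.A e
      · refine Or.inr (Or.inr (Or.inr (mem_filter.mpr ⟨eR, nb', mem_filter.mpr
          ⟨mem_filter.mpr ⟨mem_nb.mpr adj.symm, f, ?_⟩, big⟩⟩)))
        by_contra q
        exact b (X.desc_NU eR f adj (Ne.symm q))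
      · refine Or.inl (mem_union_left _ (mem_filter.mpr ⟨eR, nb', mem_filter.mpr
          ⟨mem_filter.mpr ⟨?_, st.nP, f⟩, hu, big, g⟩⟩))
        by_contra q
        exact a (X.attach eR f (X.mv_of eR adj.symm st.nP q) big).1)
    omega
  have h3 := card_union_le J NO
  have h4 := card_union_le (S.Xo c0 T k u) (S.TV T u)
  have h5 := card_filter_add_card_filter_not (s := S.NU (T.col u) u) (fun e => e ∈ J)
  have h6 : (S.Ni c0 T k u).card ≤ ((S.NU (T.col u) u).filter (fun e => e ∈ J)).card := by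
    refine card_le_card (fun s hs => ?_)
    obtain ⟨s1, s2, _, s3⟩ := mem_filter.mp hs
    exact mem_filter.mpr ⟨(mem_filter.mp s1).1, (X.attach s2 s3.2.2.1 (X.good_mv s2 s3) big).1⟩
  have h7 := X.NU_le hu
  have h8 := X.ok.deg u
  rw [← hNO] at h5
  by_cases h : (S.Tri c0 T u).Nonempty
  · obtain ⟨w, hw⟩ := h
    have a : NO.card ≤ 1 := by
      refine le_trans (card_le_card (t := {w}) (fun e he => ?_)) (by simp)
      obtain ⟨e1, e2⟩ := mem_filter.mp he
      exact mem_singleton.mpr ((X.tri_NU hu hd hw e e1).resolve_right (fun q => e2 (q.2 ▸ pJ)))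
    have b := X.tri_ref hu hd
    have c := card_pos.mpr ⟨w, hw⟩
    have d := Tri_card (S := S) (c0 := c0) (T := T) u
    have e : (S.Ni c0 T k u).card ≤ (S.N1 T u).card := card_filter_le _ _
    have f := N12 (S := S) (T := T) u
    omega
  · rw [not_nonempty_iff_eq_empty.mp h, card_empty]
    omega

theorem Ctx2.xs_pair (X : Ctx2 S c0 T) {m : V} (hm : m ∈ T.R)
    (h : S.D + 7 ≤ (S.Cl2 c0 T m).card + k) : (S.Xs c0 T k m).card ≤ 1 := by
  rw [card_le_one]
  intro z hz z' hz'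
  by_contra hne
  obtain ⟨a1, a2, a3, a4⟩ := mem_filter.mp hz
  obtain ⟨b1, b2, b3, b4⟩ := mem_filter.mp hz'
  obtain ⟨a5, a6, a7⟩ := mem_filter.mp a1
  obtain ⟨b5, b6, b7⟩ := mem_filter.mp b1
  have e := (X.NU_vis hm a5 b5 hne a6 b6).1
  rw [(X.st m hm).out z a7, (X.st m hm).out z' b7] at e
  let Y := (S.Cl2 c0 T m).filter (fun y => y ∉ T.A z ∧ y ∉ T.A z')
  have h1 := card3 (s := S.Cl2 c0 T m) (a := Y) (b := (S.Cl2 c0 T m).filter (fun y => y ∈ T.A z))
    (c := (S.Cl2 c0 T m).filter (fun y => y ∈ T.A z')) (fun y hy => by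
      simp only [Y, mem_filter, hy, true_and]
      tauto)
  have h2 := X.clq_anc3 (X.Cl_clq m) a2
  have h3 := X.clq_anc3 (X.Cl_clq m) b2
  have dis : Disjoint (S.Cl2 c0 T z) (insert m Y) := by
    rw [disjoint_left]
    intro y hy hy'
    rw [mem_Cl2] at hy
    rcases mem_insert.mp hy' with q | q
    · exact hy.g1.2.2.2 (q ▸ a5)
    · obtain ⟨q1, _, q3⟩ := mem_filter.mp q
      exact hy.w1.2.2.1 z' (X.lem2_mv b2 b4.2.2.1 (X.good_mv b2 b4) (mem_Cl2.mp q1) q3).symm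
        (Ne.symm hne) e.symm
  have sub : S.Cl2 c0 T z ∪ insert m Y ⊆ nb S.G z := by
    intro y hy
    rcases mem_union.mp hy with q | q
    · exact mem_nb.mpr (mem_Cl2.mp q).w2.1
    · rcases mem_insert.mp q with q | q
      · exact mem_nb.mpr (q ▸ a4.1)
      · obtain ⟨q1, q2, _⟩ := mem_filter.mp q
        exact mem_nb.mpr (X.lem2_mv a2 a4.2.2.1 (X.good_mv a2 a4) (mem_Cl2.mp q1) q2)
  have h4 := card_le_card sub
  have mY : m ∉ Y := fun q => (mem_Cl2.mp (mem_filter.mp q).1).w1.1.ne rfl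
  rw [card_union_of_disjoint dis, card_insert_of_notMem mY] at h4
  have := X.ok.deg z
  unfold Big at a3
  omega

end Sys

end Pool.Agent.Lib.MP_12eaff_co.BK
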