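import Mathlib
import Pool.Agent.Lib.MP_12eaff_co.BK.Loc2

set_option autoImplicit false
set_option linter.unusedSectionVars false
set_option linter.unusedVariables false

namespace Pool.Agent.Lib.MP_12eaff_co.BK

open Finset
open scoped Classical

variable {V : Type} [Fintype V]

namespace Sys

variable (S : Sys V) (c0 : V → ℕ) (T : Tr V)

noncomputable def AqM : Finset V := S.P.filter (fun w => ∃ u ∈ T.R, w ∈ S.Aq c0 T u)

noncomputable def Em2 : Finset V :=
  S.P.filter (fun w => ∃ v ∈ T.R, (S.Hd c0 T v ∨ T.Inner v) ∧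
    w ∈ S.N2 T v ∪ S.PLi c0 T v ∪ S.Tp c0 T v)

variable {S c0 T}

theorem Ctx2.em_mem2 (X : Ctx2 S c0 T) {w v : V} (hw : w ∈ S.P) (hn : w ∉ S.AqM c0 T)
    (hv : v ∈ S.E w) (hR : v ∈ T.R) (h : S.Hd c0 T v ∨ T.Inner v) : w ∈ S.Em2 c0 T := by
  refine mem_filter.mpr ⟨hw, v, hR, h, ?_⟩
  simp only [mem_union]
  rcases inv_cases (c0 := c0) (T := T) (X.ok.Eadj w hw v hv).symm hw with q | q | q | q
  · exact Or.inl (Or.inl q)
  · exact Or.inl (Or.inr q)
  · exact absurd (mem_filter.mpr ⟨hw, v, hR, q⟩) hn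
  · exact Or.inr q

theorem Ctx2.head_node2 (X : Ctx2 S c0 T) {u w z : V} {γ : ℕ} (hu : u ∈ T.R)
    (hw : w ∈ S.P) (uq : S.Uq (T.col u) u w γ) (hne : γ ≠ c0 u) (hz : T.col u z = γ)
    (hd : S.Head (T.col u) u w γ z) : z ∈ T.R ∧ (S.Hd c0 T z ∨ T.Inner z) := by
  by_cases q : z ∈ T.A u
  · exact ⟨(X.anc u hu z q).1, Or.inr (X.inner_of hu q (fun e =>
      (X.st u hu).hole (by rw [e] at hz; rw [hz]; exact uq.1.2.1)))⟩
  · have ps : S.Ps c0 (T.col u) u z := ⟨w, hw, hz ▸ uq, hz ▸ hne, hz ▸ hd⟩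
    exact ⟨(X.pt.clos u hu z q (Or.inr ps)).1, Or.inl ⟨u, hu, q, ps⟩⟩

theorem Ctx2.aq_facts (X : Ctx2 S c0 T) {u w : V} (hu : u ∈ T.R) (h : w ∈ S.Aq c0 T u) :
    ∃ γ, S.Uq (T.col u) u w γ ∧ γ ≠ c0 u ∧ u ∈ S.E w ∧
      ((S.BlkS (S.p - 1) (T.col u) u w γ ∧ S.p - 1 ≤ S.sC c0 (S.gr w) γ ∧ ¬ S.sees c0 w γ) ∨
       ∃ x ∈ S.E w, x ≠ u ∧ T.col u x < S.D ∧ S.BlkC (S.L - 2) (T.col u) u w γ ∧
         S.L ≤ S.cC c0 (S.gr w) γ (T.col u x) ∧ ¬ S.cls c0 w γ (T.col u x)) := by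
  obtain ⟨h1, d⟩ := mem_filter.mp h
  obtain ⟨a, b, c⟩ := mem_filter.mp h1
  obtain ⟨γ, g1, g2, g3⟩ := X.inv_uq hu (mem_nb.mp a) b c
  have st := X.st u hu
  have n1 := X.num.h1
  have n2 := X.num.h2
  have hE := X.ok.Ecard w b
  refine ⟨γ, g1, g2, g3.2.1, ?_⟩
  rcases g3.2.2 with q | ⟨x, x1, x2, x3, x4⟩
  · have hs := hs_of X.num st.mono b g1.1.2.1 (le_trans q.2 (sC_erase _ _ _ _))
    refine Or.inl ⟨q, hs.2, ?_⟩
    rintro ⟨x, x1, x2⟩
    have e : x ≠ u := fun e => g2 (by rw [← x2, e])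
    refine d ⟨x, x1, e, ?_, Or.inr ⟨x2 ▸ hs, fun y y1 y2 => ?_⟩⟩
    · by_contra k
      exact q.1 x x1 e (by rw [st.out x k, x2])
    · rw [(two_ends hE x1 g3.2.1 e y1).resolve_left y2, x2]
      exact g2.symm
  · have k1 : S.L ≤ S.cC c0 (S.gr w) γ (T.col u x) := by
      have := st.mono.cl w b γ g1.1.2.1 _ x3
      have := cC_erase (S := S) (T.col u) (S.gr w) w γ (T.col u x)
      omega
    refine Or.inr ⟨x, x1, x2, x3, ⟨x, x1, x2, x3, le_trans (by omega) x4⟩, k1, fun k => ?_⟩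
    refine d ⟨x, x1, x2, ?_, Or.inl ⟨γ, _, ⟨g1.1.2.1, x3, by omega⟩, k⟩⟩
    by_contra q
    rw [st.out x q] at k
    rcases cls_eq hE ⟨u, g3.2.1, x, x1, x2.symm, rfl, rfl⟩ k with k | k
    · exact g2 k.1
    · exact g2 (k.1.trans k.2)

theorem Ctx2.tp_facts (X : Ctx2 S c0 T) {u w : V} (hu : u ∈ T.R) (h : w ∈ S.Tp c0 T u) :
    w ∈ S.P ∧ u ∈ S.E w ∧ ∃ x ∈ S.E w, x ≠ u ∧ x ∈ T.R ∧ T.Inner x ∧ S.Hd c0 T x ∧
      ∃ w' ∈ S.gr w, S.Uq (T.col (T.par x)) (T.par x) w' (c0 x) := by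
  obtain ⟨h1, x, x1, x2, x3, x4⟩ := mem_filter.mp h
  obtain ⟨a, b, c⟩ := mem_filter.mp h1
  obtain ⟨γ, _, _, g3⟩ := X.inv_uq hu (mem_nb.mp a) b c
  have hE := X.ok.Ecard w b
  have xR := (X.anc u hu x x3).1
  have cx : c0 x < S.D := by
    rcases x4 with ⟨γ, ζ, q1, q2⟩ | q
    · rcases cls_sees hE q2 ⟨x, x1, rfl⟩ with e | e
      · exact e ▸ q1.1
      · exact e ▸ q1.2.1
    · exact q.1.1
  have hr : x ≠ T.r := fun e => X.pt.rhole (e ▸ cx)
  have hR := X.pt.parD x xR hr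
  have nA := X.pt.notA x xR hr
  have stp := X.pt.step x xR hr
  have st := X.st _ hR
  have uA : u ∉ T.A (T.par x) := fun q => X.antisymm hu x3 x2
    ((X.anc x xR _ (X.parA xR hr)).2.1 q)
  have same : ∀ y ∈ S.E w, T.col (T.par x) y = c0 y := fun y hy => by
    rcases two_ends hE x1 g3.2.1 x2 hy with e | e
    · rw [e]; exact st.out x nA
    · rw [e]; exact st.out u uA
  have : ∃ w' ∈ S.gr w, w' ≠ w ∧ S.NB (T.col (T.par x)) (T.par x) w' (c0 x) := by
    rcases x4 with ⟨γ, ζ, q1, s, s1, t, t1, q2, q3, q4⟩ | q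
    · exact X.lock_cls hR nA stp b x1 q1 ⟨s, s1, t, t1, q2, (same s s1).trans q3, (same t t1).trans q4⟩
    · refine X.lock_star hR nA stp b x1 q.1 (fun y y1 y2 => ⟨(same y y1) ▸ q.2 y y1 y2, ?_⟩)
      rw [(two_ends hE x1 g3.2.1 x2 y1).resolve_left y2]
      exact fun e => uA (e ▸ st.self)
  obtain ⟨w', a1, _, a3⟩ := this
  obtain ⟨b1, b2⟩ := X.step_nb hR nA stp a3
  exact ⟨b, g3.2.1, x, x1, x2, xR, X.inner_of hu x3 x2, ⟨_, hR, nA, b1⟩, w', a1, b2⟩

theorem Ctx2.group_emit2 (X : Ctx2 S c0 T) (hp : S.p = 11) (hL : S.L = 7)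
    {w0 : V} (hw0 : w0 ∈ S.P) :
    7 * ((S.gr w0).filter (fun w => w ∈ S.AqM c0 T)).card ≤
      4 * ((S.gr w0).filter (fun w => w ∈ S.Em2 c0 T)).card := by
  have ok := X.ok
  have n1 := X.num.h1
  have n2 := X.num.h2
  have hc := ok.card w0 hw0
  have hE : ∀ a ∈ S.gr w0, (S.E a).card ≤ 2 := fun a ha => ok.Ecard a (ok.sub w0 hw0 ha)
  by_cases hC : ∃ w ∈ S.gr w0, ∃ u ∈ T.R, ∃ γ, S.Uq (T.col u) u w γ ∧ γ ≠ c0 u ∧ u ∈ S.E w ∧
      ∃ x ∈ S.E w, x ≠ u ∧ T.col u x < S.D ∧ S.BlkC (S.L - 2) (T.col u) u w γ ∧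
         S.L ≤ S.cC c0 (S.gr w) γ (T.col u x) ∧ ¬ S.cls c0 w γ (T.col u x)
  · obtain ⟨w, hw, u, hu, γ, uq, gne, huw, x, x1, x2, x4, x5, x6, x7⟩ := hC
    have hg := ok.eqv w0 hw0 w hw
    have hwP := ok.sub w0 hw0 hw
    rw [hg] at x6
    have dis : ∀ a ∈ S.gr w0, a ∈ S.AqM c0 T → S.cls c0 a γ (T.col u x) → False := by
      intro a ha h1 h2
      obtain ⟨_, v, hv, h3⟩ := mem_filter.mp h1
      obtain ⟨γ', _, _, _, q⟩ := X.aq_facts hv h3
      rw [ok.eqv w0 hw0 a ha] at q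
      rcases q with ⟨_, q2, q3⟩ | ⟨y, _, _, _, _, q2, q3⟩
      · have := filt_disj (g := S.gr w0) (p := fun a => S.sees c0 a γ')
          (q := fun a => S.cls c0 a γ (T.col u x)) (fun t ht p q => by
            obtain ⟨a1, a2, a3, a4, _, a6, a7⟩ := h2
            rcases cls_sees (hE t ht) q p with e | e
            · exact q3 ⟨a1, a2, a6.trans e.symm⟩
            · exact q3 ⟨a3, a4, a7.trans e.symm⟩)
        unfold sC at q2
        unfold cC at x6
        omega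
      · have := filt_disj (g := S.gr w0) (p := fun a => S.cls c0 a γ (T.col u x))
          (q := fun a => S.cls c0 a γ' (T.col v y)) (fun t ht p q => by
            rcases cls_eq (hE t ht) p q with e | e
            · exact q3 (by rw [e.1, e.2]; exact h2)
            · exact q3 (by rw [e.1, e.2]; exact cls_symm h2))
        unfold cC at x6 q2
        omega
    have k1 := filt_disj (g := S.gr w0) (p := fun a => a ∈ S.AqM c0 T)
      (q := fun a => S.cls c0 a γ (T.col u x)) dis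
    have k2 := filt_mono (g := S.gr w0) (p := fun a => S.cls c0 a γ (T.col u x))
      (q := fun a => a ∈ S.Em2 c0 T) (fun a ha h => by
        have aP := ok.sub w0 hw0 ha
        have nA : a ∉ S.AqM c0 T := fun q => dis a ha q h
        have aw : a ≠ w := fun e => x7 (e ▸ h)
        have nu : u ∉ S.E a := ok.Edisj w hwP a (hg ▸ ha) aw u huw
        obtain ⟨z, z1, y, y1, zy, z2, y2⟩ := h
        by_cases q1 : z ∈ T.A u
        · exact X.em_mem2 aP nA z1 (X.anc u hu z q1).1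
            (Or.inr (X.inner_of hu q1 (fun e => nu (e ▸ z1))))
        by_cases q2 : y ∈ T.A u
        · exact X.em_mem2 aP nA y1 (X.anc u hu y q2).1
            (Or.inr (X.inner_of hu q2 (fun e => nu (e ▸ y1))))
        have cz : T.col u z = γ := by rw [(X.st u hu).out z q1, z2]
        have := X.head_node2 hu hwP uq gne cz ⟨a, hg ▸ ha, aw, z1, cz, fun x' a1 a2 _ _ =>
          ⟨y, y1, zy.symm, by
            rw [(two_ends (ok.Ecard w hwP) huw x1 x2.symm a1).resolve_left a2,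
              (X.st u hu).out y q2, y2]⟩, fun q => absurd x5 q⟩
        exact X.em_mem2 aP nA z1 this.1 this.2)
    have k3 : ((S.gr w0).filter (fun w => w ∈ S.AqM c0 T)).card ≤ S.p - S.L := by
      unfold cC at x6
      omega
    unfold cC at x6
    omega
  · by_cases hne : ((S.gr w0).filter (fun w => w ∈ S.AqM c0 T)).Nonempty
    swap
    · rw [not_nonempty_iff_eq_empty.mp hne]; simp
    have star : ∀ a ∈ S.gr w0, a ∈ S.AqM c0 T → ∃ u ∈ T.R, ∃ γ, S.Uq (T.col u) u a γ ∧ γ ≠ c0 u ∧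
        S.BlkS (S.p - 1) (T.col u) u a γ ∧ S.p - 1 ≤ S.sC c0 (S.gr w0) γ ∧ ¬ S.sees c0 a γ := by
      intro a ha h1
      obtain ⟨_, v, hv, h3⟩ := mem_filter.mp h1
      obtain ⟨γ', a1, a2, a3, q⟩ := X.aq_facts hv h3
      rcases q with q | q
      · exact ⟨v, hv, γ', a1, a2, q.1, ok.eqv w0 hw0 a ha ▸ q.2.1, q.2.2⟩
      · exact absurd ⟨a, ha, v, hv, γ', a1, a2, a3, q⟩ hC
    obtain ⟨w, hw⟩ := hne
    obtain ⟨hw, hwA⟩ := mem_filter.mp hw
    obtain ⟨u, hu, γ, uq, gne, b1, b2, b3⟩ := star w hw hwA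
    have hg := ok.eqv w0 hw0 w hw
    have hwP := ok.sub w0 hw0 hw
    have only : ∀ a ∈ S.gr w0, a ∈ S.AqM c0 T → a = w := by
      intro a ha h1
      by_contra hne
      obtain ⟨_, _, γ', uq', _, _, c2, c3⟩ := star a ha h1
      by_cases e : γ' = γ
      · subst e
        have k1 := filt_erase_eq (g := S.gr w0) (p := fun t => S.sees c0 t γ') b3
        have k2 := filt_erase_eq (g := (S.gr w0).erase w) (p := fun t => S.sees c0 t γ') c3
        have k3 := card_filter_le (((S.gr w0).erase w).erase a) (fun t => S.sees c0 t γ')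
        have k4 := card_erase_of_mem hw
        have k5 := card_erase_of_mem (mem_erase.mpr ⟨hne, ha⟩)
        unfold sC at b2
        omega
      · have := filt_add (g := S.gr w0) (p := fun a => S.sees c0 a γ')
          (q := fun a => S.sees c0 a γ) (r := fun a => S.cls c0 a γ' γ)
          (fun t _ p q => sees_two p q e)
        have k := X.hm.val.cl w0 hw0 γ' uq'.1.2.1 γ uq.1.2.1
        unfold sC at b2 c2
        unfold cC at k
        omega
    have k1 : ((S.gr w0).filter (fun w => w ∈ S.AqM c0 T)).card ≤ 1 :=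
      card_le_one.mpr (fun a ha b hb => by
        rw [only a (mem_filter.mp ha).1 (mem_filter.mp ha).2,
          only b (mem_filter.mp hb).1 (mem_filter.mp hb).2])
    have k5 := filt_erase_le (S.gr w0) w (fun a => a ∈ S.Em2 c0 T)
    have fin : ∀ a ∈ (S.gr w0).erase w, ∀ z ∈ S.E a, T.col u z = γ → S.Head (T.col u) u w γ z →
        a ∈ S.Em2 c0 T := by
      intro a ha z z1 z2 hd
      obtain ⟨a1, a2⟩ := mem_erase.mp ha
      have := X.head_node2 hu hwP uq gne z2 hd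
      exact X.em_mem2 (ok.sub w0 hw0 a2) (fun q => a1 (only a a2 q)) z1 this.1 this.2
    by_cases q : S.BlkC (S.L - 2) (T.col u) u w γ
    · have q' := q
      obtain ⟨x, x1, x2, x3, x4⟩ := q'
      rw [hg] at x4
      have huw : u ∈ S.E w := (uq.1.2.2.resolve_left
        (fun k => (X.st u hu).min.val.unc w hwP (k ▸ uq.1.2.1))).2.1
      have k2 := filt_mono (g := (S.gr w0).erase w) (p := fun a => S.cls (T.col u) a γ (T.col u x))
        (q := fun a => a ∈ S.Em2 c0 T) (fun a ha h => by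
          obtain ⟨z, z1, y, y1, zy, z2, y2⟩ := h
          exact fin a ha z z1 z2 ⟨a, hg ▸ (mem_erase.mp ha).2, (mem_erase.mp ha).1, z1, z2,
            fun x' a1 a2 _ _ => ⟨y, y1, zy.symm, by
              rw [(two_ends (ok.Ecard w hwP) huw x1 x2.symm a1).resolve_left a2, y2]⟩,
            fun k => absurd q k⟩)
      unfold cC at x4
      omega
    · have k2 : (S.gr w0).erase w ⊆ ((S.gr w0).erase w).filter (fun a => a ∈ S.Em2 c0 T) ∪
          ((S.gr w0).filter (fun a => S.cls (T.col u) a γ γ) ∪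
            ((S.gr w0).erase w).filter (fun a => ¬ S.sees (T.col u) a γ)) := by
        intro a ha
        by_contra hn
        simp only [mem_union, mem_filter, not_or, ha, true_and, (mem_erase.mp ha).2, not_not] at hn
        obtain ⟨z, z1, z2⟩ := hn.2.2
        exact hn.1 (fin a ha z z1 z2 ⟨a, hg ▸ (mem_erase.mp ha).2, (mem_erase.mp ha).1, z1, z2,
          fun x' a1 a2 a3 a4 => absurd ⟨x', a1, a2, a3, a4⟩ q,
          fun _ y y1 y2 y3 => hn.2.1 ⟨z, z1, y, y1, y2.symm, z2, y3⟩⟩)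
      have k3 := card_le_card k2
      have k6 := card_union_le (((S.gr w0).erase w).filter (fun a => a ∈ S.Em2 c0 T))
        ((S.gr w0).filter (fun a => S.cls (T.col u) a γ γ) ∪
            ((S.gr w0).erase w).filter (fun a => ¬ S.sees (T.col u) a γ))
      have k7 := card_union_le ((S.gr w0).filter (fun a => S.cls (T.col u) a γ γ))
            (((S.gr w0).erase w).filter (fun a => ¬ S.sees (T.col u) a γ))
      have k8 := card_filter_add_card_filter_not (s := (S.gr w0).erase w)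
        (fun a => S.sees (T.col u) a γ)
      have k9 := (X.st u hu).min.val.cl w0 hw0 γ uq.1.2.1 γ uq.1.2.1
      have k10 := b1.2
      have k11 := card_erase_of_mem hw
      rw [hg] at k10
      unfold sC at k10
      unfold cC at k9
      omega

end Sys

end Pool.Agent.Lib.MP_12eaff_co.BK
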