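import Mathlib
import Pool.Agent.Lib.MP_12eaff_co.BK.Grp2
import Pool.Agent.Lib.MP_12eaff_co.BK.Count

set_option autoImplicit false
set_option linter.unusedSectionVars false
set_option linter.unusedVariables false

namespace Pool.Agent.Lib.MP_12eaff_co.BK

open Finset
open scoped Classical

variable {V : Type} [Fintype V]

namespace Sys

variable {S : Sys V} {c0 : V → ℕ} {T : Tr V} {k : ℕ}

theorem by_groups2 (ok : S.OK) {A B : Finset V} (hA : A ⊆ S.P) (hB : B ⊆ S.P) {a b : ℕ}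
    (h : ∀ w ∈ S.P, a * ((S.gr w).filter (fun x => x ∈ A)).card ≤
      b * ((S.gr w).filter (fun x => x ∈ B)).card) : a * A.card ≤ b * B.card := by
  have key : ∀ {C : Finset V}, C ⊆ S.P → C.card =
      ∑ g ∈ S.P.image S.gr, (g.filter (fun a => a ∈ C)).card := by
    intro C hC
    rw [card_eq_sum_card_fiberwise (f := S.gr) (t := S.P.image S.gr)
      (fun a ha => mem_coe.mpr (mem_image_of_mem _ (hC ha)))]
    refine sum_congr rfl (fun g hg => ?_)
    obtain ⟨w, hw, rfl⟩ := mem_image.mp hg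
    congr 1
    ext a
    simp only [mem_filter]
    exact ⟨fun q => ⟨q.2 ▸ ok.mem a (hC q.1), q.1⟩, fun q => ⟨q.2, ok.eqv w hw a q.1⟩⟩
  rw [key hA, key hB, mul_sum, mul_sum]
  refine sum_le_sum (fun g hg => ?_)
  obtain ⟨w, hw, rfl⟩ := mem_image.mp hg
  exact h w hw

theorem g_zin : ∑ s ∈ T.R.filter (fun s => ¬ S.Big c0 T k s),
    (T.R.filter (fun e => s ∈ S.Zin c0 T k e)).card ≤ ∑ e ∈ T.R, (S.Zin c0 T k e).card :=
  swap_sum _ _ _

theorem Ctx2.g_tr (X : Ctx2 S c0 T) :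
    ∑ u ∈ T.R, (S.Tr2 c0 T u).card ≤ ∑ u ∈ T.R.filter T.Inner, 2 := by
  have h := sum_le_sum_rel (s := T.R) (t := (T.R.filter T.Inner).erase T.r) (F := S.Tr2 c0 T)
    (G := fun x => S.NU (T.col (T.par x)) (T.par x)) (fun y z x d => d = y ∧ c0 z = c0 x)
    (by
      intro y _ z hz
      obtain ⟨_, _, x, x1, x2, x3, x4, x5⟩ := mem_filter.mp hz
      exact ⟨x, mem_erase.mpr ⟨x2, mem_filter.mpr ⟨x1, x3⟩⟩, y, x4, rfl, x5⟩)
    (by
      intro y _ z hz y' _ z' hz' x d h h'
      have e : y = y' := h.1.symm.trans h'.1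
      subst e
      refine ⟨rfl, ?_⟩
      by_contra q
      exact (mem_filter.mp hz').2.1.2.2.1 z (mem_filter.mp hz).2.1.1 q (h.2.trans h'.2.symm))
  refine le_trans h (le_trans (sum_le_sum (fun x hx =>
    X.NU_two (X.pt.parD x (mem_filter.mp (mem_erase.mp hx).2).1 (mem_erase.mp hx).1)))
    (sum_le_sum_of_subset (erase_subset _ _)))

theorem g_xo : ∑ u ∈ T.R.filter (S.Big c0 T k), (S.Xo c0 T k u).card ≤
    ∑ e ∈ T.R.filter (fun s => ¬ S.Big c0 T k s), (S.Xs c0 T k e).card := by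
  refine le_trans (le_of_eq (sum_congr rfl (fun u _ => ?_))) (swap_sum _ _ _)
  rw [filter_filter]; rfl

theorem g_ch : ∑ u ∈ T.R.filter (S.Big c0 T k), (S.Ch c0 T k u).card ≤
    ∑ e ∈ T.R.filter (fun s => ¬ S.Big c0 T k s), (S.PH c0 T k e).card := by
  refine le_trans (le_of_eq (sum_congr rfl (fun u _ => ?_))) (swap_sum _ _ _)
  rw [filter_filter]; rfl

theorem Ctx2.g_tv (X : Ctx2 S c0 T) :
    ∑ u ∈ T.R, (S.TV T u).card ≤ ∑ x ∈ T.R.filter T.Inner, (S.Ts T x).card :=
  sum_le_sum_rel (fun u e x d => x = e ∧ d = u)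
    (fun u hu e he => by
      obtain ⟨a, b, c⟩ := mem_filter.mp he
      have a' := mem_nb.mp a
      exact ⟨e, mem_filter.mpr ⟨(X.anc u hu e b).1, X.inner_of hu b a'.ne'⟩, u,
        mem_filter.mpr ⟨mem_filter.mpr ⟨X.desc_NU hu b a'.symm (Ne.symm c), (X.st u hu).nP,
          X.antisymm hu b a'.ne'⟩, hu, b⟩, rfl, rfl⟩)
    (fun _ _ _ _ _ _ _ _ _ _ h h' => ⟨h.2.symm.trans h'.2, h.1.symm.trans h'.1⟩)

theorem Ctx2.g_ex (X : Ctx2 S c0 T) :
    ∑ u ∈ T.R, (S.Ex T u).card ≤ ∑ x ∈ T.R.filter T.Inner, ((S.N2 T x).card +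
      (S.PLi c0 T x).card + (S.Aq c0 T x).card + (S.Tp c0 T x).card) := by
  refine le_trans (sum_le_sum_rel (t := T.R.filter T.Inner)
    (G := fun x => (nb S.G x).filter (fun e => e ∈ S.P))
    (fun u w x d => d = w ∧ x ∈ S.E w ∧ x ≠ u) (fun u hu w hw => ?_) ?_)
    (sum_le_sum (fun x _ => inv_card x))
  · obtain ⟨_, b, _, x, x1, x2, x3⟩ := mem_filter.mp hw
    have x3' := x3
    obtain ⟨z, z1, z2, z3⟩ := x3'
    exact ⟨x, mem_filter.mpr ⟨z3 ▸ X.pt.parD z z1 z2, x3⟩, w,
      mem_filter.mpr ⟨mem_nb.mpr (X.ok.Eadj w b x x1).symm, b⟩, rfl, x1, x2⟩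
  · intro u _ w hw u' _ w' hw' x d h h'
    have e : w = w' := h.1.symm.trans h'.1
    subst e
    obtain ⟨_, b, c, _⟩ := mem_filter.mp hw
    exact ⟨((two_ends (X.ok.Ecard w b) h.2.1 c h.2.2 (mem_filter.mp hw').2.2.1).resolve_left
      h'.2.2.symm).symm, rfl⟩

theorem Ctx2.g_tp (X : Ctx2 S c0 T) :
    ∑ u ∈ T.R, (S.Tp c0 T u).card ≤ ∑ x ∈ T.R.filter (fun x => T.Inner x ∧ S.Hd c0 T x), 1 := by
  refine le_trans (sum_le_sum_rel (t := T.R.filter (fun x => T.Inner x ∧ S.Hd c0 T x))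
    (G := fun x => {x}) (fun u w x _ => w ∈ S.P ∧ u ∈ S.E w ∧ x ∈ S.E w ∧ x ≠ u ∧
      ∃ w' ∈ S.gr w, S.Uq (T.col (T.par x)) (T.par x) w' (c0 x)) (fun u hu w hw => ?_) ?_)
    (by simp)
  · obtain ⟨a, b, x, x1, x2, x3, x4, x5, x6⟩ := X.tp_facts hu hw
    exact ⟨x, mem_filter.mpr ⟨x3, x4, x5⟩, x, mem_singleton_self _, a, b, x1, x2, x6⟩
  · rintro u _ w _ u' _ w2 _ x _ ⟨a1, a2, a3, a4, s, a5, a6⟩ ⟨b1, b2, b3, b4, t, b5, b6⟩
    have e : s = t := b6.2 s a6.1
    subst e
    have e2 : w2 = w := by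
      by_contra q
      refine X.ok.Edisj w a1 w2 ?_ q x a3 b3
      rw [← X.ok.eqv w a1 s a5, X.ok.eqv w2 b1 s b5]
      exact X.ok.mem w2 b1
    subst e2
    exact ⟨((two_ends (X.ok.Ecard w2 a1) a3 a2 a4 b2).resolve_left b4.symm).symm, rfl⟩

theorem Ctx2.g_aq (X : Ctx2 S c0 T) (hp : S.p = 11) (hL : S.L = 7) :
    7 * ∑ u ∈ T.R, (S.Aq c0 T u).card ≤
      8 * ∑ v ∈ T.R.filter (fun v => S.Hd c0 T v ∨ T.Inner v), ((S.N2 T v).card +
        (S.PLi c0 T v).card + (S.Tp c0 T v).card) := by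
  have h := sum_le_sum_rel (s := T.R) (t := S.AqM c0 T) (F := S.Aq c0 T) (G := S.E)
    (fun u w w' u' => w' = w ∧ u' = u)
    (by
      intro u hu w hw
      obtain ⟨_, _, _, h, _⟩ := X.aq_facts hu hw
      exact ⟨w, mem_filter.mpr ⟨(mem_filter.mp (mem_filter.mp hw).1).2.1, u, hu, hw⟩, u, h, rfl, rfl⟩)
    (fun u _ w _ u' _ w' _ c d h h' => ⟨h.2.symm.trans h'.2, h.1.symm.trans h'.1⟩)
  have h2 := sum_le_card_nsmul (S.AqM c0 T) (fun w => (S.E w).card) 2
    (fun w hw => X.ok.Ecard w (mem_filter.mp hw).1)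
  have h3 : 7 * (S.AqM c0 T).card ≤ 4 * (S.Em2 c0 T).card :=
    by_groups2 X.ok (filter_subset _ _) (filter_subset _ _) (fun w hw => X.group_emit2 hp hL hw)
  have h4 : (S.Em2 c0 T).card ≤ ∑ v ∈ T.R.filter (fun v => S.Hd c0 T v ∨ T.Inner v),
      ((S.N2 T v).card + (S.PLi c0 T v).card + (S.Tp c0 T v).card) := by
    refine le_trans (card_le_sum_rel (t := T.R.filter (fun v => S.Hd c0 T v ∨ T.Inner v))
      (G := fun v => S.N2 T v ∪ S.PLi c0 T v ∪ S.Tp c0 T v) (fun w hw => ?_))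
      (sum_le_sum (fun v _ => le_trans (card_union_le _ _)
        (Nat.add_le_add_right (card_union_le _ _) _)))
    obtain ⟨_, v, v1, v2, v3⟩ := mem_filter.mp hw
    exact ⟨v, mem_filter.mpr ⟨v1, v2⟩, v3⟩
  simp only [smul_eq_mul] at h2
  omega

theorem Ctx2.cl_NU (X : Ctx2 S c0 T) {u : V} (hu : u ∈ T.R) (z : V) :
    ((S.NU (T.col u) u).filter (fun y => y ∈ S.Cl2 c0 T z)).card ≤ 1 := by
  rw [card_le_one]
  intro a ha b hb
  by_contra hab
  obtain ⟨a1, a2⟩ := mem_filter.mp ha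
  obtain ⟨b1, b2⟩ := mem_filter.mp hb
  obtain ⟨k1, k2⟩ := X.NU_vis hu a1 b1 hab (mem_Cl2.mp a2).g2.2.1 (mem_Cl2.mp b2).g2.2.1
  exact (X.st u hu).min.val.prop a b (X.Cl_clq z a a2 b b2 hab) k2 k1

theorem Ctx2.g_in (X : Ctx2 S c0 T) (j : ℕ) :
    ∑ u ∈ T.R.filter T.Inner, j ≤ ∑ x ∈ T.R,
      (2 + if S.Hd c0 T x then j else j + 2 - (S.Cl2 c0 T x).card) := by
  let r : V → V → Prop := fun u y => ∃ x ∈ T.R, x ≠ T.r ∧ T.par x = u ∧
    S.Mv (T.col u) u x ∧ S.Cn c0 T y x ∧ y ∉ S.NU (T.col u) u ∧ y ≠ u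
  let df : V → ℕ := fun x => if S.Hd c0 T x then j else j + 2 - (S.Cl2 c0 T x).card
  have : Nonempty V := ⟨T.r⟩
  have ex : ∀ u, T.Inner u → ∃ z, z ∈ T.R ∧ z ≠ T.r ∧ T.par z = u := fun u h => h
  choose! ch hch using ex
  have h1 : ∀ u ∈ T.R.filter T.Inner, j ≤ (T.R.bipartiteAbove r u).card + df (ch u) := by
    intro u hu
    obtain ⟨uR, uI⟩ := mem_filter.mp hu
    obtain ⟨x1, x2, x3⟩ := hch u uI
    simp only [df]
    split_ifs with hd
    · omega
    · have mv := X.par_mv x1 x2 hd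
      rw [x3] at mv
      have := card3 (s := S.Cl2 c0 T (ch u)) (a := T.R.bipartiteAbove r u) (b := {u})
        (c := (S.NU (T.col u) u).filter (fun y => y ∈ S.Cl2 c0 T (ch u))) (fun y hy => by
          by_cases q1 : y = u
          · exact Or.inr (Or.inl (mem_singleton.mpr q1))
          by_cases q2 : y ∈ S.NU (T.col u) u
          · exact Or.inr (Or.inr (mem_filter.mpr ⟨q2, hy⟩))
          · rw [mem_Cl2] at hy
            exact Or.inl (mem_bipartiteAbove _ |>.mpr ⟨hy.r1, _, x1, x2, x3, mv, hy, q2, q1⟩))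
      have := X.cl_NU uR (ch u)
      rw [card_singleton] at *
      omega
  have h2 : ∀ y ∈ T.R, ((T.R.filter T.Inner).bipartiteBelow r y).card ≤ 2 := by
    intro y hy
    set C := (T.R.filter T.Inner).bipartiteBelow r y with hC
    by_cases hne : C.Nonempty
    swap
    · rw [not_nonempty_iff_eq_empty.mp hne]; simp
    obtain ⟨u1, h1, h2⟩ := exists_min_image _ T.t hne
    obtain ⟨u1B, x, x1, x2, x3, x4, x5, x6, x7⟩ := (mem_bipartiteBelow _).mp h1
    have u1R := (mem_filter.mp u1B).1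
    have yA : y ∉ T.A u1 := by
      intro q
      have a := (X.good_R hy x5.g1).2
      rw [x3] at a
      have := (X.anc u1 u1R y q).2.2.resolve_left x7
      omega
    have adj := X.lem2_mv u1R (x3 ▸ X.pt.notA x x1 x2) x4 x5 yA
    have mv := X.mv_of u1R adj (X.st y hy).nP x6
    have : C ⊆ insert u1
        (((S.NU (T.col u1) u1).filter (fun z => z ∈ S.Cl2 c0 T y)).image T.par) := by
      intro u hu
      by_cases e : u = u1
      · rw [e]; exact mem_insert_self _ _
      · obtain ⟨uB, z, z1, z2, z3, z4, z5, z6, z7⟩ := (mem_bipartiteBelow _).mp hu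
        have uR := (mem_filter.mp uB).1
        have lt : T.t u1 < T.t u :=
          lt_of_le_of_ne (h2 u hu) (fun q => e (X.pt.tinj u1 u1R u uR q).symm)
        have lt2 := X.pt.tlt z z1 z2
        rw [z3] at lt2
        have zA : z ∉ T.A u1 := X.notA_of_lt u1R (by omega)
        have adj2 := X.lem2_mv u1R yA mv z5.symm zA
        refine mem_insert_of_mem (mem_image.mpr ⟨z, mem_filter.mpr ⟨?_, mem_Cl2.mpr z5.symm⟩, z3⟩)
        by_contra q
        have := (X.pt.clos u1 u1R z zA (Or.inl (X.mv_of u1R adj2 (X.st z z1).nP q))).2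
        rw [z3] at this
        omega
    have k := le_trans (card_le_card this) (card_insert_le _ _)
    have k2 : (((S.NU (T.col u1) u1).filter (fun z => z ∈ S.Cl2 c0 T y)).image T.par).card ≤ _ :=
      card_image_le
    have := X.cl_NU u1R y
    omega
  have h3 : ∑ u ∈ T.R.filter T.Inner, df (ch u) ≤ ∑ x ∈ T.R, df x := by
    rw [← sum_image (s := T.R.filter T.Inner) (g := ch) (f := df) (fun a ha b hb e => by
      rw [← (hch a (mem_filter.mp ha).2).2.2, e, (hch b (mem_filter.mp hb).2).2.2])]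
    refine sum_le_sum_of_subset (fun x hx => ?_)
    obtain ⟨u, hu, rfl⟩ := mem_image.mp hx
    exact (hch u (mem_filter.mp hu).2).1
  refine le_trans (sum_le_sum h1) ?_
  rw [sum_add_distrib, sum_add_distrib, sum_card_bipartiteAbove_eq_sum_card_bipartiteBelow]
  exact Nat.add_le_add (sum_le_sum h2) h3

theorem Ctx2.false (X : Ctx2 S c0 T) (p4 : S.P4n k) (hp : S.p = 11) (hL : S.L = 7)
    (hk : 46 ≤ k) (hD : k + 9 = S.D) : False := by
  have g1 := g_zin (S := S) (c0 := c0) (T := T) (k := k)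
  have g2 := X.g_tr
  have g3 := swap_sum (T.R.filter (fun s => ¬ S.Big c0 T k s)) T.R (S.Tr2 c0 T)
  have g4 := g_xo (S := S) (c0 := c0) (T := T) (k := k)
  have g5 := X.g_tv
  have g6 := g_ch (S := S) (c0 := c0) (T := T) (k := k)
  have g7 := X.g_ex
  have g8 := X.g_tp
  have g9 := X.g_aq hp hL
  have g10 := X.g_in 43
  rw [sum_filter] at g1 g2 g3 g5 g7 g8 g9 g10
  rw [sum_filter, sum_filter] at g4 g6
  have key : ∀ u ∈ T.R,
      16 * (S.Zin c0 T k u).card + 32 * (if T.Inner u then 2 else 0) + 16 * (S.Tr2 c0 T u).card +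
      44 * (if ¬ S.Big c0 T k u then (S.Xs c0 T k u).card else 0) +
      60 * (if T.Inner u then (S.Ts T u).card else 0) +
      16 * (if ¬ S.Big c0 T k u then (S.PH c0 T k u).card else 0) +
      24 * (if T.Inner u then (S.N2 T u).card + (S.PLi c0 T u).card + (S.Aq c0 T u).card +
        (S.Tp c0 T u).card else 0) +
      112 * (if T.Inner u ∧ S.Hd c0 T u then 1 else 0) +
      56 * (if S.Hd c0 T u ∨ T.Inner u then (S.N2 T u).card + (S.PLi c0 T u).card +
        (S.Tp c0 T u).card else 0) +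
      6 * (2 + if S.Hd c0 T u then 43 else 43 + 2 - (S.Cl2 c0 T u).card) +
      (if ¬ S.Big c0 T k u then 1 else 0) ≤
      16 * (if ¬ S.Big c0 T k u then (T.R.filter (fun e => u ∈ S.Zin c0 T k e)).card else 0) +
      32 * (S.Tr2 c0 T u).card +
      16 * (if ¬ S.Big c0 T k u then (T.R.filter (fun e => u ∈ S.Tr2 c0 T e)).card else 0) +
      44 * (if S.Big c0 T k u then (S.Xo c0 T k u).card else 0) + 60 * (S.TV T u).card +
      16 * (if S.Big c0 T k u then (S.Ch c0 T k u).card else 0) + 24 * (S.Ex T u).card +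
      112 * (S.Tp c0 T u).card + 49 * (S.Aq c0 T u).card + 6 * (if T.Inner u then 43 else 0) := by
    intro u hu
    have a1 := N12 (S := S) (T := T) u
    have a2 := slots (S := S) (c0 := c0) (T := T) (k := k) u
    have a3 := PNH (S := S) (c0 := c0) (T := T) (k := k) u
    obtain ⟨a4, a5⟩ := X.pli hu
    have a6 := inv_card (S := S) (c0 := c0) (T := T) u
    have a7 := Ex_card (S := S) (T := T) u
    have a8 := X.Cp_card hu
    have a9 := X.Ce_card hu
    have a10 := Tri_card (S := S) (c0 := c0) (T := T) u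
    have a11 := X.zin_card (k := k) hu
    have a12 := X.NU_two hu
    have tr : ¬ S.Hd c0 T u → (S.N1 T u).card + (S.N2 T u).card + (S.Tri c0 T u).card ≤ 2 :=
      fun hd => by rcases X.tri_ref hu hd with q | q <;> omega
    obtain ⟨df, e, d1⟩ : ∃ df, 43 + 2 - (S.Cl2 c0 T u).card = df ∧
        ((df = 0 ∧ 45 ≤ (S.Cl2 c0 T u).card) ∨ df + (S.Cl2 c0 T u).card = 45) :=
      ⟨_, rfl, by omega⟩
    rw [e]
    by_cases big : S.Big c0 T k u
    · have b1 := X.emit p4 (by omega) hu big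
      have hd := (X.big_mv hu (le_trans (by omega) big)).2.1
      have b2 := a5 hd
      have b3 := tr hd
      have b4 : df = 0 := by
        have : k ≤ (S.Cl2 c0 T u).card := big
        omega
      by_cases inn : T.Inner u
      · simp only [big, hd, inn, not_true, if_true, if_false, and_false, or_true]
        linarith
      · have b5 := X.ch_inner (k := k) inn
        simp only [big, hd, inn, not_true, if_true, if_false, and_false, or_false]
        linarith
    · have b1 := X.nb_split2 hu big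
      have b2 := X.z2_card hu
      have b3 := (X.NU_le hu).1
      have b4 : (S.Cl2 c0 T u).card + 1 ≤ k := not_le.mp big
      by_cases hd : S.Hd c0 T u
      · have b5 := X.head_small hd
        by_cases inn : T.Inner u
        · simp only [big, hd, inn, not_false_eq_true, if_true, if_false, and_true, or_true]
          linarith
        · simp only [big, hd, inn, not_false_eq_true, if_true, if_false, and_true, or_false]
          linarith
      · have b5 := a5 hd
        have b6 := tr hd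
        have b7 : (S.Xs c0 T k u).card ≤ 1 ∨ (S.Cl2 c0 T u).card ≤ 15 := by
          by_cases q : S.D + 7 ≤ (S.Cl2 c0 T u).card + k
          · exact Or.inl (X.xs_pair hu q)
          · omega
        by_cases inn : T.Inner u
        · simp only [big, hd, inn, not_false_eq_true, if_true, if_false, and_false, or_true]
          rcases d1 with ⟨d1, d2⟩ | d1 <;> rcases b7 with b7 | b7 <;> linarith
        · simp only [big, hd, inn, not_false_eq_true, if_true, if_false, and_false, or_false]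
          rcases d1 with ⟨d1, d2⟩ | d1 <;> rcases b7 with b7 | b7 <;> linarith
  have tot := sum_le_sum key
  simp only [sum_add_distrib, ← mul_sum] at tot g7 g9 g10
  have pos : 0 < ∑ u ∈ T.R, (if ¬ S.Big c0 T k u then 1 else 0) := by
    refine lt_of_lt_of_le ?_ (single_le_sum (fun _ _ => Nat.zero_le _) X.pt.rR)
    rw [if_pos]
    · omega
    · unfold Big
      rw [X.root_small, card_empty]
      omega
  linarith

end Sys

end Pool.Agent.Lib.MP_12eaff_co.BK
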