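import Mathlib
import Pool.Agent.Lib.MP_12eaff_co.BK.Defs
import Pool.Agent.Lib.MP_12eaff_co.BK.Greedy

set_option autoImplicit false

namespace Pool.Agent.Lib.MP_12eaff_co.BK

open Finset
open scoped Classical

variable {V : Type} [Fintype V] {G : SimpleGraph V} {D : ℕ}

namespace Tight

theorem le_dX {x1 x2 v : V} (S : Finset V)
    (h : ∀ y ∈ S, G.Adj v y ∧ (y = x1 ∨ G.Adj x1 y) ∧ (y = x2 ∨ G.Adj x2 y)) :
    S.card ≤ dX G x1 x2 v :=
  card_le_card fun y hy => mem_filter.mpr ⟨mem_nb.mpr (h y hy).1, (h y hy).2⟩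

theorem mem_uni {K : Finset V} {x : V} : x ∈ Uni G K ↔ x ∈ K ∧ ∀ y ∈ K, y ≠ x → G.Adj x y :=
  mem_filter

omit [Fintype V] in
theorem clq_insert {Q : Finset V} {a : V} (hQ : IsClq G Q) (h : ∀ q ∈ Q, G.Adj a q) :
    IsClq G (insert a Q) := by
  intro x hx y hy hxy
  rcases mem_insert.mp hx with rfl | hx' <;> rcases mem_insert.mp hy with rfl | hy'
  · exact absurd rfl hxy
  · exact h y hy'
  · exact (h x hx').symm
  · exact hQ x hx' y hy' hxy

omit [Fintype V] in
theorem eq_or_adj {Q : Finset V} (hQ : IsClq G Q) {x y : V} (hx : x ∈ Q) (hy : y ∈ Q) :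
    y = x ∨ G.Adj x y :=
  (eq_or_ne y x).imp_right fun h => hQ x hx y hy h.symm

/-- A set of `D + 1` vertices with many universal members does not exist. -/
theorem no_big (ts : TSst G D) (e3 : E3st G D) (ra : RAst G D) {W U : Finset V}
    (hW : W.card = D + 1) (hUW : U ⊆ W) (hU : ∀ x ∈ U, ∀ y ∈ W, y ≠ x → G.Adj x y)
    (ht : 2 * D + 4 ≤ 3 * U.card) (hD : 20 ≤ D) {u q : V} (hu : u ∈ W) (hq : q ∈ W) (huq : u ≠ q)
    (hn : ¬ G.Adj u q) : False := by
  obtain ⟨x1, h1, x2, h2, h12⟩ := one_lt_card.mp (show 1 < U.card by omega)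
  set N : V → V → Prop := fun a b => a ∈ W ∧ b ∈ W ∧ a ≠ b ∧ ¬ G.Adj a b with hN
  have sy : ∀ {a b}, N a b → N b a := fun h => ⟨h.2.1, h.1, h.2.2.1.symm, fun k => h.2.2.2 k.symm⟩
  have nu : ∀ {a b}, N a b → ∀ x ∈ U, G.Adj x a := fun {a b} h x hx =>
    hU x hx a h.1 fun e => h.2.2.2 (e ▸ hU x hx b h.2.1 (e ▸ h.2.2.1.symm))
  have ea : ∀ x ∈ U, ∀ y ∈ U, y = x ∨ G.Adj x y := fun x hx y hy =>
    (eq_or_ne y x).imp_right (hU x hx y (hUW hy))
  have dx : ∀ {a b}, N a b → U.card ≤ dX G x1 x2 a := fun h =>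
    le_dX U fun y hy => ⟨(nu h y hy).symm, ea _ h1 y hy, ea _ h2 y hy⟩
  have a12 : G.Adj x1 x2 := hU x1 h1 x2 (hUW h2) h12.symm
  have t2 : ∀ {a b c d}, N a b → N c d → a ≠ c → a ≠ d → b ≠ c → b ≠ d → False :=
    fun {a b c d} k l e1 e2 e3' e4 => by
      have := dx k; have := dx (sy k); have := dx l; have := dx (sy l)
      exact ts x1 x2 a b c d a12 (nu k _ h1) (nu (sy k) _ h1) (nu l _ h1) (nu (sy l) _ h1)
        (nu k _ h2) (nu (sy k) _ h2) (nu l _ h2) (nu (sy l) _ h2) k.2.2.1 l.2.2.1 e1 e2 e3' e4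
        k.2.2.2 l.2.2.2 (by omega) (by omega)
  have t3 : ∀ {a b c}, N a b → N a c → N b c → False := fun {a b c} k l m => by
    have := dx k; have := dx m; have := dx (sy m)
    exact e3 x1 x2 a b c a12 (nu k _ h1) (nu m _ h1) (nu (sy m) _ h1) (nu k _ h2) (nu m _ h2)
      (nu (sy m) _ h2) k.2.2.1 l.2.2.1 m.2.2.1 k.2.2.2 l.2.2.2 m.2.2.2 (by omega)
  have key : ∀ {a b}, N a b → ∃ c, N b c ∧ c ≠ a := fun {a b} k => by
    by_contra hc
    push Not at hc
    have hcl : IsClq G (W.erase a) := by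
      intro c hc' d hd hcd
      obtain ⟨c1, c2⟩ := mem_erase.mp hc'
      obtain ⟨d1, d2⟩ := mem_erase.mp hd
      by_contra hcd'
      have l : N c d := ⟨c2, d2, hcd, hcd'⟩
      refine t2 k l c1.symm d1.symm (fun e => d1 (hc d (e ▸ l))) fun e => c1 (hc c (e ▸ sy l))
    have h4 := ra _ a hcl (by rw [card_erase_of_mem k.1]; omega) (notMem_erase _ _)
    have : U.card ≤ ((W.erase a).filter (G.Adj a)).card := card_le_card fun y hy =>
      mem_filter.mpr ⟨mem_erase.mpr ⟨(nu k y hy).ne, hUW hy⟩, (nu k y hy).symm⟩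
    omega
  have k : N u q := ⟨hu, hq, huq, hn⟩
  obtain ⟨c, k1, k2⟩ := key k
  obtain ⟨d, l1, l2⟩ := key (sy k)
  by_cases e : c = d
  · exact t3 k (e ▸ l1) k1
  · exact t2 k1 l1 huq.symm l2.symm k2 e

end Tight

open Tight

theorem rg (h : MC G D) (ts : TSst G D) (e3 : E3st G D) (ra : RAst G D) {t : ℕ}
    (ht : 2 * D + 4 ≤ 3 * t) (hD : 20 ≤ D) : RGst G D t := by
  intro K z ⟨hK, hU⟩ hz
  by_contra h5
  by_cases hc : IsClq G K
  · exact h5 ((card_le_card (filter_subset_filter _ (filter_subset _ _))).trans (ra K z hc hK hz))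
  unfold IsClq at hc
  push Not at hc
  obtain ⟨u, hu, q, hq, huq, hn⟩ := hc
  by_cases hA : ∀ x ∈ Uni G K, G.Adj z x
  · refine no_big ts e3 ra (W := insert z K) (U := Uni G K) (by rw [card_insert_of_notMem hz, hK])
      ((filter_subset _ _).trans (subset_insert _ _)) (fun x hx y hy hyx => ?_) (by omega) hD
      (mem_insert_of_mem hu) (mem_insert_of_mem hq) huq hn
    rcases mem_insert.mp hy with rfl | hy
    · exact (hA x hx).symm
    · exact (mem_uni.mp hx).2 y hy hyx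
  push Not at hA
  obtain ⟨q', hq', hn'⟩ := hA
  obtain ⟨x1, h1, x2, h2, h12⟩ := one_lt_card.mp
    (show 1 < ((Uni G K).filter (G.Adj z)).card by omega)
  obtain ⟨h1, z1⟩ := mem_filter.mp h1
  obtain ⟨h2, z2⟩ := mem_filter.mp h2
  have ea : ∀ x ∈ Uni G K, ∀ y ∈ K, y = x ∨ G.Adj x y := fun x hx y hy =>
    (eq_or_ne y x).imp_right ((mem_uni.mp hx).2 y hy)
  have au : ∀ x ∈ Uni G K, G.Adj x u := fun x hx => (ea x hx u hu).resolve_left fun e =>
    hn (e ▸ (mem_uni.mp hx).2 q hq (e ▸ huq.symm))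
  have aq : ∀ x ∈ Uni G K, G.Adj x q := fun x hx => (ea x hx q hq).resolve_left fun e =>
    hn (e ▸ ((mem_uni.mp hx).2 u hu (e ▸ huq)).symm)
  have kq := (mem_uni.mp hq').1
  have d1 := le_dX (G := G) (x1 := x1) (x2 := x2) (v := z) ((Uni G K).filter (G.Adj z))
    fun y hy => ⟨(mem_filter.mp hy).2, ea _ h1 y (mem_uni.mp (mem_filter.mp hy).1).1,
      ea _ h2 y (mem_uni.mp (mem_filter.mp hy).1).1⟩
  have d2 := le_dX (G := G) (x1 := x1) (x2 := x2) (v := q') (K.erase q')
    fun y hy => ⟨(mem_uni.mp hq').2 y (mem_erase.mp hy).2 (mem_erase.mp hy).1,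
      ea _ h1 y (mem_erase.mp hy).2, ea _ h2 y (mem_erase.mp hy).2⟩
  have d3 := le_dX (G := G) (x1 := x1) (x2 := x2) (v := u) (Uni G K)
    fun y hy => ⟨(au y hy).symm, ea _ h1 y (mem_uni.mp hy).1, ea _ h2 y (mem_uni.mp hy).1⟩
  have d4 := le_dX (G := G) (x1 := x1) (x2 := x2) (v := q) (Uni G K)
    fun y hy => ⟨(aq y hy).symm, ea _ h1 y (mem_uni.mp hy).1, ea _ h2 y (mem_uni.mp hy).1⟩
  rw [card_erase_of_mem kq] at d2
  have := h.deg z
  exact ts x1 x2 z q' u q ((mem_uni.mp h1).2 x2 (mem_uni.mp h2).1 h12.symm) z1.symm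
    ((ea _ h1 q' kq).resolve_left fun e => hn' (e ▸ z1)) (au _ h1) (aq _ h1) z2.symm
    ((ea _ h2 q' kq).resolve_left fun e => hn' (e ▸ z2)) (au _ h2) (aq _ h2)
    (fun e => hz (e ▸ kq)) huq (fun e => hz (e ▸ hu)) (fun e => hz (e ▸ hq)) (au _ hq').ne
    (aq _ hq').ne hn' hn (by omega) (by omega)

theorem dj (h : MC G D) {t : ℕ} (rg : RGst G D t) (ht : D + 7 ≤ 2 * t) : DJst G D t := by
  intro K K' v hK hK' hv hv'
  by_contra hne
  obtain ⟨z, z1, z2⟩ : ∃ z ∈ K', z ∉ K := by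
    by_contra hc
    push Not at hc
    exact hne (eq_of_subset_of_card_le hc (by rw [hK.1, hK'.1])).symm
  have h4 := rg K z hK z2
  have s : ∀ L : Finset V, v ∈ L → Uni G L ⊆ insert v (nb G v) := fun L hL x hx =>
    mem_insert.mpr ((eq_or_ne x v).imp_right fun e =>
      mem_nb.mpr ((mem_uni.mp hx).2 v hL e.symm).symm)
  have c1 := card_le_card (union_subset (s K hv) (s K' hv'))
  have c2 := card_insert_le v (nb G v)
  have c3 := h.deg v
  have c4 := card_union_add_card_inter (Uni G K) (Uni G K')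
  have c5 : (Uni G K ∩ Uni G K').card ≤ ((Uni G K).filter (G.Adj z)).card :=
    card_le_card fun x hx => mem_filter.mpr ⟨(mem_inter.mp hx).1,
      ((mem_uni.mp (mem_inter.mp hx).2).2 z z1 fun e =>
        z2 (e ▸ (mem_uni.mp (mem_inter.mp hx).1).1)).symm⟩
  have := hK.2
  have := hK'.2
  omega

theorem p4 (h : MC G D) (ts : TSst G D) (e3 : E3st G D) {k : ℕ} (hk : 2 * D + 11 ≤ 3 * k)
    (hD : 20 ≤ D) : P4st G D k := by
  intro z Q0 q1 q2 q3 hJ
  obtain ⟨Q, hQ, hmax⟩ := exists_max_image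
    (univ.filter fun Q : Finset V => IsClq G Q ∧ ∀ a ∈ Q, G.Adj z a) card
    ⟨Q0, mem_filter.mpr ⟨mem_univ _, q1, q3⟩⟩
  obtain ⟨cQ, zQ⟩ := (mem_filter.mp hQ).2
  have mx : ∀ Q', IsClq G Q' → (∀ a ∈ Q', G.Adj z a) → Q'.card ≤ Q.card := fun Q' a b =>
    hmax Q' (mem_filter.mpr ⟨mem_univ _, a, b⟩)
  have kQ : k ≤ Q.card := q2.trans (mx Q0 q1 q3)
  have nz : z ∉ Q := fun e => (zQ z e).ne rfl
  have cz := clq_insert cQ zQ
  have uQ := h.cf _ cz
  rw [card_insert_of_notMem nz] at uQ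
  have dz := h.deg z
  have sQ : Q ⊆ nb G z := fun a ha => mem_nb.mpr (zQ a ha)
  have ms : ∀ a, G.Adj z a → a ∉ Q → ∃ q ∈ Q, ¬ G.Adj a q := fun a a1 a2 => by
    by_contra hc
    push Not at hc
    have := mx _ (clq_insert cQ hc) (by simpa [a1] using zQ)
    rw [card_insert_of_notMem a2] at this
    omega
  have one : (Jset G (k - 4) z \ Q).card ≤ 1 := by
    refine card_le_one.mpr fun a ha b hb => ?_
    by_contra hab
    obtain ⟨ha, aQ⟩ := mem_sdiff.mp ha
    obtain ⟨hb, bQ⟩ := mem_sdiff.mp hb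
    obtain ⟨za, A, cA, kA, hA⟩ := mem_filter.mp ha
    obtain ⟨zb, B, cB, kB, hB⟩ := mem_filter.mp hb
    rw [mem_nb] at za zb
    have c1 := card_le_card (union_subset sQ (show A ⊆ nb G z from fun a ha =>
      mem_nb.mpr (hA a ha).2))
    have c2 := card_le_card (union_subset (inter_subset_left.trans sQ : Q ∩ A ⊆ _)
      (show B ⊆ nb G z from fun a ha => mem_nb.mpr (hB a ha).2))
    have c3 := card_union_add_card_inter Q A
    have c4 := card_union_add_card_inter (Q ∩ A) B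
    obtain ⟨x, hx⟩ := card_pos.mp (show 0 < (Q ∩ A ∩ B).card by omega)
    obtain ⟨hx, xB⟩ := mem_inter.mp hx
    obtain ⟨xQ, xA⟩ := mem_inter.mp hx
    have dQ : ∀ v q, q ∈ Q → (∀ y ∈ Q, y ≠ q → G.Adj v y) → k ≤ dX G z x v + 1 :=
      fun v q hq hv => by
        have := le_dX (G := G) (x1 := z) (x2 := x) (v := v) (Q.erase q) fun y hy =>
          ⟨hv y (mem_erase.mp hy).2 (mem_erase.mp hy).1, Or.inr (zQ y (mem_erase.mp hy).2),
            eq_or_adj cQ xQ (mem_erase.mp hy).2⟩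
        rw [card_erase_of_mem hq] at this
        omega
    have dq : ∀ q ∈ Q, k ≤ dX G z x q + 1 := fun q hq =>
      dQ q q hq fun y hy e => cQ q hq y hy e.symm
    have xa := (hA x xA).1.symm
    have xb := (hB x xB).1.symm
    have xq : ∀ c q, G.Adj x c → q ∈ Q → ¬ G.Adj c q → G.Adj x q := fun c q e1 e2 e3' =>
      (eq_or_adj cQ xQ e2).resolve_left fun e => e3' (e ▸ e1.symm)
    by_cases hs : ∃ q ∈ Q, ∃ q' ∈ Q, q ≠ q' ∧ ¬ G.Adj a q ∧ ¬ G.Adj b q'
    · obtain ⟨q, hq, q', hq', e, na, nb'⟩ := hs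
      have da := le_dX (G := G) (x1 := z) (x2 := x) (v := a) A fun y hy =>
        ⟨(hA y hy).1, Or.inr (hA y hy).2, eq_or_adj cA xA hy⟩
      have db := le_dX (G := G) (x1 := z) (x2 := x) (v := b) B fun y hy =>
        ⟨(hB y hy).1, Or.inr (hB y hy).2, eq_or_adj cB xB hy⟩
      have := dq q hq
      have := dq q' hq'
      exact ts z x a q b q' (zQ x xQ) za (zQ q hq) zb (zQ q' hq') xa (xq a q xa hq na) xb
        (xq b q' xb hq' nb') (fun e => aQ (e ▸ hq)) (fun e => bQ (e ▸ hq')) hab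
        (fun e => aQ (e ▸ hq')) (fun e => bQ (e ▸ hq)) e na nb' (by omega) (by omega)
    · obtain ⟨q, hq, na⟩ := ms a za aQ
      obtain ⟨q', hq', nb'⟩ := ms b zb bQ
      obtain rfl : q = q' := by
        by_contra e
        exact hs ⟨q, hq, q', hq', e, na, nb'⟩
      have ja : ∀ y ∈ Q, y ≠ q → G.Adj a y := fun y hy e => by
        by_contra n
        exact hs ⟨y, hy, q, hq, e, n, nb'⟩
      have jb : ∀ y ∈ Q, y ≠ q → G.Adj b y := fun y hy e => by
        by_contra n
        exact hs ⟨q, hq, y, hy, e.symm, na, n⟩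
      have nab : ¬ G.Adj a b := fun e => by
        have c5 : IsClq G (insert b (Q.erase q)) :=
          clq_insert (fun u hu v hv => cQ u (mem_erase.mp hu).2 v (mem_erase.mp hv).2)
            fun y hy => jb y (mem_erase.mp hy).2 (mem_erase.mp hy).1
        have c6 := mx _ (clq_insert (a := a) c5 fun y hy => by
          rcases mem_insert.mp hy with rfl | hy
          · exact e
          · exact ja y (mem_erase.mp hy).2 (mem_erase.mp hy).1) fun y hy => by
          rcases mem_insert.mp hy with rfl | hy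
          · exact za
          · rcases mem_insert.mp hy with rfl | hy
            · exact zb
            · exact zQ y (mem_erase.mp hy).2
        rw [card_insert_of_notMem (by simp [hab, aQ]), card_insert_of_notMem (by simp [bQ]),
          card_erase_of_mem hq] at c6
        omega
      have := dQ a q hq ja
      have := dQ b q hq jb
      have := dq q hq
      exact e3 z x a b q (zQ x xQ) za zb (zQ q hq) xa xb (xq a q xa hq na) hab
        (fun e => aQ (e ▸ hq)) (fun e => bQ (e ▸ hq)) nab na nb' (by omega)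
  have c1 := le_card_sdiff Q (Jset G (k - 4) z)
  by_cases hc : Q.card + 1 = D
  · refine ⟨insert z Q, ⟨by rw [card_insert_of_notMem nz, hc], ?_⟩, mem_insert_self _ _⟩
    have : (insert z Q).card ≤ (Uni G (insert z Q)).card := card_le_card fun x hx =>
      mem_uni.mpr ⟨hx, fun y hy e => cz x hx y hy e.symm⟩
    rw [card_insert_of_notMem nz] at this
    omega
  · obtain ⟨u, hu⟩ := card_pos.mp (show 0 < (Jset G (k - 4) z \ Q).card by omega)
    obtain ⟨hu, uQ'⟩ := mem_sdiff.mp hu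
    obtain ⟨zu, A, -, kA, hA⟩ := mem_filter.mp hu
    have c2 : (Q ∪ A).card ≤ ((nb G z).erase u).card := card_le_card (union_subset
      (fun a ha => mem_erase.mpr ⟨fun e => uQ' (e ▸ ha), sQ ha⟩)
      fun a ha => mem_erase.mpr ⟨(hA a ha).1.ne', mem_nb.mpr (hA a ha).2⟩)
    rw [card_erase_of_mem zu] at c2
    rw [mem_nb] at zu
    have c3 := card_union_add_card_inter Q A
    refine ⟨insert u (insert z Q), ⟨?_, ?_⟩, mem_insert_of_mem (mem_insert_self _ _)⟩
    · rw [card_insert_of_notMem (by simp [uQ', zu.ne']), card_insert_of_notMem nz]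
      omega
    · have : (insert z (Q ∩ A)).card ≤ (Uni G (insert u (insert z Q))).card := by
        refine card_le_card fun x hx => ?_
        have hx' : x ∈ insert z Q := insert_subset_insert _ inter_subset_left hx
        refine mem_uni.mpr ⟨mem_insert_of_mem hx', fun y hy e => ?_⟩
        rcases mem_insert.mp hy with rfl | hy
        · rcases mem_insert.mp hx with rfl | hx
          · exact zu
          · exact (hA x (mem_inter.mp hx).2).1.symm
        · exact cz x hx' y hy e.symm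
      rw [card_insert_of_notMem fun e => nz (mem_inter.mp e).1] at this
      omega

end Pool.Agent.Lib.MP_12eaff_co.BK
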