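import Mathlib
import Pool.Agent.Lib.MP_12eaff_co.BK.Count
import Pool.Agent.Lib.MP_12eaff_co.BK.Sel2
import Pool.Agent.Lib.MP_12eaff_co.BK.Ext
import Pool.Agent.Lib.MP_12eaff_co.BK.TSE
import Pool.Agent.Lib.MP_12eaff_co.BK.RA
import Pool.Agent.Lib.MP_12eaff_co.BK.Tight

set_option autoImplicit false

namespace Pool.Agent.Lib.MP_12eaff_co.BK

open Finset
open scoped Classical

variable {V : Type} [Fintype V]

theorem no_MC {G : SimpleGraph V} {D : ℕ} (hD : 322 ≤ D) (h : MC G D) : False := by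
  have t := ts h
  have e := e3 h
  have r := rg h t e (ra h t e (by omega)) (t := D - 101 - 5) (by omega) (by omega)
  obtain ⟨S, h1, h2, h3, h4, h5, ok⟩ := sel2 h (k := D - 101) (p := 16) (L := 12) r
    (dj h r (by omega)) (p4 h t e (by omega) (by omega)) ext (by omega) (by omega) (by omega)
  exact Sys.not_ok ok h4 h5 (by omega) (by omega)

theorem colr_all {D : ℕ} (hD : 322 ≤ D) (G : SimpleGraph V) :
    (∀ v, (nb G v).card ≤ D + 1) → (∀ Q, IsClq G Q → Q.card ≤ D) → Colr G D := by
  induction hn : G.support.ncard using Nat.strong_induction_on generalizing G with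
  | _ n ih =>
    intro h1 h2
    by_contra h3
    exact no_MC hD ⟨h1, h2, h3, fun G' hG =>
      ih _ (hn ▸ Set.ncard_lt_ncard hG (Set.toFinite _)) G' rfl⟩

end Pool.Agent.Lib.MP_12eaff_co.BK
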