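import Mathlib
import Pool.Agent.Lib.MP_12eaff_co.BK.Defs2
import Pool.Agent.Lib.MP_12eaff_co.BK.Sel
import Pool.Agent.Lib.MP_12eaff_co.BK.Hax
import Pool.Agent.Lib.MP_12eaff_co.BK.Ext

set_option autoImplicit false

namespace Pool.Agent.Lib.MP_12eaff_co.BK

open Finset
open scoped Classical

variable {V : Type} [Fintype V] {G : SimpleGraph V} {D : ℕ}

/-- Selection of the invisible vertices with parts of size four. -/
theorem sel3 (h : MC G D) {k p L : ℕ} (rs : RSst G D (k - 3)) (dj : DJst G D (k - 3))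
    (p4 : P4st2 G D k) (hp : 3 ≤ p) (hL : L + 2 ≤ p) (hk : 4 * p + 3 ≤ k) :
    SelSt2 G D k p L := by
  have ne : Nonempty V := by
    by_contra q
    exact h.ncol ⟨fun _ => 0, fun v => absurd ⟨v⟩ q, fun v => absurd ⟨v⟩ q⟩
  obtain ⟨Kf, hKf⟩ : ∃ Kf : V → Finset V, ∀ K v, Tight G D (k - 3) K → v ∈ K → Kf v = K := by
    refine ⟨fun v => if h : ∃ K, Tight G D (k - 3) K ∧ v ∈ K then h.choose else ∅,
      fun K v hK hv => ?_⟩
    have e : ∃ K, Tight G D (k - 3) K ∧ v ∈ K := ⟨K, hK, hv⟩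
    simp only [dif_pos e]
    exact dj _ _ v e.choose_spec.1 hK e.choose_spec.2 hv
  let un : V → Prop := fun u => Tight G D (k - 3) (Kf u) ∧ u ∈ Uni G (Kf u)
  have um : ∀ {u}, un u → u ∈ Kf u := fun h => (sel_mem_uni.1 h.2).1
  have uo : ∀ {u}, un u → (nb G u \ Kf u).card ≤ 2 := fun hu => sel_out h.deg hu.1.1 hu.2
  let H : V → V → Prop := fun u v => un u ∧ un v ∧ G.Adj u v ∧ v ∉ Kf u
  have Hs : ∀ u v, H u v → H v u := fun u v ⟨a, b, c, d⟩ =>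
    ⟨b, a, c.symm, fun x => d (hKf _ _ b.1 x ▸ um b)⟩
  have Hd : ∀ v, ∃ N : Finset V, N.card ≤ 2 ∧ ∀ u, H v u → u ∈ N := fun v => by
    by_cases hv : un v
    · exact ⟨_, uo hv, fun u hu => mem_sdiff.2 ⟨mem_nb.2 hu.2.2.1, hu.2.2.2⟩⟩
    · exact ⟨∅, by simp, fun u hu => absurd hu.1 hv⟩
  have ex : ∀ K : {K : Finset V // Tight G D (k - 3) K},
      Nonempty (Fin p × Fin 4 ↪ Uni G K.1) := fun K =>
    Function.Embedding.nonempty_of_card_le (by
      have := K.2.2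
      simp only [Fintype.card_prod, Fintype.card_fin, Fintype.card_coe]
      omega)
  let f := fun K => (ex K).some
  let Pt : {K : Finset V // Tight G D (k - 3) K} × Fin p → Finset V :=
    fun x => univ.image fun j : Fin 4 => (f x.1 (x.2, j) : V)
  have Pu : ∀ x, ∀ v ∈ Pt x, v ∈ Uni G x.1.1 := fun x v hv => by
    obtain ⟨j, -, rfl⟩ := mem_image.1 hv
    exact (f x.1 (x.2, j)).2
  have Pd : ∀ x y, x ≠ y → Disjoint (Pt x) (Pt y) := by
    rintro ⟨K, i⟩ ⟨K', i'⟩ hxy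
    refine disjoint_left.2 fun v h1 h2 => hxy ?_
    obtain rfl : K = K' := Subtype.ext (dj _ _ v K.2 K'.2 (sel_mem_uni.1 (Pu _ v h1)).1
      (sel_mem_uni.1 (Pu _ v h2)).1)
    obtain ⟨j, -, a⟩ := mem_image.1 h1
    obtain ⟨j', -, b⟩ := mem_image.1 h2
    have := (f K).injective (Subtype.ext (a.trans b.symm))
    exact Prod.ext rfl (Prod.ext_iff.1 this).1
  obtain ⟨g, g1, g2⟩ := hax_ne _ V univ Pt H 2 ne Hs Hd (fun x _ y _ => Pd x y) (by omega)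
      fun x _ => by
    rw [card_image_of_injective _ fun j j' e =>
      (Prod.ext_iff.1 ((f x.1).injective (Subtype.ext e))).2]
    simp
  have gu : ∀ x, g x ∈ Uni G x.1.1 := fun x => Pu x _ (g1 x (mem_univ _))
  have gm : ∀ x, g x ∈ x.1.1 := fun x => (sel_mem_uni.1 (gu x)).1
  have gK : ∀ x, Kf (g x) = x.1.1 := fun x => hKf _ _ x.1.2 (gm x)
  have gi : Function.Injective g := fun x y e => by_contra fun n =>
    disjoint_left.1 (Pd x y n) (g1 x (mem_univ _)) (e ▸ g1 y (mem_univ _))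
  let P : Finset V := univ.image g
  have pu : ∀ w ∈ P, un w := fun w hw => by
    obtain ⟨x, -, rfl⟩ := mem_image.1 hw
    exact ⟨gK x ▸ x.1.2, gK x ▸ gu x⟩
  have nH : ∀ w ∈ P, ∀ w' ∈ P, w ≠ w' → ¬ H w w' := fun w hw w' hw' n => by
    obtain ⟨x, -, rfl⟩ := mem_image.1 hw
    obtain ⟨y, -, rfl⟩ := mem_image.1 hw'
    exact g2 x (mem_univ _) y (mem_univ _) fun e => n (congrArg g e)
  have pc : ∀ K, Tight G D (k - 3) K → (P.filter (· ∈ K)).card = p := fun K hK => by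
    have : P.filter (· ∈ K) = univ.image fun i : Fin p => g (⟨K, hK⟩, i) := by
      ext w
      simp only [P, mem_filter, mem_image, mem_univ, true_and]
      constructor
      · rintro ⟨⟨⟨K', i⟩, rfl⟩, hw⟩
        obtain rfl : K' = ⟨K, hK⟩ := Subtype.ext (dj _ _ _ K'.2 hK (gm (K', i)) hw)
        exact ⟨i, rfl⟩
      · rintro ⟨i, rfl⟩
        exact ⟨⟨_, rfl⟩, gm (⟨K, hK⟩, i)⟩
    rw [this, card_image_of_injective _ fun i j e => (Prod.ext_iff.1 (gi e)).2]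
    simp
  let S : Sys V := ⟨G, D, D + 2, p, L, P, fun w => P.filter (· ∈ Kf w), fun w => nb G w \ Kf w⟩
  have mem : ∀ w ∈ S.P, w ∈ S.gr w := fun w hw => mem_filter.2 ⟨hw, um (pu w hw)⟩
  have sub : ∀ w ∈ S.P, S.gr w ⊆ S.P := fun w _ => filter_subset _ _
  have keq : ∀ w ∈ S.P, ∀ w' ∈ S.gr w, Kf w' = Kf w := fun w hw w' hw' =>
    hKf _ _ (pu w hw).1 (mem_filter.1 hw').2
  have eqv : ∀ w ∈ S.P, ∀ w' ∈ S.gr w, S.gr w' = S.gr w := fun w hw w' hw' => by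
    simp only [S, keq w hw w' hw']
  have card : ∀ w ∈ S.P, (S.gr w).card = S.p := fun w hw => pc _ (pu w hw).1
  have Ec : ∀ w ∈ S.P, (S.E w).card ≤ 2 := fun w hw => uo (pu w hw)
  have EP : ∀ w ∈ S.P, ∀ x ∈ S.E w, x ∉ S.P := fun w hw x hx hx' => by
    obtain ⟨a, b⟩ := mem_sdiff.1 hx
    exact nH w hw x hx' (mem_nb.1 a).ne ⟨pu w hw, pu x hx', mem_nb.1 a, b⟩
  refine ⟨S, rfl, rfl, rfl, rfl, ⟨h.deg, mem, sub, eqv, card,
    fun w _ x hx => mem_nb.1 (mem_sdiff.1 hx).1, Ec, EP, fun w hw w' hw' n x hx hx' => ?_,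
    fun z _ => Or.inr fun Q q1 (q2 : D + 2 ≤ _) _ => absurd (h.cf Q q1) (by omega),
    fun c hc => ?_⟩, fun z hz => ?_⟩
  · refine n (card_le_one.1 (rs _ x (pu w hw).1 (mem_sdiff.1 hx).2) _ (mem_filter.2 ⟨?_, ?_⟩) _
      (mem_filter.2 ⟨(pu w hw).2, (mem_nb.1 (mem_sdiff.1 hx).1).symm⟩))
    · exact keq w hw w' hw' ▸ (pu w' (sub w hw hw')).2
    · exact (mem_nb.1 (mem_sdiff.1 hx').1).symm
  · by_contra n
    refine h.ncol (ext S Kf hL mem sub eqv card Ec EP (fun w hw => (pu w hw).1.1)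
      (fun w _ x hx => (mem_filter.1 hx).2) keq (fun w _ x hx => ?_)
      (fun w _ x h1 h2 => mem_filter.2 ⟨h2, h1⟩) c hc fun v hv => by_contra fun e => n ⟨v, hv, e⟩)
    by_cases e : x ∈ Kf w
    exacts [Or.inl e, Or.inr (mem_sdiff.2 ⟨mem_nb.2 hx, e⟩)]
  · by_cases hz' : ∃ K, Tight G D (k - 3) K ∧ z ∈ K
    · obtain ⟨K, hK, hzK⟩ := hz'
      refine Or.inl ⟨P.filter (· ∈ K), filter_subset _ _, (pc K hK).symm ▸ hp, fun w hw => ?_⟩
      obtain ⟨w1, w2⟩ := mem_filter.1 hw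
      have e := hKf K w hK w2
      exact ⟨((sel_mem_uni.1 (pu w w1).2).2 z (e ▸ hzK) fun n => hz (n ▸ w1)).symm,
        fun n => (mem_sdiff.1 n).2 (e ▸ hzK)⟩
    · refine Or.inr fun Q q1 q2 q3 => by_contra fun n => hz' (p4 z Q q1 q2 q3 ?_)
      change ¬ (Jset G (k - 3) z).card + 2 ≤ D at n
      omega

end Pool.Agent.Lib.MP_12eaff_co.BK
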