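import Mathlib
import Pool.Agent.Lib.MP_12eaff_co.BK.Tight2
import Pool.Agent.Lib.MP_12eaff_co.BK.RS
import Pool.Agent.Lib.MP_12eaff_co.BK.Sel3

set_option autoImplicit false

namespace Pool.Agent.Lib.MP_12eaff_co.BK

open Finset
open scoped Classical

variable {V : Type} [Fintype V] {G : SimpleGraph V} {D : ℕ}

/-- `P4st2` with a separate tightness parameter. -/
def P4st3 (G : SimpleGraph V) (D k t : ℕ) : Prop :=
  ∀ (z : V) (Q : Finset V), IsClq G Q → k ≤ Q.card → (∀ a ∈ Q, G.Adj z a) →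
    D ≤ (Jset G (k - 3) z).card + 1 → ∃ K, Tight G D t K ∧ z ∈ K

open Tight in
theorem p43 (h : MC G D) (ts : TSst G D) (e3b : E3bst G D) {k : ℕ} (hk : D + 10 ≤ 2 * k)
    (hD : 30 ≤ D) : P4st3 G D k (k - 2) := by
  intro z Q0 q1 q2 q3 hJ
  obtain ⟨Q, hQ, hmax⟩ := exists_max_image
    (univ.filter fun Q : Finset V => IsClq G Q ∧ ∀ a ∈ Q, G.Adj z a) card
    ⟨Q0, mem_filter.mpr ⟨mem_univ _, q1, q3⟩⟩
  obtain ⟨cQ, zQ⟩ := (mem_filter.mp hQ).2
  have mx : ∀ Q', IsClq G Q' → (∀ a ∈ Q', G.Adj z a) → Q'.card ≤ Q.card := fun Q' a b =>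
    hmax Q' (mem_filter.mpr ⟨mem_univ _, a, b⟩)
  have kQ : k ≤ Q.card := q2.trans (mx Q0 q1 q3)
  have nz : z ∉ Q := fun e => (zQ z e).ne rfl
  have cz := clq_insert cQ zQ
  have uQ := h.cf _ cz
  rw [card_insert_of_notMem nz] at uQ
  have dz := h.deg z
  have sQ : Q ⊆ nb G z := fun a ha => mem_nb.mpr (zQ a ha)
  have ms : ∀ a, G.Adj z a → a ∉ Q → ∃ q ∈ Q, ¬ G.Adj a q := fun a a1 a2 => by
    by_contra hc
    push Not at hc
    have := mx _ (clq_insert cQ hc) (by simpa [a1] using zQ)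
    rw [card_insert_of_notMem a2] at this
    omega
  have pair : ∀ a b x, a ≠ b → G.Adj z a → G.Adj z b → a ∉ Q → b ∉ Q → x ∈ Q → G.Adj x a →
      G.Adj x b → k ≤ dX G z x a + 6 → k ≤ dX G z x b + 6 → False := by
    intro a b x hab za zb aQ bQ xQ xa xb da db
    have dq : ∀ q ∈ Q, k ≤ dX G z x q := fun q hq => by
      have := le_dX (G := G) (x1 := z) (x2 := x) (v := q) (insert z (Q.erase q)) fun y hy => by
        rcases mem_insert.mp hy with rfl | hy
        · exact ⟨(zQ q hq).symm, Or.inl rfl, Or.inr (zQ x xQ).symm⟩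
        · obtain ⟨y1, y2⟩ := mem_erase.mp hy
          exact ⟨cQ q hq y y2 y1.symm, Or.inr (zQ y y2), eq_or_adj cQ xQ y2⟩
      rw [card_insert_of_notMem fun e => nz (mem_erase.mp e).2, card_erase_of_mem hq] at this
      omega
    have xq : ∀ c q, G.Adj x c → q ∈ Q → ¬ G.Adj c q → G.Adj x q := fun c q e1 e2 e3' =>
      (eq_or_adj cQ xQ e2).resolve_left fun e => e3' (e ▸ e1.symm)
    by_cases hs : ∃ q ∈ Q, ∃ q' ∈ Q, q ≠ q' ∧ ¬ G.Adj a q ∧ ¬ G.Adj b q'
    · obtain ⟨q, hq, q', hq', e, na, nb'⟩ := hs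
      have := dq q hq
      have := dq q' hq'
      exact ts z x a q b q' (zQ x xQ) za (zQ q hq) zb (zQ q' hq') xa (xq a q xa hq na) xb
        (xq b q' xb hq' nb') (fun e => aQ (e ▸ hq)) (fun e => bQ (e ▸ hq')) hab
        (fun e => aQ (e ▸ hq')) (fun e => bQ (e ▸ hq)) e na nb' (by omega) (by omega)
    · obtain ⟨q, hq, na⟩ := ms a za aQ
      obtain ⟨q', hq', nb'⟩ := ms b zb bQ
      obtain rfl : q = q' := by
        by_contra e
        exact hs ⟨q, hq, q', hq', e, na, nb'⟩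
      have ja : ∀ y ∈ Q, y ≠ q → G.Adj a y := fun y hy e => by
        by_contra n
        exact hs ⟨y, hy, q, hq, e, n, nb'⟩
      have jb : ∀ y ∈ Q, y ≠ q → G.Adj b y := fun y hy e => by
        by_contra n
        exact hs ⟨q, hq, y, hy, e.symm, na, n⟩
      have nab : ¬ G.Adj a b := fun e => by
        have c5 : IsClq G (insert b (Q.erase q)) :=
          clq_insert (fun u hu v hv => cQ u (mem_erase.mp hu).2 v (mem_erase.mp hv).2)
            fun y hy => jb y (mem_erase.mp hy).2 (mem_erase.mp hy).1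
        have c6 := mx _ (clq_insert (a := a) c5 fun y hy => by
          rcases mem_insert.mp hy with rfl | hy
          · exact e
          · exact ja y (mem_erase.mp hy).2 (mem_erase.mp hy).1) fun y hy => by
          rcases mem_insert.mp hy with rfl | hy
          · exact za
          · rcases mem_insert.mp hy with rfl | hy
            · exact zb
            · exact zQ y (mem_erase.mp hy).2
        rw [card_insert_of_notMem (by simp [hab, aQ]), card_insert_of_notMem (by simp [bQ]),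
          card_erase_of_mem hq] at c6
        omega
      have sW : insert z (Q.erase q) ⊆ insert z Q := insert_subset_insert _ (erase_subset _ _)
      have cW : (insert z (Q.erase q)).card = Q.card := by
        rw [card_insert_of_notMem fun e => nz (mem_erase.mp e).2, card_erase_of_mem hq]
        omega
      refine e3b (insert z (Q.erase q)) a b q (fun u hu v hv => cz u (sW hu) v (sW hv)) (by omega)
        (by omega) hab (fun e => aQ (e ▸ hq)) (fun e => bQ (e ▸ hq)) nab na nb' fun y hy => ?_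
      rcases mem_insert.mp hy with rfl | hy
      · exact ⟨za, zb, zQ q hq⟩
      · obtain ⟨y1, y2⟩ := mem_erase.mp hy
        exact ⟨(ja y y2 y1).symm, (jb y y2 y1).symm, cQ y y2 q hq y1⟩
  have big : ∀ A, IsClq G A → k - 3 ≤ A.card → (∀ a ∈ A, G.Adj z a) → k ≤ (Q ∩ A).card + 4 := by
    intro A cA kA zA
    have c1 := card_le_card (union_subset sQ (show A ⊆ nb G z from fun a ha =>
      mem_nb.mpr (zA a ha)))
    have c3 := card_union_add_card_inter Q A
    obtain ⟨x, hx⟩ := card_pos.mp (show 0 < (Q ∩ A).card by omega)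
    obtain ⟨xQ, xA⟩ := mem_inter.mp hx
    have dA : ∀ a ∈ A, k ≤ dX G z x a + 6 := fun a ha => by
      have := le_dX (G := G) (x1 := z) (x2 := x) (v := a) (A.erase a) fun y hy =>
        ⟨cA a ha y (mem_erase.mp hy).2 (mem_erase.mp hy).1.symm, Or.inr (zA y (mem_erase.mp hy).2),
          eq_or_adj cA xA (mem_erase.mp hy).2⟩
      rw [card_erase_of_mem ha] at this
      omega
    have o : (A \ Q).card ≤ 1 := card_le_one.mpr fun a ha b hb => by
      by_contra hab
      obtain ⟨a1, a2⟩ := mem_sdiff.mp ha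
      obtain ⟨b1, b2⟩ := mem_sdiff.mp hb
      exact pair a b x hab (zA a a1) (zA b b1) a2 b2 xQ (cA x xA a a1 fun e => a2 (e ▸ xQ))
        (cA x xA b b1 fun e => b2 (e ▸ xQ)) (dA a a1) (dA b b1)
    have c4 := card_sdiff_add_card_inter A Q
    rw [inter_comm] at c4
    omega
  have one : (Jset G (k - 3) z \ Q).card ≤ 1 := by
    refine card_le_one.mpr fun a ha b hb => ?_
    by_contra hab
    obtain ⟨ha, aQ⟩ := mem_sdiff.mp ha
    obtain ⟨hb, bQ⟩ := mem_sdiff.mp hb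
    obtain ⟨za, A, cA, kA, hA⟩ := mem_filter.mp ha
    obtain ⟨zb, B, cB, kB, hB⟩ := mem_filter.mp hb
    rw [mem_nb] at za zb
    have c1 := big A cA kA fun y hy => (hA y hy).2
    have c2 := big B cB kB fun y hy => (hB y hy).2
    have c3 : (Q ∩ A ∪ Q ∩ B).card ≤ Q.card :=
      card_le_card (union_subset inter_subset_left inter_subset_left)
    have c4 := card_union_add_card_inter (Q ∩ A) (Q ∩ B)
    obtain ⟨x, hx⟩ := card_pos.mp (show 0 < (Q ∩ A ∩ (Q ∩ B)).card by omega)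
    obtain ⟨hx, xB⟩ := mem_inter.mp hx
    obtain ⟨xQ, xA⟩ := mem_inter.mp hx
    have xB := (mem_inter.mp xB).2
    have da := le_dX (G := G) (x1 := z) (x2 := x) (v := a) A fun y hy =>
      ⟨(hA y hy).1, Or.inr (hA y hy).2, eq_or_adj cA xA hy⟩
    have db := le_dX (G := G) (x1 := z) (x2 := x) (v := b) B fun y hy =>
      ⟨(hB y hy).1, Or.inr (hB y hy).2, eq_or_adj cB xB hy⟩
    exact pair a b x hab za zb aQ bQ xQ (hA x xA).1.symm (hB x xB).1.symm (by omega) (by omega)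
  have c1 := le_card_sdiff Q (Jset G (k - 3) z)
  by_cases hc : Q.card + 1 = D
  · refine ⟨insert z Q, ⟨by rw [card_insert_of_notMem nz, hc], ?_⟩, mem_insert_self _ _⟩
    have : (insert z Q).card ≤ (Uni G (insert z Q)).card := card_le_card fun x hx =>
      mem_uni.mpr ⟨hx, fun y hy e => cz x hx y hy e.symm⟩
    rw [card_insert_of_notMem nz] at this
    omega
  · obtain ⟨u, hu⟩ := card_pos.mp (show 0 < (Jset G (k - 3) z \ Q).card by omega)
    obtain ⟨hu, uQ'⟩ := mem_sdiff.mp hu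
    obtain ⟨zu, A, cA, kA, hA⟩ := mem_filter.mp hu
    rw [mem_nb] at zu
    have hu' : u ∈ Jset G (k - 3) z := mem_filter.mpr ⟨mem_nb.mpr zu, A, cA, kA, hA⟩
    have AQ : Q ∩ A = A := inter_eq_right.mpr fun a ha => by
      by_contra n
      have uA : u ∉ A.erase a := fun q => (hA u (mem_erase.mp q).2).1.ne rfl
      have aJ : a ∈ Jset G (k - 3) z := by
        refine mem_filter.mpr ⟨mem_nb.mpr (hA a ha).2, insert u (A.erase a),
          clq_insert (fun x hx y hy => cA x (mem_erase.mp hx).2 y (mem_erase.mp hy).2)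
            (fun y hy => (hA y (mem_erase.mp hy).2).1), ?_, fun y hy => ?_⟩
        · rw [card_insert_of_notMem uA, card_erase_add_one ha]; exact kA
        · rcases mem_insert.mp hy with rfl | hy
          · exact ⟨(hA a ha).1.symm, zu⟩
          · exact ⟨cA a ha y (mem_erase.mp hy).2 (mem_erase.mp hy).1.symm,
              (hA y (mem_erase.mp hy).2).2⟩
      exact (hA a ha).1.ne (card_le_one.mp one u (mem_sdiff.mpr ⟨hu', uQ'⟩) a
        (mem_sdiff.mpr ⟨aJ, n⟩))
    have c3 : k - 3 ≤ (Q ∩ A).card := by rw [AQ]; exact kA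
    refine ⟨insert u (insert z Q), ⟨?_, ?_⟩, mem_insert_of_mem (mem_insert_self _ _)⟩
    · rw [card_insert_of_notMem (by simp [uQ', zu.ne']), card_insert_of_notMem nz]
      omega
    · have : (insert z (Q ∩ A)).card ≤ (Uni G (insert u (insert z Q))).card := by
        refine card_le_card fun x hx => ?_
        have hx' : x ∈ insert z Q := insert_subset_insert _ inter_subset_left hx
        refine mem_uni.mpr ⟨mem_insert_of_mem hx', fun y hy e => ?_⟩
        rcases mem_insert.mp hy with rfl | hy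
        · rcases mem_insert.mp hx with rfl | hx
          · exact zu
          · exact (hA x (mem_inter.mp hx).2).1.symm
        · exact cz x hx' y hy e.symm
      rw [card_insert_of_notMem fun e => nz (mem_inter.mp e).1] at this
      omega

/-- Selection of the invisible vertices with parts of size four. -/
theorem sel4 (h : MC G D) {k t p L : ℕ} (rs : RSst G D t) (dj : DJst G D t)
    (p4 : P4st3 G D k t) (hp : 3 ≤ p) (hL : L + 2 ≤ p) (hk : 4 * p ≤ t) :
    SelSt2 G D k p L := by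
  have ne : Nonempty V := by
    by_contra q
    exact h.ncol ⟨fun _ => 0, fun v => absurd ⟨v⟩ q, fun v => absurd ⟨v⟩ q⟩
  obtain ⟨Kf, hKf⟩ : ∃ Kf : V → Finset V, ∀ K v, Tight G D t K → v ∈ K → Kf v = K := by
    refine ⟨fun v => if h : ∃ K, Tight G D t K ∧ v ∈ K then h.choose else ∅,
      fun K v hK hv => ?_⟩
    have e : ∃ K, Tight G D t K ∧ v ∈ K := ⟨K, hK, hv⟩
    simp only [dif_pos e]
    exact dj _ _ v e.choose_spec.1 hK e.choose_spec.2 hv
  let un : V → Prop := fun u => Tight G D t (Kf u) ∧ u ∈ Uni G (Kf u)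
  have um : ∀ {u}, un u → u ∈ Kf u := fun h => (sel_mem_uni.1 h.2).1
  have uo : ∀ {u}, un u → (nb G u \ Kf u).card ≤ 2 := fun hu => sel_out h.deg hu.1.1 hu.2
  let H : V → V → Prop := fun u v => un u ∧ un v ∧ G.Adj u v ∧ v ∉ Kf u
  have Hs : ∀ u v, H u v → H v u := fun u v ⟨a, b, c, d⟩ =>
    ⟨b, a, c.symm, fun x => d (hKf _ _ b.1 x ▸ um b)⟩
  have Hd : ∀ v, ∃ N : Finset V, N.card ≤ 2 ∧ ∀ u, H v u → u ∈ N := fun v => by
    by_cases hv : un v
    · exact ⟨_, uo hv, fun u hu => mem_sdiff.2 ⟨mem_nb.2 hu.2.2.1, hu.2.2.2⟩⟩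
    · exact ⟨∅, by simp, fun u hu => absurd hu.1 hv⟩
  have ex : ∀ K : {K : Finset V // Tight G D t K},
      Nonempty (Fin p × Fin 4 ↪ Uni G K.1) := fun K =>
    Function.Embedding.nonempty_of_card_le (by
      have := K.2.2
      simp only [Fintype.card_prod, Fintype.card_fin, Fintype.card_coe]
      omega)
  let f := fun K => (ex K).some
  let Pt : {K : Finset V // Tight G D t K} × Fin p → Finset V :=
    fun x => univ.image fun j : Fin 4 => (f x.1 (x.2, j) : V)
  have Pu : ∀ x, ∀ v ∈ Pt x, v ∈ Uni G x.1.1 := fun x v hv => by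
    obtain ⟨j, -, rfl⟩ := mem_image.1 hv
    exact (f x.1 (x.2, j)).2
  have Pd : ∀ x y, x ≠ y → Disjoint (Pt x) (Pt y) := by
    rintro ⟨K, i⟩ ⟨K', i'⟩ hxy
    refine disjoint_left.2 fun v h1 h2 => hxy ?_
    obtain rfl : K = K' := Subtype.ext (dj _ _ v K.2 K'.2 (sel_mem_uni.1 (Pu _ v h1)).1
      (sel_mem_uni.1 (Pu _ v h2)).1)
    obtain ⟨j, -, a⟩ := mem_image.1 h1
    obtain ⟨j', -, b⟩ := mem_image.1 h2
    have := (f K).injective (Subtype.ext (a.trans b.symm))
    exact Prod.ext rfl (Prod.ext_iff.1 this).1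
  obtain ⟨g, g1, g2⟩ := hax_ne _ V univ Pt H 2 ne Hs Hd (fun x _ y _ => Pd x y) (by omega)
      fun x _ => by
    rw [card_image_of_injective _ fun j j' e =>
      (Prod.ext_iff.1 ((f x.1).injective (Subtype.ext e))).2]
    simp
  have gu : ∀ x, g x ∈ Uni G x.1.1 := fun x => Pu x _ (g1 x (mem_univ _))
  have gm : ∀ x, g x ∈ x.1.1 := fun x => (sel_mem_uni.1 (gu x)).1
  have gK : ∀ x, Kf (g x) = x.1.1 := fun x => hKf _ _ x.1.2 (gm x)
  have gi : Function.Injective g := fun x y e => by_contra fun n =>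
    disjoint_left.1 (Pd x y n) (g1 x (mem_univ _)) (e ▸ g1 y (mem_univ _))
  let P : Finset V := univ.image g
  have pu : ∀ w ∈ P, un w := fun w hw => by
    obtain ⟨x, -, rfl⟩ := mem_image.1 hw
    exact ⟨gK x ▸ x.1.2, gK x ▸ gu x⟩
  have nH : ∀ w ∈ P, ∀ w' ∈ P, w ≠ w' → ¬ H w w' := fun w hw w' hw' n => by
    obtain ⟨x, -, rfl⟩ := mem_image.1 hw
    obtain ⟨y, -, rfl⟩ := mem_image.1 hw'
    exact g2 x (mem_univ _) y (mem_univ _) fun e => n (congrArg g e)
  have pc : ∀ K, Tight G D t K → (P.filter (· ∈ K)).card = p := fun K hK => by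
    have : P.filter (· ∈ K) = univ.image fun i : Fin p => g (⟨K, hK⟩, i) := by
      ext w
      simp only [P, mem_filter, mem_image, mem_univ, true_and]
      constructor
      · rintro ⟨⟨⟨K', i⟩, rfl⟩, hw⟩
        obtain rfl : K' = ⟨K, hK⟩ := Subtype.ext (dj _ _ _ K'.2 hK (gm (K', i)) hw)
        exact ⟨i, rfl⟩
      · rintro ⟨i, rfl⟩
        exact ⟨⟨_, rfl⟩, gm (⟨K, hK⟩, i)⟩
    rw [this, card_image_of_injective _ fun i j e => (Prod.ext_iff.1 (gi e)).2]
    simp
  let S : Sys V := ⟨G, D, D + 2, p, L, P, fun w => P.filter (· ∈ Kf w), fun w => nb G w \ Kf w⟩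
  have mem : ∀ w ∈ S.P, w ∈ S.gr w := fun w hw => mem_filter.2 ⟨hw, um (pu w hw)⟩
  have sub : ∀ w ∈ S.P, S.gr w ⊆ S.P := fun w _ => filter_subset _ _
  have keq : ∀ w ∈ S.P, ∀ w' ∈ S.gr w, Kf w' = Kf w := fun w hw w' hw' =>
    hKf _ _ (pu w hw).1 (mem_filter.1 hw').2
  have eqv : ∀ w ∈ S.P, ∀ w' ∈ S.gr w, S.gr w' = S.gr w := fun w hw w' hw' => by
    simp only [S, keq w hw w' hw']
  have card : ∀ w ∈ S.P, (S.gr w).card = S.p := fun w hw => pc _ (pu w hw).1
  have Ec : ∀ w ∈ S.P, (S.E w).card ≤ 2 := fun w hw => uo (pu w hw)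
  have EP : ∀ w ∈ S.P, ∀ x ∈ S.E w, x ∉ S.P := fun w hw x hx hx' => by
    obtain ⟨a, b⟩ := mem_sdiff.1 hx
    exact nH w hw x hx' (mem_nb.1 a).ne ⟨pu w hw, pu x hx', mem_nb.1 a, b⟩
  refine ⟨S, rfl, rfl, rfl, rfl, ⟨h.deg, mem, sub, eqv, card,
    fun w _ x hx => mem_nb.1 (mem_sdiff.1 hx).1, Ec, EP, fun w hw w' hw' n x hx hx' => ?_,
    fun z _ => Or.inr fun Q q1 (q2 : D + 2 ≤ _) _ => absurd (h.cf Q q1) (by omega),
    fun c hc => ?_⟩, fun z hz => ?_⟩
  · refine n (card_le_one.1 (rs _ x (pu w hw).1 (mem_sdiff.1 hx).2) _ (mem_filter.2 ⟨?_, ?_⟩) _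
      (mem_filter.2 ⟨(pu w hw).2, (mem_nb.1 (mem_sdiff.1 hx).1).symm⟩))
    · exact keq w hw w' hw' ▸ (pu w' (sub w hw hw')).2
    · exact (mem_nb.1 (mem_sdiff.1 hx').1).symm
  · by_contra n
    refine h.ncol (ext S Kf hL mem sub eqv card Ec EP (fun w hw => (pu w hw).1.1)
      (fun w _ x hx => (mem_filter.1 hx).2) keq (fun w _ x hx => ?_)
      (fun w _ x h1 h2 => mem_filter.2 ⟨h2, h1⟩) c hc fun v hv => by_contra fun e => n ⟨v, hv, e⟩)
    by_cases e : x ∈ Kf w
    exacts [Or.inl e, Or.inr (mem_sdiff.2 ⟨mem_nb.2 hx, e⟩)]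
  · by_cases hz' : ∃ K, Tight G D t K ∧ z ∈ K
    · obtain ⟨K, hK, hzK⟩ := hz'
      refine Or.inl ⟨P.filter (· ∈ K), filter_subset _ _, (pc K hK).symm ▸ hp, fun w hw => ?_⟩
      obtain ⟨w1, w2⟩ := mem_filter.1 hw
      have e := hKf K w hK w2
      exact ⟨((sel_mem_uni.1 (pu w w1).2).2 z (e ▸ hzK) fun n => hz (n ▸ w1)).symm,
        fun n => (mem_sdiff.1 n).2 (e ▸ hzK)⟩
    · refine Or.inr fun Q q1 q2 q3 => by_contra fun n => hz' (p4 z Q q1 q2 q3 ?_)
      change ¬ (Jset G (k - 3) z).card + 2 ≤ D at n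
      omega

open RS

theorem rs2 (h : MC G D) (ts : TSst G D) (ra : RAst G D) {t : ℕ} (rg : RGst G D t)
    (ht : 32 ≤ t) (hD : 14 ≤ D) : RSst G D t := by
  intro K z hK hz
  by_contra hT
  obtain ⟨x1, h1, x2, h2, n⟩ := (one_lt_card (s := (Uni G K).filter (G.Adj z))).mp (by omega)
  obtain ⟨h1, a1⟩ := mem_filter.mp h1
  obtain ⟨h2, a2⟩ := mem_filter.mp h2
  obtain ⟨y1, b1, k1, z1⟩ := lone h ts ra rg (by omega) (by omega) hK h1 h2 n a1 a2 hz
  obtain ⟨y2, b2, k2, z2⟩ := lone h ts ra rg (by omega) (by omega) hK h2 h1 n.symm a2 a1 hz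
  have m1 := (sel_mem_uni.mp h1).1
  have m2 := (sel_mem_uni.mp h2).1
  obtain ⟨w, w1, -, w2⟩ := pick rg hK {z, y1, y2} ∅ (fun y hy => by
      simp only [mem_insert, mem_singleton] at hy
      rcases hy with rfl | rfl | rfl <;> assumption)
    (by have := card_le_three (a := z) (b := y1) (c := y2); rw [card_empty]; omega)
  have nz := w2 z (by simp)
  have ny1 := w2 y1 (by simp)
  have ny2 := w2 y2 (by simp)
  have mw := (sel_mem_uni.mp w1).1
  have o := sel_out h.deg hK.1 w1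
  have n1 : w ≠ x1 := fun e => nz (e ▸ a1)
  have n2 : w ≠ x2 := fun e => nz (e ▸ a2)
  have me : ∀ {u a}, a ∈ nb G u \ K → G.Adj a u := fun q => (mem_nb.mp (mem_sdiff.mp q).1).symm
  by_cases e : y1 = y2
  · subst e
    obtain ⟨m, v1, v3, v2⟩ := pick rg hK (insert z (insert y1 (nb G w \ K))) {w} (fun y hy => by
        simp only [mem_insert] at hy
        rcases hy with rfl | rfl | hy
        · exact hz
        · exact k1
        · exact (mem_sdiff.mp hy).2)
      (by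
        have := card_insert_le z (insert y1 (nb G w \ K))
        have := card_insert_le y1 (nb G w \ K)
        rw [card_singleton]
        omega)
    have mz := v2 z (mem_insert_self _ _)
    have mm := (sel_mem_uni.mp v1).1
    have o' := sel_out h.deg hK.1 v1
    obtain ⟨c, c1, c2, c3, c4⟩ := col_stars h ts ra (by omega) K (y := y1) (nb G w \ K)
      (nb G m \ K) m1 a1 (o.trans (two_le m1 m2 n a1 a2))
      (o'.trans (two_le m1 m2 n b1.symm b2.symm)) o o' (fun a ha => ⟨w, mw, me ha⟩)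
      (fun a ha => ⟨m, mm, me ha⟩) z1 (fun q => nz (me q)) (fun q => ny1 (me q))
      (fun q => mz (me q)) (fun q => v2 y1 (by simp) (me q))
      fun a ha q => v2 a (mem_insert_of_mem (mem_insert_of_mem ha)) (me q)
    obtain ⟨e, e1, e2, e3⟩ := (fit h c1 c2 h1 h2 mw n n1 n2 a1 a2 hz
      (fun e he q => c3 hz e (mem_sdiff.mpr ⟨mem_nb.mpr he, q⟩) q) b1 k1 z1).2 m mm
      (fun e => mz (e ▸ a1)) (fun e => mz (e ▸ a2)) fun e => v3 (mem_singleton.mpr e)
    exact c4 k1 e (mem_sdiff.mpr ⟨mem_nb.mpr e1, e2⟩) e2 e3.symm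
  obtain ⟨c, c1, c2, c3, c4⟩ := col_stars h ts ra (by omega) K (y := y1) (nb G w \ K) {y2} m1 a1
    (o.trans (two_le m1 m2 n a1 a2))
    (by rw [card_singleton]; exact card_pos.mpr ⟨x1, mem_inter.mpr ⟨mem_nb.mpr b1.symm, m1⟩⟩) o
    (by simp) (fun a ha => ⟨w, mw, me ha⟩) (fun a ha => ⟨x2, m2, mem_singleton.mp ha ▸ b2.symm⟩)
    z1 (fun q => nz (me q)) (fun q => ny1 (me q)) (fun q => z2 (mem_singleton.mp q))
    (fun q => e (mem_singleton.mp q)) fun a ha q => ny2 (mem_singleton.mp q ▸ me ha)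
  have c12 := c4 k1 y2 (mem_singleton_self _) k2
  have fw : ∀ e, G.Adj w e → e ∉ K → c z ≠ c e := fun e he q =>
    c3 hz e (mem_sdiff.mpr ⟨mem_nb.mpr he, q⟩) q
  obtain ⟨f1, g1⟩ := fit h c1 c2 h1 h2 mw n n1 n2 a1 a2 hz fw b1 k1 z1
  obtain ⟨f2, g2⟩ := fit h c1 c2 h2 h1 mw n.symm n2 n1 a2 a1 hz fw b2 k2 z2
  obtain ⟨t1, s1, s2, -⟩ := pick rg hK ∅ {x1, x2, w} (by simp)
    (by have := card_le_three (a := x1) (b := x2) (c := w); rw [card_empty]; omega)
  obtain ⟨t2, r1, r2, -⟩ := pick rg hK ∅ {t1, x1, x2, w} (by simp)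
    (by have := card_le_four (a := t1) (b := x1) (c := x2) (d := w); rw [card_empty]; omega)
  simp only [mem_insert, mem_singleton, not_or] at s2 r2
  have cy1 := (c2 y1).mpr k1
  have cy2 := (c2 y2).mpr k2
  have p1 : PCol G D (Function.update c x1 (c y2)) := c1.put fun e he q => by
    rcases ends h hK.1 h1 a1.symm hz b1 k1 z1 he ((c2 e).mp (q ▸ cy2)) with k | k
    · exact f2 (k ▸ q)
    · exact c12 (k ▸ q)
  have p2 : PCol G D (Function.update (Function.update c x1 (c y2)) x2 (c y1)) :=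
    p1.put fun e he q => by
      by_cases k : e = x1
      · rw [k, Function.update_self] at q
        exact c12 q.symm
      · rw [Function.update_of_ne k] at q
        rcases ends h hK.1 h2 a2.symm hz b2 k2 z2 he ((c2 e).mp (q ▸ cy1)) with k | k
        · exact f1 (k ▸ q)
        · exact c12 (k ▸ q).symm
  obtain ⟨c', e'⟩ : ∃ c', c' = Function.update (Function.update c x1 (c y2)) x2 (c y1) := ⟨_, rfl⟩
  have d2 : c' x2 = c y1 := by rw [e', Function.update_self]
  have d1 : c' x1 = c y2 := by rw [e', Function.update_of_ne n, Function.update_self]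
  have d0 : ∀ v, v ≠ x1 → v ≠ x2 → c' v = c v := fun v a b => by
    rw [e', Function.update_of_ne b, Function.update_of_ne a]
  have d3 : ∀ v, v ∉ K → c' v = c v := fun v a =>
    d0 v (fun k => a (k ▸ m1)) fun k => a (k ▸ m2)
  rw [← e'] at p2
  have ms := (sel_mem_uni.mp s1).1
  have mr := (sel_mem_uni.mp r1).1
  obtain ⟨e0, i1, i2, i3⟩ := g1 t1 ms s2.1 s2.2.1 s2.2.2
  obtain ⟨e1, j1, j2, j3⟩ := g1 t2 mr r2.2.1 r2.2.2.1 r2.2.2.2
  obtain ⟨e2, l1, l2, l3⟩ := g2 t2 mr r2.2.2.1 r2.2.1 r2.2.2.2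
  have nm : ∀ v, v ∉ K → v ∉ ({x1, x2} : Finset V) := fun v a k =>
    (mem_insert.mp k).elim (fun k => a (k ▸ m1)) fun k => a (mem_singleton.mp k ▸ m2)
  refine fin h p2 (fun v hv => ?_) s1 r1 r2.1 ?_ ?_
    ((sel_mem_uni.mp s1).2 x2 m2 (Ne.symm s2.2.1)) i1 (fun k => i2 (k ▸ m2)) (d2 ▸ cy1)
    (by rw [d3 _ i2, d2, i3]) {x1, x2} (fun b hb => ?_) ?_
  · by_contra k
    exact hv (d3 v k ▸ (c2 v).mpr k)
  · rw [d0 _ s2.1 s2.2.1]
    exact fun k => (c2 _).mp k ms
  · rw [d0 _ r2.2.1 r2.2.2.1]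
    exact fun k => (c2 _).mp k mr
  · rcases mem_insert.mp hb with k | k
    · rw [k, d1]
      exact ⟨cy2, e2, l1, nm _ l2, by rw [d3 _ l2, l3]⟩
    · rw [mem_singleton.mp k, d2]
      exact ⟨cy1, e1, j1, nm _ j2, by rw [d3 _ j2, j3]⟩
  · have a := RA.two h t2 {x1, x2} (nb G t2 \ {x1, x2}) disjoint_sdiff (fun a ha =>
      (mem_insert.mp ha).elim (fun k => k ▸ (sel_mem_uni.mp r1).2 x1 m1 (Ne.symm r2.2.1))
        fun k => mem_singleton.mp k ▸ (sel_mem_uni.mp r1).2 x2 m2 (Ne.symm r2.2.2.1))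
      fun _ a => mem_nb.mp (mem_sdiff.mp a).1
    rw [card_pair n] at a
    omega

end Pool.Agent.Lib.MP_12eaff_co.BK
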