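import Mathlib
import Pool.Agent.Lib.MP_12eaff_co.BK.Count2
import Pool.Agent.Lib.MP_12eaff_co.BK.Stat2
import Pool.Agent.Lib.MP_12eaff_co.BK.E3b

set_option autoImplicit false

namespace Pool.Agent.Lib.MP_12eaff_co.BK

open Finset
open scoped Classical

variable {V : Type} [Fintype V]

theorem no_MC2 {G : SimpleGraph V} {D : ℕ} (hD : 55 ≤ D) (h : MC G D) : False := by
  have t := ts h
  have e := e3b h
  have a := ra h t (e3 h) (by omega)
  have r := rs2 h t a (rg2 h t e a (t := D - 9 - 2) (by omega) (by omega)) (by omega) (by omega)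
  obtain ⟨S, h1, h2, h4, h5, ok, p4⟩ := sel4 h (k := D - 9) (p := 11) (L := 7) r
    (dj2 h r (by omega)) (p43 h t e (by omega) (by omega)) (by omega) (by omega) (by omega)
  obtain ⟨c, T, X⟩ := Sys.exists_ctx2 ok ⟨by omega, by omega⟩
  exact X.false p4 h4 h5 (by omega) (by omega)

theorem colr_all2 {D : ℕ} (hD : 55 ≤ D) (G : SimpleGraph V) :
    (∀ v, (nb G v).card ≤ D + 1) → (∀ Q, IsClq G Q → Q.card ≤ D) → Colr G D := by
  induction hn : G.support.ncard using Nat.strong_induction_on generalizing G with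
  | _ n ih =>
    intro h1 h2
    by_contra h3
    exact no_MC2 hD ⟨h1, h2, h3, fun G' hG =>
      ih _ (hn ▸ Set.ncard_lt_ncard hG (Set.toFinite _)) G' rfl⟩

end Pool.Agent.Lib.MP_12eaff_co.BK
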